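import Pool.Agent.H67.CubeSpec

/-!
Poonen's strengthening of the union-closed sets conjecture for families containing at least half
of the subsets of their universe.
-/

set_option autoImplicit false

namespace Pool.Agent.H67.Cube

open Finset

variable {α : Type*} [DecidableEq α]

set_option linter.unusedSectionVars false

/-- Indicator of the complement of `A`. -/
def ind (A : Finset (Finset α)) (X : Finset α) : ℝ := if X ∈ A then 0 else 1

section
variable (A : Finset (Finset α)) (U : Finset α) (hAU : ∀ X ∈ A, X ⊆ U)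
include hAU

lemma T_ind : T U (ind A) = 2 ^ U.card - A.card := by
  unfold T ind
  have h1 : ∀ X ∈ U.powerset, (if X ∈ A then (0 : ℝ) else 1) = 1 - (if X ∈ A then 1 else 0) := by
    intro X _
    split_ifs <;> norm_num
  rw [sum_congr rfl h1, sum_sub_distrib]
  have h2 : ∑ X ∈ U.powerset, (if X ∈ A then (1 : ℝ) else 0) = A.card := by
    rw [← sum_filter]
    have : U.powerset.filter (fun X => X ∈ A) = A := by
      ext X
      simp only [mem_filter, mem_powerset]
      exact ⟨fun h => h.2, fun h => ⟨hAU X h, h⟩⟩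
    rw [this]
    simp
  rw [h2]
  simp

omit hAU in
lemma ind_sq : (fun X => (ind A X) ^ 2) = ind A := by
  funext X
  unfold ind
  split_ifs <;> norm_num

omit hAU in
lemma L_eq (f : Finset α → ℝ) {x : α} (hx : x ∈ U) :
    L U f x = ∑ X ∈ (U.erase x).powerset, (f (insert x X) - f X) := by
  have h := L_insert_self (notMem_erase x U) f
  rw [insert_erase hx] at h
  rw [h, sum_sub_distrib]
  rfl

lemma L_ind {x : α} (hx : x ∈ U) :
    L U (ind A) x = A.card - 2 * (A.filter (fun S => x ∈ S)).card := by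
  have h0 : L U (fun _ => 1) x = 0 := by
    rw [L_eq U _ hx]
    simp
  have h1 : L U (ind A) x = L U (fun _ => 1) x -
      ∑ X ∈ U.powerset, (if X ∈ A then sg x X else 0) := by
    unfold L T
    rw [← sum_sub_distrib]
    apply sum_congr rfl
    intro X _
    by_cases h : X ∈ A <;> simp [ind, h]
  rw [h1, h0, ← sum_filter]
  have h2 : U.powerset.filter (fun X => X ∈ A) = A := by
    ext X
    simp only [mem_filter, mem_powerset]
    exact ⟨fun h => h.2, fun h => ⟨hAU X h, h⟩⟩
  rw [h2]
  have h3 : ∀ X ∈ A, sg x X = 2 * (if x ∈ X then 1 else 0) - 1 := by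
    intro X _
    unfold sg
    split_ifs <;> norm_num
  rw [sum_congr rfl h3, sum_sub_distrib, ← mul_sum, ← sum_filter]
  simp

lemma L_le {x : α} (hx : x ∈ U) : 2 * L U (ind A) x ≤ 2 ^ U.card := by
  rw [L_ind A U hAU hx]
  have h1 : A.card = (A.filter (fun S => x ∈ S)).card + (A.filter (fun S => ¬ x ∈ S)).card :=
    (card_filter_add_card_filter_not _).symm
  have h2 : (A.filter (fun S => ¬ x ∈ S)).card ≤ 2 ^ (U.card - 1) := by
    rw [← card_erase_of_mem hx, ← card_powerset]
    apply card_le_card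
    intro X hX
    rw [mem_filter] at hX
    rw [mem_powerset]
    intro y hy
    rw [mem_erase]
    exact ⟨fun e => hX.2 (e ▸ hy), hAU X hX.1 hy⟩
  have h3 : 2 ^ U.card = 2 * 2 ^ (U.card - 1) := by
    have : 0 < U.card := card_pos.mpr ⟨x, hx⟩
    rw [← pow_succ', Nat.sub_add_cancel this]
  have h4 : A.card ≤ (A.filter (fun S => x ∈ S)).card + 2 ^ (U.card - 1) := by omega
  have h5 : (A.card : ℝ) ≤ (A.filter (fun S => x ∈ S)).card + 2 ^ (U.card - 1) := by
    exact_mod_cast h4
  have h6 : (2 : ℝ) ^ U.card = 2 * 2 ^ (U.card - 1) := by exact_mod_cast h3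
  have h7 : (0 : ℝ) ≤ (A.filter (fun S => x ∈ S)).card := Nat.cast_nonneg _
  linarith

/-- Counting the down-edges leaving the complement of `A`. -/
lemma down_le (huc : ∀ X ∈ A, ∀ Y ∈ A, X ∪ Y ∈ A) :
    ∑ x ∈ U, ((U.erase x).powerset.filter (fun X => insert x X ∉ A ∧ X ∈ A)).card ≤
      (U.powerset.filter (fun X => X ∉ A)).card := by
  rw [← card_sigma]
  apply card_le_card_of_injOn (fun p => insert p.1 p.2)
  · rintro ⟨x, X⟩ h
    simp only [coe_sigma, Set.mem_sigma_iff, mem_coe, mem_filter, mem_powerset] at h ⊢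
    obtain ⟨hx, hX, h1, h2⟩ := h
    exact ⟨insert_subset hx (hX.trans (erase_subset _ _)), h1⟩
  · rintro ⟨x, X⟩ h ⟨y, Y⟩ h' he
    simp only [coe_sigma, Set.mem_sigma_iff, mem_coe, mem_filter, mem_powerset] at h h' he
    obtain ⟨hx, hX, h1, h2⟩ := h
    obtain ⟨hy, hY, h1', h2'⟩ := h'
    have hxX : x ∉ X := fun h => (mem_erase.mp (hX h)).1 rfl
    have hyY : y ∉ Y := fun h => (mem_erase.mp (hY h)).1 rfl
    by_cases hxy : x = y
    · subst hxy
      have : X = Y := by
        have := congrArg (fun Z => Z.erase x) he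
        simp only [erase_insert hxX, erase_insert hyY] at this
        exact this
      rw [this]
    · exfalso
      apply h1
      have hU : insert x X = X ∪ Y := by
        apply Subset.antisymm
        · intro z hz
          rcases mem_insert.mp hz with h | h
          · have : x ∈ insert y Y := he ▸ mem_insert_self x X
            rcases mem_insert.mp this with h3 | h3
            · exact absurd h3 hxy
            · rw [h]; exact mem_union_right _ h3
          · exact mem_union_left _ h
        · intro z hz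
          rcases mem_union.mp hz with h | h
          · exact mem_insert_of_mem h
          · rw [he]; exact mem_insert_of_mem h
      rw [hU]
      exact huc X h2 Y h2'

lemma card_compl : ((U.powerset.filter (fun X => X ∉ A)).card : ℝ) = 2 ^ U.card - A.card := by
  rw [← T_ind A U hAU]
  unfold T ind
  rw [card_filter]
  push_cast
  apply sum_congr rfl
  intro X _
  split_ifs <;> simp_all

lemma E_le (huc : ∀ X ∈ A, ∀ Y ∈ A, X ∪ Y ∈ A) :
    E U (ind A) ≤ 2 * (2 ^ U.card - A.card) - ∑ x ∈ U, L U (ind A) x := by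
  have h1 : E U (ind A) = 2 * (∑ x ∈ U,
      ((U.erase x).powerset.filter (fun X => insert x X ∉ A ∧ X ∈ A)).card : ℕ) -
      ∑ x ∈ U, L U (ind A) x := by
    unfold E
    push_cast
    rw [mul_sum, ← sum_sub_distrib]
    apply sum_congr rfl
    intro x hx
    rw [L_eq U _ hx, card_filter]
    push_cast
    rw [mul_sum, ← sum_sub_distrib]
    apply sum_congr rfl
    intro X _
    unfold ind
    by_cases ha : insert x X ∈ A <;> by_cases hb : X ∈ A <;> simp [ha, hb] <;> norm_num
  rw [h1, ← card_compl A U hAU]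
  have h2 := down_le A U hAU huc
  have h3 : ((∑ x ∈ U, ((U.erase x).powerset.filter
      (fun X => insert x X ∉ A ∧ X ∈ A)).card : ℕ) : ℝ) ≤
      ((U.powerset.filter (fun X => X ∉ A)).card : ℝ) := by exact_mod_cast h2
  linarith

/-- Everything from the inequality. -/
lemma dense_key (huc : ∀ X ∈ A, ∀ Y ∈ A, X ∪ Y ∈ A) (hne : A ≠ U.powerset)
    (hcov : ∀ x ∈ U, ∃ S ∈ A, x ∈ S)
    (hlow : ∀ x ∈ U, 2 * (A.filter (fun S => x ∈ S)).card ≤ A.card)
    (hbig : 2 ^ U.card ≤ 2 * A.card) :
    ∀ X ⊆ U, (X ∈ A ↔ U \ X ∈ A) := by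
  set N : ℝ := 2 ^ U.card with hN
  have hNpos : 0 < N := by positivity
  set b : ℝ := N - A.card with hb
  have hbpos : 0 < b := by
    have h1 : A ⊂ U.powerset :=
      lt_of_le_of_ne (fun X hX => mem_powerset.mpr (hAU X hX)) hne
    have h2 := card_lt_card h1
    rw [card_powerset] at h2
    have h3 : (A.card : ℝ) < N := by rw [hN]; exact_mod_cast h2
    linarith
  have hb2 : 2 * b ≤ N := by
    have : N ≤ 2 * A.card := by rw [hN]; exact_mod_cast hbig
    linarith
  have hL0 : ∀ x ∈ U, 0 ≤ L U (ind A) x := by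
    intro x hx
    rw [L_ind A U hAU hx]
    have : (2 * (A.filter (fun S => x ∈ S)).card : ℝ) ≤ A.card := by exact_mod_cast hlow x hx
    linarith
  have hsp := spectral U (ind A)
  rw [ind_sq, T_ind A U hAU, ← hN] at hsp
  have hod := Od_bessel U (ind A)
  rw [← hN] at hod
  have hE := E_le A U hAU huc
  rw [← hN] at hE
  have hq : ∀ x ∈ U, 0 ≤ 2 * L U (ind A) x * (N - 2 * L U (ind A) x) := by
    intro x hx
    have h1 := L_le A U hAU hx
    have h2 := hL0 x hx
    have : 0 ≤ N - 2 * L U (ind A) x := by linarith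
    positivity
  have hsum : ∑ x ∈ U, (2 * L U (ind A) x * (N - 2 * L U (ind A) x)) =
      2 * N * ∑ x ∈ U, L U (ind A) x - 4 * ∑ x ∈ U, (L U (ind A) x) ^ 2 := by
    rw [mul_sum, mul_sum, ← sum_sub_distrib]
    apply sum_congr rfl
    intro x _
    ring
  have hsum0 := sum_nonneg hq
  have h4 : 0 ≤ 4 * b * (N - 2 * b) := by
    have : 0 ≤ N - 2 * b := by linarith
    positivity
  have hmain : 4 * b * (N - 2 * b) + ∑ x ∈ U, (2 * L U (ind A) x * (N - 2 * L U (ind A) x)) +
      (N * Od U (ind A) - 4 * ∑ x ∈ U, (L U (ind A) x) ^ 2) ≤ 0 := by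
    rw [hsum]
    have h5 : N * (2 * E U (ind A)) ≤ N * (2 * (2 * b - ∑ x ∈ U, L U (ind A) x)) := by
      apply mul_le_mul_of_nonneg_left _ hNpos.le
      linarith
    rw [← hb] at hsp
    nlinarith [hsp, h5]
  have hb3 : 4 * b * (N - 2 * b) = 0 := by linarith
  have hs3 : ∑ x ∈ U, (2 * L U (ind A) x * (N - 2 * L U (ind A) x)) = 0 := by linarith
  have ho3 : N * Od U (ind A) = 4 * ∑ x ∈ U, (L U (ind A) x) ^ 2 := by linarith
  have hbN : N = 2 * b := by
    have : N - 2 * b = 0 := by
      rcases mul_eq_zero.mp hb3 with h | h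
      · linarith
      · exact h
    linarith
  have hLz : ∀ x ∈ U, L U (ind A) x = 0 := by
    intro x hx
    have h6 := (sum_eq_zero_iff_of_nonneg hq).mp hs3 x hx
    rcases mul_eq_zero.mp h6 with h | h
    · linarith
    · exfalso
      have h7 := L_ind A U hAU hx
      have h8 : ((A.filter (fun S => x ∈ S)).card : ℝ) = 0 := by
        have : (A.card : ℝ) = N - b := by rw [hb]; ring
        rw [this] at h7
        linarith
      have h9 : (A.filter (fun S => x ∈ S)).card = 0 := by exact_mod_cast h8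
      rw [card_eq_zero] at h9
      obtain ⟨S, hS, hxS⟩ := hcov x hx
      have : S ∈ A.filter (fun S => x ∈ S) := mem_filter.mpr ⟨hS, hxS⟩
      rw [h9] at this
      exact absurd this (notMem_empty S)
  have hO : Od U (ind A) = 0 := by
    have : ∑ x ∈ U, (L U (ind A) x) ^ 2 = 0 := by
      apply sum_eq_zero
      intro x hx
      rw [hLz x hx]
      ring
    rw [this, mul_zero] at ho3
    rcases mul_eq_zero.mp ho3 with h | h
    · linarith
    · exact h
  intro X hX
  have h10 := (sum_eq_zero_iff_of_nonneg (fun X _ => sq_nonneg _)).mp hO X (mem_powerset.mpr hX)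
  have h11 : ind A X = ind A (U \ X) := by
    have := pow_eq_zero_iff (two_ne_zero) |>.mp h10
    linarith
  unfold ind at h11
  constructor
  · intro h12
    by_contra h13
    rw [if_pos h12, if_neg h13] at h11
    norm_num at h11
  · intro h12
    by_contra h13
    rw [if_pos h12, if_neg h13] at h11
    norm_num at h11

end

/-- The theorem for a general type. -/
theorem poonen_dense (A : Finset (Finset α)) (hA : A.Nonempty)
    (huc : ∀ X ∈ A, ∀ Y ∈ A, X ∪ Y ∈ A)
    (hsep : ∀ x ∈ A.sup id, ∀ y ∈ A.sup id, x ≠ y →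
      ∃ S ∈ A, (x ∈ S ∧ y ∉ S) ∨ (y ∈ S ∧ x ∉ S))
    (hne : A ≠ (A.sup id).powerset)
    (hbig : 2 ^ (A.sup id).card ≤ 2 * A.card) :
    ∃ x ∈ A.sup id, 2 * (A.filter (fun S => x ∈ S)).card > A.card := by
  by_contra hcon
  push Not at hcon
  set U := A.sup id with hU
  have hAU : ∀ X ∈ A, X ⊆ U := fun X hX => le_sup (f := id) hX
  have hcov : ∀ x ∈ U, ∃ S ∈ A, x ∈ S := by
    intro x hx
    rw [hU, mem_sup] at hx
    exact hx
  have hc := dense_key A U hAU huc hne hcov hcon hbig
  -- the universe belongs to the family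
  have hUA : U ∈ A := by
    rw [hU, ← sup'_eq_sup hA]
    exact sup'_mem (s := (A : Set (Finset α))) (fun X hX Y hY => huc X hX Y hY) A hA id
      (fun X hX => hX)
  have hint : ∀ X ∈ A, ∀ Y ∈ A, X ∩ Y ∈ A := by
    intro X hX Y hY
    have h1 := (hc X (hAU X hX)).mp hX
    have h2 := (hc Y (hAU Y hY)).mp hY
    have h3 := huc _ h1 _ h2
    have h4 := (hc _ (hAU _ h3)).mp h3
    have h5 : U \ (U \ X ∪ U \ Y) = X ∩ Y := by
      ext z
      simp only [mem_sdiff, mem_union, mem_inter]
      constructor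
      · rintro ⟨h6, h7⟩
        push Not at h7
        exact ⟨h7.1 h6, h7.2 h6⟩
      · rintro ⟨h6, h7⟩
        refine ⟨hAU X hX h6, ?_⟩
        rintro (h8 | h8)
        · exact h8.2 h6
        · exact h8.2 h7
    rwa [h5] at h4
  have hempty : ∅ ∈ A := by
    have := (hc U (Subset.refl U)).mp hUA
    simpa using this
  have hsing : ∀ x ∈ U, {x} ∈ A := by
    intro x hx
    have hmem : (A.filter (fun S => x ∈ S)).inf' ⟨U, mem_filter.mpr ⟨hUA, hx⟩⟩ id ∈ A := by
      apply inf'_mem (s := (A : Set (Finset α))) (fun X hX Y hY => hint X hX Y hY)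
      intro X hX
      exact (mem_filter.mp hX).1
    convert hmem using 1
    apply Subset.antisymm
    · intro y hy
      rw [mem_singleton] at hy
      subst hy
      have h1 : ({y} : Finset α) ≤
          (A.filter (fun S => y ∈ S)).inf' ⟨U, mem_filter.mpr ⟨hUA, hx⟩⟩ id := by
        apply le_inf'
        intro S hS
        exact singleton_subset_iff.mpr (mem_filter.mp hS).2
      exact h1 (mem_singleton_self y)
    · intro y hy
      rw [mem_singleton]
      by_contra hyx
      have hyS : ∀ S ∈ A, x ∈ S → y ∈ S := by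
        intro S hS hxS
        have h1 : (A.filter (fun S => x ∈ S)).inf' ⟨U, mem_filter.mpr ⟨hUA, hx⟩⟩ id ≤ S :=
          inf'_le (f := id) (mem_filter.mpr ⟨hS, hxS⟩)
        exact h1 hy
      have hyU : y ∈ U := hyS U hUA hx
      obtain ⟨S, hS, h⟩ := hsep x hx y hyU (fun e => hyx e.symm)
      rcases h with ⟨h1, h2⟩ | ⟨h1, h2⟩
      · exact h2 (hyS S hS h1)
      · have h3 := (hc S (hAU S hS)).mp hS
        have h4 := hyS _ h3 (mem_sdiff.mpr ⟨hx, h2⟩)
        exact (mem_sdiff.mp h4).2 h1
  apply hne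
  apply Subset.antisymm
  · intro X hX
    exact mem_powerset.mpr (hAU X hX)
  · intro X hX
    rw [mem_powerset] at hX
    induction X using Finset.induction_on with
    | empty => exact hempty
    | insert a X _ ih =>
      rw [insert_eq]
      exact huc _ (hsing a (hX (mem_insert_self a X))) _
        (ih (fun y hy => hX (mem_insert_of_mem hy)))

end Pool.Agent.H67.Cube
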