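import Mathlib

/-!
Spectral inequality on the cube of subsets of a finite set.
-/

set_option autoImplicit false

namespace Pool.Agent.H67.Cube

open Finset

variable {α : Type*} [DecidableEq α]

set_option linter.unusedSectionVars false

/-- Sum over the cube. -/
def T (U : Finset α) (f : Finset α → ℝ) : ℝ := ∑ X ∈ U.powerset, f X

/-- Sign. -/
def sg (x : α) (X : Finset α) : ℝ := if x ∈ X then 1 else -1

/-- Level one coefficient (unnormalised). -/
def L (U : Finset α) (f : Finset α → ℝ) (x : α) : ℝ := T U (fun X => sg x X * f X)

/-- Edge energy. -/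
def E (U : Finset α) (f : Finset α → ℝ) : ℝ :=
  ∑ x ∈ U, ∑ X ∈ (U.erase x).powerset, (f (insert x X) - f X) ^ 2

lemma T_insert {a : α} {U : Finset α} (h : a ∉ U) (f : Finset α → ℝ) :
    T (insert a U) f = T U f + T U (fun X => f (insert a X)) := by
  unfold T
  rw [Finset.sum_powerset_insert h]

lemma T_congr {U : Finset α} {f g : Finset α → ℝ} (h : ∀ X ⊆ U, f X = g X) : T U f = T U g := by
  unfold T
  apply sum_congr rfl
  intro X hX
  exact h X (mem_powerset.mp hX)

lemma T_add (U : Finset α) (f g : Finset α → ℝ) : T U (fun X => f X + g X) = T U f + T U g := by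
  unfold T; rw [sum_add_distrib]

lemma T_sub (U : Finset α) (f g : Finset α → ℝ) : T U (fun X => f X - g X) = T U f - T U g := by
  unfold T; rw [sum_sub_distrib]

lemma T_mul (U : Finset α) (c : ℝ) (f : Finset α → ℝ) : T U (fun X => c * f X) = c * T U f := by
  unfold T; rw [mul_sum]

lemma T_nonneg {U : Finset α} {f : Finset α → ℝ} (h : ∀ X ⊆ U, 0 ≤ f X) : 0 ≤ T U f :=
  sum_nonneg fun X hX => h X (mem_powerset.mp hX)

/-- Complementation. -/
lemma T_compl (U : Finset α) (f : Finset α → ℝ) : T U (fun X => f (U \ X)) = T U f := by
  unfold T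
  apply sum_nbij' (fun X => U \ X) (fun X => U \ X)
  · intro X _; exact mem_powerset.mpr sdiff_subset
  · intro X _; exact mem_powerset.mpr sdiff_subset
  · intro X hX; exact Finset.sdiff_sdiff_eq_self (mem_powerset.mp hX)
  · intro X hX; exact Finset.sdiff_sdiff_eq_self (mem_powerset.mp hX)
  · intro X _; rfl

lemma L_insert {a : α} {U : Finset α} (h : a ∉ U) (f : Finset α → ℝ) {x : α} (hx : x ∈ U) :
    L (insert a U) f x = L U f x + L U (fun X => f (insert a X)) x := by
  unfold L
  rw [T_insert h]
  congr 1
  apply T_congr
  intro X hX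
  have hne : x ≠ a := fun e => h (e ▸ hx)
  have : sg x (insert a X) = sg x X := by
    unfold sg
    simp [mem_insert, hne]
  rw [this]

lemma L_insert_self {a : α} {U : Finset α} (h : a ∉ U) (f : Finset α → ℝ) :
    L (insert a U) f a = T U (fun X => f (insert a X)) - T U f := by
  unfold L
  rw [T_insert h]
  have h1 : T U (fun X => sg a X * f X) = - T U f := by
    rw [show - T U f = (-1) * T U f by ring, ← T_mul]
    apply T_congr
    intro X hX
    have : a ∉ X := fun ha => h (hX ha)
    simp [sg, this]
  have h2 : T U (fun X => sg a (insert a X) * f (insert a X)) = T U (fun X => f (insert a X)) := by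
    apply T_congr
    intro X _
    simp [sg]
  rw [h1, h2]
  ring

/-- Bessel. -/
lemma bessel (U : Finset α) (k : Finset α → ℝ) :
    (T U k) ^ 2 + ∑ x ∈ U, (L U k x) ^ 2 ≤ 2 ^ U.card * T U (fun X => (k X) ^ 2) := by
  induction U using Finset.induction_on generalizing k with
  | empty => simp [T]
  | insert a U ha ih =>
    have h0 := ih k
    have h1 := ih (fun X => k (insert a X))
    rw [sum_insert ha, L_insert_self ha, T_insert ha, T_insert ha, card_insert_of_notMem ha]
    have h2 : ∑ x ∈ U, (L (insert a U) k x) ^ 2 ≤
        2 * ∑ x ∈ U, (L U k x) ^ 2 + 2 * ∑ x ∈ U, (L U (fun X => k (insert a X)) x) ^ 2 := by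
      rw [mul_sum, mul_sum, ← sum_add_distrib]
      apply sum_le_sum
      intro x hx
      rw [L_insert ha k hx]
      nlinarith [sq_nonneg (L U k x - L U (fun X => k (insert a X)) x)]
    rw [pow_succ (2 : ℝ) U.card]
    nlinarith [h0, h1, h2]

lemma E_insert {a : α} {U : Finset α} (h : a ∉ U) (f : Finset α → ℝ) :
    E (insert a U) f = E U f + E U (fun X => f (insert a X)) +
      T U (fun X => (f (insert a X) - f X) ^ 2) := by
  unfold E T
  rw [sum_insert h, erase_insert h]
  have h1 : ∑ x ∈ U, ∑ X ∈ ((insert a U).erase x).powerset, (f (insert x X) - f X) ^ 2 =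
      ∑ x ∈ U, ∑ X ∈ (U.erase x).powerset, (f (insert x X) - f X) ^ 2 +
      ∑ x ∈ U, ∑ X ∈ (U.erase x).powerset,
        (f (insert a (insert x X)) - f (insert a X)) ^ 2 := by
    rw [← sum_add_distrib]
    apply sum_congr rfl
    intro x hx
    have hne : a ≠ x := fun e => h (e ▸ hx)
    have hna : a ∉ U.erase x := fun e => h (mem_of_mem_erase e)
    rw [erase_insert_of_ne hne, Finset.sum_powerset_insert hna]
    congr 1
    apply sum_congr rfl
    intro X _
    rw [Finset.insert_comm]
  rw [h1]
  ring

/-- Odd energy. -/
def Od (U : Finset α) (f : Finset α → ℝ) : ℝ := T U (fun X => (f X - f (U \ X)) ^ 2)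

lemma Od_bessel (U : Finset α) (f : Finset α → ℝ) :
    4 * ∑ x ∈ U, (L U f x) ^ 2 ≤ 2 ^ U.card * Od U f := by
  have h := bessel U (fun X => f X - f (U \ X))
  have h1 : ∀ x ∈ U, L U (fun X => f X - f (U \ X)) x = 2 * L U f x := by
    intro x hx
    unfold L
    have e1 : T U (fun X => sg x X * (f X - f (U \ X))) =
        T U (fun X => sg x X * f X) - T U (fun X => sg x X * f (U \ X)) := by
      rw [← T_sub]
      apply T_congr
      intro X _
      ring
    rw [e1]
    have e2 : T U (fun X => sg x X * f (U \ X)) = - T U (fun X => sg x X * f X) := by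
      rw [← T_compl U (fun X => sg x X * f X), show ∀ t : ℝ, -t = (-1) * t by intro t; ring, ← T_mul]
      apply T_congr
      intro X _
      have : sg x (U \ X) = - sg x X := by
        unfold sg
        by_cases hX : x ∈ X <;> simp [hX, hx]
      rw [this]
      ring
    rw [e2]
    ring
  rw [sum_congr rfl (fun x hx => by rw [h1 x hx])] at h
  have h2 : ∑ x ∈ U, (2 * L U f x) ^ 2 = 4 * ∑ x ∈ U, (L U f x) ^ 2 := by
    rw [mul_sum]; apply sum_congr rfl; intro x _; ring
  rw [h2] at h
  have h3 : 0 ≤ (T U (fun X => f X - f (U \ X))) ^ 2 := sq_nonneg _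
  unfold Od
  linarith

/-- The spectral inequality. -/
theorem spectral (U : Finset α) (f : Finset α → ℝ) :
    2 ^ U.card * (8 * T U (fun X => (f X) ^ 2) + Od U f) ≤
      2 ^ U.card * (2 * E U f) + 8 * (T U f) ^ 2 + 8 * ∑ x ∈ U, (L U f x) ^ 2 := by
  induction U using Finset.induction_on generalizing f with
  | empty =>
    simp [T, Od, E]
  | insert a U ha ih =>
    have h0 := ih f
    have h1 := ih (fun X => f (insert a X))
    have hb := Od_bessel U (fun X => f (insert a X) - f X)
    rw [sum_insert ha, L_insert_self ha, T_insert ha, T_insert ha, card_insert_of_notMem ha,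
      E_insert ha]
    have h2 : ∑ x ∈ U, (L (insert a U) f x) ^ 2 =
        2 * ∑ x ∈ U, (L U f x) ^ 2 + 2 * ∑ x ∈ U, (L U (fun X => f (insert a X)) x) ^ 2
        - ∑ x ∈ U, (L U (fun X => f (insert a X) - f X) x) ^ 2 := by
      rw [mul_sum, mul_sum, ← sum_add_distrib, ← sum_sub_distrib]
      apply sum_congr rfl
      intro x hx
      rw [L_insert ha f hx]
      have : L U (fun X => f (insert a X) - f X) x =
          L U (fun X => f (insert a X)) x - L U f x := by
        unfold L
        rw [← T_sub]
        apply T_congr
        intro X _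
        ring
      rw [this]
      ring
    -- odd part of the big cube
    have h3 : Od (insert a U) f + Od U (fun X => f (insert a X) - f X) =
        Od U f + Od U (fun X => f (insert a X)) + 2 * T U (fun X => (f (insert a X) - f X) ^ 2) := by
      have e0 : Od (insert a U) f = 2 * T U (fun X => (f X - f (insert a (U \ X))) ^ 2) := by
        unfold Od
        rw [T_insert ha]
        have e1 : T U (fun X => (f X - f (insert a U \ X)) ^ 2) =
            T U (fun X => (f X - f (insert a (U \ X))) ^ 2) := by
          apply T_congr
          intro X hX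
          have : a ∉ X := fun h => ha (hX h)
          rw [insert_sdiff_of_notMem _ this]
        have e2 : T U (fun X => (f (insert a X) - f (insert a U \ insert a X)) ^ 2) =
            T U (fun X => (f X - f (insert a (U \ X))) ^ 2) := by
          rw [← T_compl U (fun X => (f X - f (insert a (U \ X))) ^ 2)]
          apply T_congr
          intro X hX
          have h5 : insert a U \ insert a X = U \ X := by
            ext y
            simp only [mem_sdiff, mem_insert]
            constructor
            · rintro ⟨h6, h7⟩
              push Not at h7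
              exact ⟨h6.resolve_left h7.1, h7.2⟩
            · rintro ⟨h6, h7⟩
              refine ⟨Or.inr h6, ?_⟩
              rintro (h8 | h8)
              · exact ha (h8 ▸ h6)
              · exact h7 h8
          rw [h5, Finset.sdiff_sdiff_eq_self hX]
          ring
        rw [e1, e2]
        ring
      have s2 : T U (fun X => (f (insert a (U \ X))) ^ 2) = T U (fun X => (f (insert a X)) ^ 2) :=
        T_compl U (fun X => (f (insert a X)) ^ 2)
      have s3 : T U (fun X => f X * f (insert a (U \ X))) =
          T U (fun X => f (U \ X) * f (insert a X)) := by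
        rw [← T_compl U (fun X => f X * f (insert a (U \ X)))]
        apply T_congr
        intro X hX
        rw [Finset.sdiff_sdiff_eq_self hX]
      have s4 : T U (fun X => f (insert a (U \ X)) * f (U \ X)) =
          T U (fun X => f (insert a X) * f X) :=
        T_compl U (fun X => f (insert a X) * f X)
      have key : 2 * T U (fun X => (f X - f (insert a (U \ X))) ^ 2) +
          T U (fun X => ((f (insert a X) - f X) - (f (insert a (U \ X)) - f (U \ X))) ^ 2) -
          T U (fun X => (f X - f (U \ X)) ^ 2) -
          T U (fun X => (f (insert a X) - f (insert a (U \ X))) ^ 2) -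
          2 * T U (fun X => (f (insert a X) - f X) ^ 2) =
          2 * (T U (fun X => (f (insert a (U \ X))) ^ 2) - T U (fun X => (f (insert a X)) ^ 2)) -
          2 * (T U (fun X => f X * f (insert a (U \ X))) -
            T U (fun X => f (U \ X) * f (insert a X))) +
          2 * (T U (fun X => f (insert a X) * f X) -
            T U (fun X => f (insert a (U \ X)) * f (U \ X))) := by
        simp only [T, Finset.mul_sum, ← Finset.sum_add_distrib, ← Finset.sum_sub_distrib]
        apply sum_congr rfl
        intro X _
        ring
      rw [s2, s3, s4] at key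
      rw [e0]
      unfold Od
      linarith
    rw [pow_succ (2 : ℝ) U.card]
    have hN : (0 : ℝ) < 2 ^ U.card := by positivity
    nlinarith [h0, h1, h2, h3, hb]

end Pool.Agent.H67.Cube
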