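import Mathlib

set_option autoImplicit false
set_option linter.unusedSectionVars false

namespace Pool.Agent.H67.BJY

/-- The digraph with arc set `A` stays strong after the deletion of any fewer than `k` arcs. -/
def ArcStrong {V : Type} [DecidableEq V] (k : ℕ) (A : Finset (V × V)) : Prop :=
  ∀ S ⊆ A, S.card < k → ∀ u v : V,
    Relation.ReflTransGen (fun a b : V => (a, b) ∈ A \ S) u v

/-- The adjacency of the bipartite representation of the digraph with arc set `A`:
the arc `(a, b)` joins `inl a` and `inr b`. -/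
def BAdj {V : Type} (A : Finset (V × V)) (x y : V ⊕ V) : Prop :=
  ∃ a b : V, (a, b) ∈ A ∧
    ((x = Sum.inl a ∧ y = Sum.inr b) ∨ (x = Sum.inr b ∧ y = Sum.inl a))

/-- The bipartite representation stays connected after the deletion of any fewer than `l` arcs. -/
def ArcAntistrong {V : Type} [DecidableEq V] (l : ℕ) (A : Finset (V × V)) : Prop :=
  ∀ S ⊆ A, S.card < l → ∀ p q : V ⊕ V, Relation.ReflTransGen (BAdj (A \ S)) p q

/-- There are two arc-disjoint strong spanning subdigraphs. -/
def TwoStrong {V : Type} (A : Finset (V × V)) : Prop :=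
  ∃ A₁ A₂ : Finset (V × V), A₁ ⊆ A ∧ A₂ ⊆ A ∧ Disjoint A₁ A₂ ∧
    (∀ u v : V, Relation.ReflTransGen (fun a b : V => (a, b) ∈ A₁) u v) ∧
    (∀ u v : V, Relation.ReflTransGen (fun a b : V => (a, b) ∈ A₂) u v)

section construction

variable {V : Type} [Fintype V] [DecidableEq V] (m : ℕ) (A : Finset (V × V))

/-- Blow up every vertex to a complete digraph on `m + 1` vertices and keep each old arc once. -/
def blow : Finset ((V × Fin (m + 1)) × (V × Fin (m + 1))) :=
  Finset.univ.filter (fun e => (e.1.1 = e.2.1 ∧ e.1.2 ≠ e.2.2) ∨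
    (e.1.2 = 0 ∧ e.2.2 = 0 ∧ (e.1.1, e.2.1) ∈ A))

theorem mem_blow (e : (V × Fin (m + 1)) × (V × Fin (m + 1))) :
    e ∈ blow m A ↔ ((e.1.1 = e.2.1 ∧ e.1.2 ≠ e.2.2) ∨
    (e.1.2 = 0 ∧ e.2.2 = 0 ∧ (e.1.1, e.2.1) ∈ A)) := by
  simp [blow]

theorem blow_loopless (hA : ∀ v : V, (v, v) ∉ A) (v : V × Fin (m + 1)) : (v, v) ∉ blow m A := by
  rw [mem_blow]
  rintro (h | h)
  · exact h.2 rfl
  · exact hA _ h.2.2

/-- The old arcs whose copy is deleted. -/
def down (S : Finset ((V × Fin (m + 1)) × (V × Fin (m + 1)))) : Finset (V × V) :=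
  A.filter (fun e => (((e.1, (0 : Fin (m + 1))), (e.2, (0 : Fin (m + 1)))) ∈ S))

theorem down_card (S : Finset ((V × Fin (m + 1)) × (V × Fin (m + 1)))) :
    (down m A S).card ≤ S.card := by
  apply Finset.card_le_card_of_injOn
    (fun e : V × V => ((e.1, (0 : Fin (m + 1))), (e.2, (0 : Fin (m + 1)))))
  · intro e he
    simp only [down, Finset.coe_filter, Set.mem_ofPred_eq] at he
    exact he.2
  · intro e _ e' _ h
    simp only [Prod.mk.injEq] at h
    exact Prod.ext h.1.1 h.2.1

theorem down_sub (S : Finset ((V × Fin (m + 1)) × (V × Fin (m + 1)))) :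
    down m A S ⊆ A := Finset.filter_subset _ _

theorem lift_arc (S : Finset ((V × Fin (m + 1)) × (V × Fin (m + 1)))) {a b : V}
    (h : (a, b) ∈ A \ down m A S) :
    ((a, (0 : Fin (m + 1))), (b, (0 : Fin (m + 1)))) ∈ blow m A \ S := by
  rw [Finset.mem_sdiff] at h ⊢
  refine ⟨?_, fun hS => h.2 ?_⟩
  · rw [mem_blow]; exact Or.inr ⟨rfl, rfl, h.1⟩
  · simp only [down, Finset.mem_filter]; exact ⟨h.1, hS⟩

/-- Counting: if fewer than `m - 1` arcs are deleted, there is a good intermediate vertex. -/
theorem exists_mid (T : Finset ((V × Fin (m + 1)) × (V × Fin (m + 1)))) (i j : Fin (m + 1))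
    (f g : Fin (m + 1) → (V × Fin (m + 1)) × (V × Fin (m + 1)))
    (hf : Function.Injective f) (hg : Function.Injective g)
    (hfg : ∀ c, c ≠ i → c ≠ j → ∀ d, d ≠ i → d ≠ j → f c ≠ g d)
    (hT : T.card + 1 < m) :
    ∃ c, c ≠ i ∧ c ≠ j ∧ f c ∉ T ∧ g c ∉ T := by
  classical
  by_contra hcon
  push Not at hcon
  set C : Finset (Fin (m + 1)) := (Finset.univ.erase i).erase j with hC
  have hCc : m - 1 ≤ C.card := by
    have h1 : (Finset.univ.erase i : Finset (Fin (m + 1))).card = m := by
      rw [Finset.card_erase_of_mem (Finset.mem_univ _)]; simp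
    have h2 := Finset.pred_card_le_card_erase (a := j) (s := (Finset.univ.erase i))
    rw [h1] at h2
    exact h2
  have hle : C.card ≤ T.card := by
    apply Finset.card_le_card_of_injOn (fun c => if f c ∈ T then f c else g c)
    · intro c hc
      have hc' : c ≠ j ∧ c ≠ i := by
        have := Finset.mem_coe.mp hc
        simp only [hC, Finset.mem_erase, Finset.mem_univ, and_true] at this
        exact this
      by_cases h : f c ∈ T
      · simp only [h, if_true]; exact h
      · simp only [h, if_false]; exact hcon c hc'.2 hc'.1 h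
    · intro c hc d hd hcd
      have hc' : c ≠ j ∧ c ≠ i := by
        have := Finset.mem_coe.mp hc
        simp only [hC, Finset.mem_erase, Finset.mem_univ, and_true] at this
        exact this
      have hd' : d ≠ j ∧ d ≠ i := by
        have := Finset.mem_coe.mp hd
        simp only [hC, Finset.mem_erase, Finset.mem_univ, and_true] at this
        exact this
      simp only at hcd
      split_ifs at hcd with h1 h2 h2
      · exact hf hcd
      · exact absurd hcd (hfg c hc'.2 hc'.1 d hd'.2 hd'.1)
      · exact absurd hcd.symm (hfg d hd'.2 hd'.1 c hc'.2 hc'.1)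
      · exact hg hcd
  omega

/-- Two vertices of the same block are joined by a directed path. -/
theorem block_strong (S : Finset ((V × Fin (m + 1)) × (V × Fin (m + 1)))) (hS : S.card + 1 < m)
    (v : V) (i j : Fin (m + 1)) :
    Relation.ReflTransGen (fun a b => (a, b) ∈ blow m A \ S) (v, i) (v, j) := by
  obtain ⟨c, hci, hcj, h1, h2⟩ := exists_mid m S i j
    (fun c => ((v, i), (v, c))) (fun c => ((v, c), (v, j)))
    (by intro c d h; simp only [Prod.mk.injEq, true_and] at h; exact h)
    (by intro c d h; simp only [Prod.mk.injEq, true_and, and_true] at h; exact h)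
    (by
      intro c hc _ d hd _ h
      simp only [Prod.mk.injEq, true_and] at h
      exact hd h.1.symm)
    hS
  refine Relation.ReflTransGen.head (b := (v, c)) ?_ (Relation.ReflTransGen.single ?_)
  · rw [Finset.mem_sdiff, mem_blow]; exact ⟨Or.inl ⟨rfl, fun h => hci h.symm⟩, h1⟩
  · rw [Finset.mem_sdiff, mem_blow]; exact ⟨Or.inl ⟨rfl, hcj⟩, h2⟩

theorem blow_arcStrong {k : ℕ} (hm : k < m) (hA : ArcStrong k A) : ArcStrong k (blow m A) := by
  intro S hSA hS u v
  have hb := fun w i j => block_strong m A S (by omega) w i j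
  have hd := hA (down m A S) (down_sub m A S) (lt_of_le_of_lt (down_card m A S) hS) u.1 v.1
  have hlift : Relation.ReflTransGen (fun a b => (a, b) ∈ blow m A \ S)
      (u.1, (0 : Fin (m + 1))) (v.1, (0 : Fin (m + 1))) :=
    hd.lift (fun a : V => (a, (0 : Fin (m + 1)))) (fun a b h => lift_arc m A S h)
  exact ((hb u.1 u.2 0).trans hlift).trans (hb v.1 0 v.2)

theorem BAdj_symm {W : Type} (B : Finset (W × W)) {x y : W ⊕ W} (hxy : BAdj B x y) :
    BAdj B y x := by
  obtain ⟨a, b, h, h1 | h1⟩ := hxy
  · exact ⟨a, b, h, Or.inr ⟨h1.2, h1.1⟩⟩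
  · exact ⟨a, b, h, Or.inl ⟨h1.2, h1.1⟩⟩

theorem conn_symm {W : Type} (B : Finset (W × W)) {x y : W ⊕ W}
    (h : Relation.ReflTransGen (BAdj B) x y) : Relation.ReflTransGen (BAdj B) y x := by
  induction h with
  | refl => exact Relation.ReflTransGen.refl
  | tail _ hbc ih => exact Relation.ReflTransGen.head (BAdj_symm B hbc) ih

/-- The bipartite representation of a block stays connected. -/
theorem block_anti (S : Finset ((V × Fin (m + 1)) × (V × Fin (m + 1)))) (hS : S.card + 1 < m)
    (v : V) (p : (V × Fin (m + 1)) ⊕ (V × Fin (m + 1)))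
    (hp : p = Sum.inl (v, p.elim Prod.snd Prod.snd) ∨ p = Sum.inr (v, p.elim Prod.snd Prod.snd)) :
    Relation.ReflTransGen (BAdj (blow m A \ S)) (Sum.inl (v, 0)) p := by
  have hl : ∀ i j : Fin (m + 1),
      Relation.ReflTransGen (BAdj (blow m A \ S)) (Sum.inl (v, i)) (Sum.inl (v, j)) := by
    intro i j
    by_cases hij : i = j
    · rw [hij]
    obtain ⟨c, hci, hcj, h1, h2⟩ := exists_mid m S i j
      (fun c => ((v, i), (v, c))) (fun c => ((v, j), (v, c)))
      (by intro c d h; simp only [Prod.mk.injEq, true_and] at h; exact h)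
      (by intro c d h; simp only [Prod.mk.injEq, true_and] at h; exact h)
      (by
        intro c _ _ d _ _ h
        simp only [Prod.mk.injEq, true_and] at h
        exact hij h.1)
      hS
    refine Relation.ReflTransGen.head (b := Sum.inr (v, c)) ?_ (Relation.ReflTransGen.single ?_)
    · refine ⟨(v, i), (v, c), ?_, Or.inl ⟨rfl, rfl⟩⟩
      rw [Finset.mem_sdiff, mem_blow]; exact ⟨Or.inl ⟨rfl, fun h => hci h.symm⟩, h1⟩
    · refine ⟨(v, j), (v, c), ?_, Or.inr ⟨rfl, rfl⟩⟩
      rw [Finset.mem_sdiff, mem_blow]; exact ⟨Or.inl ⟨rfl, fun h => hcj h.symm⟩, h2⟩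
  have hr : ∀ j : Fin (m + 1),
      Relation.ReflTransGen (BAdj (blow m A \ S)) (Sum.inl (v, 0)) (Sum.inr (v, j)) := by
    intro j
    obtain ⟨c, hci, _, h1, _⟩ := exists_mid m S j j
      (fun c => ((v, c), (v, j))) (fun c => ((v, c), (v, c)))
      (by intro c d h; simp only [Prod.mk.injEq, true_and, and_true] at h; exact h)
      (by intro c d h; simp only [Prod.mk.injEq, true_and] at h; exact h.1)
      (by
        intro c _ _ d hd _ h
        simp only [Prod.mk.injEq, true_and] at h
        exact hd h.2.symm)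
      hS
    refine (hl 0 c).trans (Relation.ReflTransGen.single ⟨(v, c), (v, j), ?_, Or.inl ⟨rfl, rfl⟩⟩)
    rw [Finset.mem_sdiff, mem_blow]; exact ⟨Or.inl ⟨rfl, hci⟩, h1⟩
  rcases hp with hp | hp
  · rw [hp]; exact hl 0 _
  · rw [hp]; exact hr _

/-- Deleting fewer than `2 k` arcs from a `k`-arc-strong digraph leaves the underlying graph
connected. -/
theorem weak_conn {k : ℕ} (hA : ArcStrong k A) (S : Finset (V × V)) (hS : S.card < 2 * k)
    (u v : V) :
    Relation.ReflTransGen (fun a b : V => (a, b) ∈ A \ S ∨ (b, a) ∈ A \ S) u v := by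
  classical
  by_contra hcon
  set X : Finset V := Finset.univ.filter
    (fun w => Relation.ReflTransGen (fun a b : V => (a, b) ∈ A \ S ∨ (b, a) ∈ A \ S) u w) with hX
  have huX : u ∈ X := by simp [hX, Relation.ReflTransGen.refl]
  have hvX : v ∉ X := by
    simp only [hX, Finset.mem_filter, Finset.mem_univ, true_and]; exact hcon
  have hclosed : ∀ a b : V, a ∈ X → b ∉ X → (a, b) ∉ A \ S ∧ (b, a) ∉ A \ S := by
    intro a b ha hb
    simp only [hX, Finset.mem_filter, Finset.mem_univ, true_and] at ha hb
    exact ⟨fun h => hb (ha.tail (Or.inl h)), fun h => hb (ha.tail (Or.inr h))⟩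
  -- the two cuts
  set P : Finset (V × V) := A.filter (fun e => e.1 ∈ X ∧ e.2 ∉ X) with hP
  set Q : Finset (V × V) := A.filter (fun e => e.1 ∉ X ∧ e.2 ∈ X) with hQ
  have hPS : P ⊆ S := by
    intro e he
    simp only [hP, Finset.mem_filter] at he
    by_contra hcon'
    exact (hclosed e.1 e.2 he.2.1 he.2.2).1 (Finset.mem_sdiff.mpr ⟨he.1, hcon'⟩)
  have hQS : Q ⊆ S := by
    intro e he
    simp only [hQ, Finset.mem_filter] at he
    by_contra hcon'
    exact (hclosed e.2 e.1 he.2.2 he.2.1).2 (Finset.mem_sdiff.mpr ⟨he.1, hcon'⟩)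
  have hdis : Disjoint P Q := by
    rw [Finset.disjoint_left]
    intro e he he'
    simp only [hP, hQ, Finset.mem_filter] at he he'
    exact he'.2.1 he.2.1
  have hcard : P.card + Q.card ≤ S.card := by
    rw [← Finset.card_union_of_disjoint hdis]
    exact Finset.card_le_card (Finset.union_subset hPS hQS)
  -- each cut has at least k arcs
  have hPk : k ≤ P.card := by
    by_contra hlt
    push Not at hlt
    have hpath := hA P (Finset.filter_subset _ _) hlt u v
    have hinv : ∀ w, Relation.ReflTransGen (fun a b : V => (a, b) ∈ A \ P) u w → w ∈ X := by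
      intro w hw
      induction hw with
      | refl => exact huX
      | tail _ hbc ih =>
        by_contra hc
        rw [Finset.mem_sdiff] at hbc
        exact hbc.2 (by simp only [hP, Finset.mem_filter]; exact ⟨hbc.1, ih, hc⟩)
    exact hvX (hinv v hpath)
  have hQk : k ≤ Q.card := by
    by_contra hlt
    push Not at hlt
    have hpath := hA Q (Finset.filter_subset _ _) hlt v u
    have hinv : ∀ w, Relation.ReflTransGen (fun a b : V => (a, b) ∈ A \ Q) v w → w ∉ X := by
      intro w hw
      induction hw with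
      | refl => exact hvX
      | tail _ hbc ih =>
        intro hc
        rw [Finset.mem_sdiff] at hbc
        exact hbc.2 (by simp only [hQ, Finset.mem_filter]; exact ⟨hbc.1, ih, hc⟩)
    exact hinv u hpath huX
  omega

theorem blow_antistrong {k l : ℕ} (hl : l ≤ 2 * k) (hm : 2 * k < m) (hA : ArcStrong k A) :
    ArcAntistrong l (blow m A) := by
  intro S hSA hS p q
  have hS' : S.card + 1 < m := by omega
  have hdcard : (down m A S).card < 2 * k :=
    lt_of_le_of_lt (down_card m A S) (lt_of_lt_of_le hS hl)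
  -- from the root of block a to the root of block b
  have hstep : ∀ a b : V, Relation.ReflTransGen
      (fun a b : V => (a, b) ∈ A \ down m A S ∨ (b, a) ∈ A \ down m A S) a b →
      Relation.ReflTransGen (BAdj (blow m A \ S)) (Sum.inl (a, 0)) (Sum.inl (b, 0)) := by
    intro a b hab
    induction hab with
    | refl => exact Relation.ReflTransGen.refl
    | @tail c d _ hcd ih =>
      refine ih.trans ?_
      rcases hcd with h | h
      · have h1 := lift_arc m A S h
        refine Relation.ReflTransGen.head (b := Sum.inr (d, 0))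
          ⟨(c, 0), (d, 0), h1, Or.inl ⟨rfl, rfl⟩⟩ ?_
        exact conn_symm _ (block_anti m A S hS' d (Sum.inr (d, 0)) (Or.inr rfl))
      · have h1 := lift_arc m A S h
        refine (block_anti m A S hS' c (Sum.inr (c, 0)) (Or.inr rfl)).trans ?_
        exact Relation.ReflTransGen.single ⟨(d, 0), (c, 0), h1, Or.inr ⟨rfl, rfl⟩⟩
  have hroot : ∀ p : (V × Fin (m + 1)) ⊕ (V × Fin (m + 1)),
      ∃ v : V, Relation.ReflTransGen (BAdj (blow m A \ S)) (Sum.inl (v, 0)) p := by
    rintro (⟨v, i⟩ | ⟨v, i⟩)
    · exact ⟨v, block_anti m A S hS' v (Sum.inl (v, i)) (Or.inl rfl)⟩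
    · exact ⟨v, block_anti m A S hS' v (Sum.inr (v, i)) (Or.inr rfl)⟩
  obtain ⟨a, ha⟩ := hroot p
  obtain ⟨b, hb⟩ := hroot q
  exact ((conn_symm _ ha).trans (hstep a b (weak_conn A hA _ hdcard a b))).trans hb

theorem twoStrong_down (h : TwoStrong (blow m A)) : TwoStrong A := by
  obtain ⟨B₁, B₂, h₁, h₂, hdis, hs₁, hs₂⟩ := h
  have key : ∀ B ⊆ blow m A,
      (∀ u v, Relation.ReflTransGen (fun a b => (a, b) ∈ B) u v) →
      ∀ u v : V, Relation.ReflTransGen (fun a b : V => (a, b) ∈ down m A B) u v := by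
    intro B hB hs u v
    have hproj : ∀ x y : V × Fin (m + 1), Relation.ReflTransGen (fun a b => (a, b) ∈ B) x y →
        Relation.ReflTransGen (fun a b : V => (a, b) ∈ down m A B) x.1 y.1 := by
      intro x y hxy
      induction hxy with
      | refl => exact Relation.ReflTransGen.refl
      | @tail c d _ hcd ih =>
        have hmem := hB hcd
        rw [mem_blow] at hmem
        rcases hmem with h | h
        · simp only at h
          rw [← h.1]; exact ih
        · simp only at h
          refine ih.tail ?_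
          simp only [down, Finset.mem_filter]
          refine ⟨h.2.2, ?_⟩
          have e1 : (c.1, (0 : Fin (m + 1))) = c := Prod.ext rfl h.1.symm
          have e2 : (d.1, (0 : Fin (m + 1))) = d := Prod.ext rfl h.2.1.symm
          rw [e1, e2]; exact hcd
    exact hproj (u, 0) (v, 0) (hs _ _)
  refine ⟨down m A B₁, down m A B₂, down_sub m A _, down_sub m A _, ?_, key B₁ h₁ hs₁,
    key B₂ h₂ hs₂⟩
  rw [Finset.disjoint_left] at hdis ⊢
  intro e he he'
  simp only [down, Finset.mem_filter] at he he'
  exact hdis he.2 he'.2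

end construction

end Pool.Agent.H67.BJY
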