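import Mathlib

/-!
Definitions: generic placements, global rigidity, cores, the binomial random graph.
-/

namespace Pool.Agent.H67.RigidDefs

open scoped Classical in
/-- `Prob n p E` is the probability that the binomial random graph `G(n, p)` on the vertex set
`Fin n` has the property `E`: the sum of `p ^ e(G) * (1 - p) ^ (C(n,2) - e(G))` over all graphs `G`
on `Fin n` with the property `E`. -/
noncomputable def Prob (n : ℕ) (p : ℝ) (E : SimpleGraph (Fin n) → Prop) : ℝ :=
  ∑ G ∈ (Finset.univ : Finset (SimpleGraph (Fin n))).filter E,
    p ^ G.edgeSet.ncard * (1 - p) ^ (n.choose 2 - G.edgeSet.ncard)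

/-- A placement `p : V → ℝ^d` is generic if its coordinates are algebraically independent
over `ℚ`. -/
def IsGeneric {V : Type*} {d : ℕ} (p : V → EuclideanSpace ℝ (Fin d)) : Prop :=
  AlgebraicIndependent ℚ (fun x : V × Fin d => p x.1 x.2)

/-- The framework `(H, p)` is globally rigid: every placement with the same edge lengths has the
same distances between all pairs of vertices. -/
def FrameworkGloballyRigid {V : Type*} {d : ℕ} (H : SimpleGraph V)
    (p : V → EuclideanSpace ℝ (Fin d)) : Prop :=
  ∀ q : V → EuclideanSpace ℝ (Fin d),
    (∀ u v, H.Adj u v → ‖q u - q v‖ = ‖p u - p v‖) → ∀ u v, ‖q u - q v‖ = ‖p u - p v‖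

/-- `H` is globally `d`-rigid: some generic framework `(H, p)` in `ℝ^d` is globally rigid (by
Gortler, Healy and Thurston this holds for one generic `p` if and only if it holds for all). -/
def GloballyRigid {V : Type*} (d : ℕ) (H : SimpleGraph V) : Prop :=
  ∃ p : V → EuclideanSpace ℝ (Fin d), IsGeneric p ∧ FrameworkGloballyRigid H p

/-- `A` is the vertex set of a globally `d`-rigid component of `G`: an inclusion-maximal set
inducing a globally `d`-rigid subgraph. -/
def IsGloballyRigidComponent {V : Type*} (d : ℕ) (G : SimpleGraph V) (A : Set V) : Prop :=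
  Maximal (fun B : Set V => GloballyRigid d (G.induce B)) A

/-- The vertex set of the `k`-core of `G`: the union of all vertex sets `S` such that every vertex
of `S` has at least `k` neighbours in `S`. -/
def coreSet {V : Type*} (k : ℕ) (G : SimpleGraph V) : Set V :=
  {v | ∃ S : Set V, v ∈ S ∧ ∀ u ∈ S, k ≤ (G.neighborSet u ∩ S).ncard}

end Pool.Agent.H67.RigidDefs
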