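import Mathlib
import Pool.Agent.H67.RigidDefs

/-!
Elementary facts on the binomial random graph.
-/

namespace Pool.Agent.H67.RandGraph

open Pool.Agent.H67.RigidDefs Finset
open scoped Classical

variable {n : ℕ}

/-- The weight of a graph. -/
noncomputable def wt (n : ℕ) (p : ℝ) (G : SimpleGraph (Fin n)) : ℝ :=
  p ^ G.edgeSet.ncard * (1 - p) ^ (n.choose 2 - G.edgeSet.ncard)

lemma Prob_eq (n : ℕ) (p : ℝ) (E : SimpleGraph (Fin n) → Prop) [DecidablePred E] :
    Prob n p E = ∑ G ∈ (univ : Finset (SimpleGraph (Fin n))).filter E, wt n p G := by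
  unfold Prob wt
  congr!

/-- All possible edges. -/
noncomputable def allE (n : ℕ) : Finset (Sym2 (Fin n)) := univ.filter (fun e => ¬ e.IsDiag)

lemma card_allE (n : ℕ) : (allE n).card = n.choose 2 := by
  have h := Sym2.card_subtype_not_diag (α := Fin n)
  rw [Fintype.card_fin] at h
  rw [← h, Fintype.card_subtype]
  rfl

/-- The edge set as a finset. -/
noncomputable def ef (G : SimpleGraph (Fin n)) : Finset (Sym2 (Fin n)) :=
  univ.filter (fun e => e ∈ G.edgeSet)

lemma mem_ef {G : SimpleGraph (Fin n)} {e : Sym2 (Fin n)} : e ∈ ef G ↔ e ∈ G.edgeSet := by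
  simp [ef]

lemma coe_ef (G : SimpleGraph (Fin n)) : (ef G : Set (Sym2 (Fin n))) = G.edgeSet := by
  ext e; simp [ef]

lemma ncard_edgeSet (G : SimpleGraph (Fin n)) : G.edgeSet.ncard = (ef G).card := by
  rw [← coe_ef, Set.ncard_coe_finset]

lemma ef_subset (G : SimpleGraph (Fin n)) : ef G ⊆ allE n := by
  intro e he
  rw [mem_ef] at he
  simp only [allE, mem_filter, mem_univ, true_and]
  exact G.not_isDiag_of_mem_edgeSet he

lemma ef_fromEdgeSet (S : Finset (Sym2 (Fin n))) (hS : S ⊆ allE n) :
    ef (SimpleGraph.fromEdgeSet (S : Set (Sym2 (Fin n)))) = S := by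
  ext e
  rw [mem_ef, SimpleGraph.edgeSet_fromEdgeSet]
  simp only [Set.mem_sdiff, mem_coe]
  constructor
  · exact fun h => h.1
  · intro h
    refine ⟨h, ?_⟩
    have := hS h
    simp only [allE, mem_filter, mem_univ, true_and] at this
    simpa using this

lemma fromEdgeSet_ef (G : SimpleGraph (Fin n)) :
    SimpleGraph.fromEdgeSet (ef G : Set (Sym2 (Fin n))) = G := by
  rw [coe_ef, SimpleGraph.fromEdgeSet_edgeSet]

lemma ef_injective : Function.Injective (ef (n := n)) := by
  intro G H h
  rw [← fromEdgeSet_ef G, ← fromEdgeSet_ef H, h]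

lemma wt_eq (p : ℝ) (G : SimpleGraph (Fin n)) :
    wt n p G = p ^ (ef G).card * (1 - p) ^ ((allE n).card - (ef G).card) := by
  rw [wt, ncard_edgeSet, card_allE]

/-- Summation over graphs is summation over sets of edges. -/
lemma sum_graph (f : Finset (Sym2 (Fin n)) → ℝ) (P : Finset (Sym2 (Fin n)) → Prop)
    [DecidablePred P] :
    ∑ G ∈ (univ : Finset (SimpleGraph (Fin n))).filter (fun G => P (ef G)), f (ef G) =
      ∑ S ∈ (allE n).powerset.filter P, f S := by
  apply sum_bij' (fun G _ => ef G) (fun S _ => SimpleGraph.fromEdgeSet (S : Set (Sym2 (Fin n))))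
  · intro G hG
    simp only [mem_filter, mem_univ, true_and] at hG
    simp only [mem_filter, mem_powerset]
    exact ⟨ef_subset G, hG⟩
  · intro S hS
    simp only [mem_filter, mem_powerset] at hS
    simp only [mem_filter, mem_univ, true_and]
    rw [ef_fromEdgeSet S hS.1]
    exact hS.2
  · intro G _
    exact fromEdgeSet_ef G
  · intro S hS
    simp only [mem_filter, mem_powerset] at hS
    exact ef_fromEdgeSet S hS.1
  · intro G _
    rfl

lemma wt_nonneg {p : ℝ} (h0 : 0 ≤ p) (h1 : p ≤ 1) (G : SimpleGraph (Fin n)) : 0 ≤ wt n p G := by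
  unfold wt
  have : 0 ≤ 1 - p := by linarith
  positivity

lemma sum_powerset_edges (p : ℝ) (s : Finset (Sym2 (Fin n))) :
    ∑ t ∈ s.powerset, p ^ t.card * (1 - p) ^ (s.card - t.card) = 1 := by
  rw [Finset.sum_pow_mul_eq_add_pow]
  simp

/-- Probability that the edges `F` are all present. -/
lemma prob_contains (p : ℝ) (F : Finset (Sym2 (Fin n))) (hF : F ⊆ allE n) :
    Prob n p (fun G => F ⊆ ef G) = p ^ F.card := by
  rw [Prob_eq]
  have h1 : ∑ G ∈ (univ : Finset (SimpleGraph (Fin n))).filter (fun G => F ⊆ ef G), wt n p G =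
      ∑ S ∈ (allE n).powerset.filter (fun S => F ⊆ S),
        p ^ S.card * (1 - p) ^ ((allE n).card - S.card) := by
    rw [← sum_graph (fun S => p ^ S.card * (1 - p) ^ ((allE n).card - S.card)) (fun S => F ⊆ S)]
    apply sum_congr rfl
    intro G _
    exact wt_eq p G
  rw [h1]
  have h2 : ∑ S ∈ (allE n).powerset.filter (fun S => F ⊆ S),
        p ^ S.card * (1 - p) ^ ((allE n).card - S.card) =
      ∑ t ∈ (allE n \ F).powerset, p ^ F.card *
        (p ^ t.card * (1 - p) ^ ((allE n \ F).card - t.card)) := by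
    apply sum_bij' (fun S _ => S \ F) (fun t _ => t ∪ F)
    · intro S hS
      simp only [mem_filter, mem_powerset] at hS ⊢
      exact sdiff_subset_sdiff hS.1 (le_refl F)
    · intro t ht
      simp only [mem_filter, mem_powerset] at ht ⊢
      refine ⟨union_subset (ht.trans sdiff_subset) hF, subset_union_right⟩
    · intro S hS
      simp only [mem_filter, mem_powerset] at hS
      exact sdiff_union_of_subset hS.2
    · intro t ht
      simp only [mem_powerset] at ht
      rw [union_sdiff_right]
      apply sdiff_eq_self_of_disjoint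
      exact disjoint_of_subset_left ht sdiff_disjoint
    · intro S hS
      simp only [mem_filter, mem_powerset] at hS
      have e1 : S.card = F.card + (S \ F).card := by
        rw [card_sdiff_of_subset hS.2]
        have := card_le_card hS.2
        omega
      have e2 : (allE n).card = F.card + (allE n \ F).card := by
        rw [card_sdiff_of_subset hF]
        have := card_le_card hF
        omega
      rw [e1, e2, pow_add, Nat.add_sub_add_left]
      ring
  rw [h2, ← mul_sum, sum_powerset_edges, mul_one]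

/-- Probability that the edges `F` are all absent. -/
lemma prob_avoids (p : ℝ) (F : Finset (Sym2 (Fin n))) (hF : F ⊆ allE n) :
    Prob n p (fun G => Disjoint (ef G) F) = (1 - p) ^ F.card := by
  rw [Prob_eq]
  have h1 : ∑ G ∈ (univ : Finset (SimpleGraph (Fin n))).filter (fun G => Disjoint (ef G) F),
      wt n p G = ∑ S ∈ (allE n).powerset.filter (fun S => Disjoint S F),
        p ^ S.card * (1 - p) ^ ((allE n).card - S.card) := by
    rw [← sum_graph (fun S => p ^ S.card * (1 - p) ^ ((allE n).card - S.card))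
      (fun S => Disjoint S F)]
    apply sum_congr rfl
    intro G _
    exact wt_eq p G
  rw [h1]
  have h2 : (allE n).powerset.filter (fun S => Disjoint S F) = (allE n \ F).powerset := by
    ext S
    simp only [mem_filter, mem_powerset]
    constructor
    · rintro ⟨h, h'⟩
      exact subset_sdiff.mpr ⟨h, h'⟩
    · intro h
      exact subset_sdiff.mp h
  rw [h2]
  have h3 : ∑ S ∈ (allE n \ F).powerset, p ^ S.card * (1 - p) ^ ((allE n).card - S.card) =
      ∑ t ∈ (allE n \ F).powerset, (1 - p) ^ F.card *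
        (p ^ t.card * (1 - p) ^ ((allE n \ F).card - t.card)) := by
    apply sum_congr rfl
    intro t ht
    simp only [mem_powerset] at ht
    have e2 : (allE n).card = F.card + (allE n \ F).card := by
      rw [card_sdiff_of_subset hF]
      have := card_le_card hF
      omega
    have e3 := card_le_card ht
    have e4 : (allE n).card - t.card = F.card + ((allE n \ F).card - t.card) := by omega
    rw [e4, pow_add]
    ring
  rw [h3, ← mul_sum, sum_powerset_edges, mul_one]

lemma prob_true (p : ℝ) : Prob n p (fun _ => True) = 1 := by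
  have := prob_contains (n := n) p ∅ (empty_subset _)
  simpa using this

lemma sum_wt (p : ℝ) : ∑ G : SimpleGraph (Fin n), wt n p G = 1 := by
  have := prob_true (n := n) p
  rw [Prob_eq] at this
  simpa using this

lemma prob_mono {p : ℝ} (h0 : 0 ≤ p) (h1 : p ≤ 1) {E F : SimpleGraph (Fin n) → Prop}
    (h : ∀ G, E G → F G) : Prob n p E ≤ Prob n p F := by
  rw [Prob_eq, Prob_eq]
  apply sum_le_sum_of_subset_of_nonneg
  · intro G hG
    simp only [mem_filter, mem_univ, true_and] at hG ⊢
    exact h G hG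
  · intro G _ _
    exact wt_nonneg h0 h1 G

lemma prob_nonneg {p : ℝ} (h0 : 0 ≤ p) (h1 : p ≤ 1) (E : SimpleGraph (Fin n) → Prop) :
    0 ≤ Prob n p E := by
  rw [Prob_eq]
  exact sum_nonneg (fun G _ => wt_nonneg h0 h1 G)

lemma prob_add_not (p : ℝ) (E : SimpleGraph (Fin n) → Prop) :
    Prob n p E + Prob n p (fun G => ¬ E G) = 1 := by
  rw [Prob_eq, Prob_eq, sum_filter_add_sum_filter_not, sum_wt]

lemma prob_congr {p : ℝ} {E F : SimpleGraph (Fin n) → Prop}
    (h : ∀ G, E G ↔ F G) : Prob n p E = Prob n p F := by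
  have : E = F := funext fun G => propext (h G)
  rw [this]

/-- `P(E and F) ≥ P(E) - P(not F)`. -/
lemma prob_and_ge {p : ℝ} (h0 : 0 ≤ p) (h1 : p ≤ 1) (E F : SimpleGraph (Fin n) → Prop) :
    Prob n p E - Prob n p (fun G => ¬ F G) ≤ Prob n p (fun G => E G ∧ F G) := by
  have e1 : Prob n p E = Prob n p (fun G => E G ∧ F G) + Prob n p (fun G => E G ∧ ¬ F G) := by
    rw [Prob_eq, Prob_eq, Prob_eq, ← sum_filter_add_sum_filter_not (univ.filter E) F,
      filter_filter, filter_filter]
  have e2 : Prob n p (fun G => E G ∧ ¬ F G) ≤ Prob n p (fun G => ¬ F G) :=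
    prob_mono h0 h1 (fun G h => h.2)
  linarith

/-- Second moment inequality. -/
lemma second_moment {p : ℝ} (h0 : 0 ≤ p) (h1 : p ≤ 1) {ι : Type*} (I : Finset ι)
    (A : ι → SimpleGraph (Fin n) → Prop) :
    (∑ i ∈ I, Prob n p (A i)) ^ 2 ≤
      (∑ i ∈ I, ∑ j ∈ I, Prob n p (fun G => A i G ∧ A j G)) *
        Prob n p (fun G => ∃ i ∈ I, A i G) := by
  have hsq : ∀ G : SimpleGraph (Fin n), Real.sqrt (wt n p G) ^ 2 = wt n p G := fun G =>
    Real.sq_sqrt (wt_nonneg h0 h1 G)
  let X : SimpleGraph (Fin n) → ℝ := fun G => ∑ i ∈ I, if A i G then 1 else 0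
  let Y : SimpleGraph (Fin n) → ℝ := fun G => if ∃ i ∈ I, A i G then 1 else 0
  have hXY : ∀ G, X G * Y G = X G := by
    intro G
    by_cases h : ∃ i ∈ I, A i G
    · simp [Y, h]
    · have : X G = 0 := by
        simp only [X]
        apply sum_eq_zero
        intro i hi
        rw [if_neg]
        intro hA
        exact h ⟨i, hi, hA⟩
      rw [this, zero_mul]
  have e1 : ∑ i ∈ I, Prob n p (A i) = ∑ G : SimpleGraph (Fin n),
      (Real.sqrt (wt n p G) * X G) * (Real.sqrt (wt n p G) * Y G) := by
    have : ∀ G : SimpleGraph (Fin n), (Real.sqrt (wt n p G) * X G) * (Real.sqrt (wt n p G) * Y G) =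
        ∑ i ∈ I, if A i G then wt n p G else 0 := by
      intro G
      have : (Real.sqrt (wt n p G) * X G) * (Real.sqrt (wt n p G) * Y G) =
        Real.sqrt (wt n p G) ^ 2 * (X G * Y G) := by ring
      rw [this, hsq, hXY]
      simp only [X, mul_sum, mul_ite, mul_one, mul_zero]
    simp_rw [this]
    rw [sum_comm]
    apply sum_congr rfl
    intro i _
    rw [Prob_eq, sum_filter]
  have e2 : ∑ i ∈ I, ∑ j ∈ I, Prob n p (fun G => A i G ∧ A j G) =
      ∑ G : SimpleGraph (Fin n), (Real.sqrt (wt n p G) * X G) ^ 2 := by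
    have : ∀ G : SimpleGraph (Fin n), (Real.sqrt (wt n p G) * X G) ^ 2 =
        ∑ i ∈ I, ∑ j ∈ I, if A i G ∧ A j G then wt n p G else 0 := by
      intro G
      rw [mul_pow, hsq, sq]
      simp only [X]
      rw [sum_mul_sum, mul_sum]
      apply sum_congr rfl
      intro i _
      rw [mul_sum]
      apply sum_congr rfl
      intro j _
      by_cases h1 : A i G <;> by_cases h2 : A j G <;> simp [h1, h2]
    simp_rw [this]
    symm
    rw [sum_comm]
    apply sum_congr rfl
    intro i _
    rw [sum_comm]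
    apply sum_congr rfl
    intro j _
    rw [Prob_eq, sum_filter]
  have e3 : Prob n p (fun G => ∃ i ∈ I, A i G) =
      ∑ G : SimpleGraph (Fin n), (Real.sqrt (wt n p G) * Y G) ^ 2 := by
    rw [Prob_eq, sum_filter]
    apply sum_congr rfl
    intro G _
    rw [mul_pow, hsq]
    by_cases h : ∃ i ∈ I, A i G <;> simp [Y, h]
  rw [e1, e2, e3]
  exact sum_mul_sq_le_sq_mul_sq _ _ _

end Pool.Agent.H67.RandGraph
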