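import Mathlib

/-!
A degree-zero argument on the 3-torus for sparse triples of separable periodic functions.
-/

namespace Pool.Agent.H67.Degree

open MeasureTheory Real Set Filter Topology

/-- `SP A Ax Ay`: `A` is a finite sum of products `u(x) v(y)` of `C^1` functions taking equal values
at `-π` and `π`, and `Ax`, `Ay` are its partial derivatives. -/
inductive SP : (ℝ → ℝ → ℝ) → (ℝ → ℝ → ℝ) → (ℝ → ℝ → ℝ) → Prop
  | basic (u u' v v' : ℝ → ℝ) (hu : ∀ x, HasDerivAt u (u' x) x) (hu' : Continuous u')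
      (hup : u (-π) = u π) (hv : ∀ x, HasDerivAt v (v' x) x) (hv' : Continuous v')
      (hvp : v (-π) = v π) :
      SP (fun x y => u x * v y) (fun x y => u' x * v y) (fun x y => u x * v' y)
  | add {A Ax Ay B Bx By : ℝ → ℝ → ℝ} (hA : SP A Ax Ay) (hB : SP B Bx By) :
      SP (fun x y => A x y + B x y) (fun x y => Ax x y + Bx x y) (fun x y => Ay x y + By x y)

namespace SP

lemma congr {A Ax Ay B Bx By : ℝ → ℝ → ℝ} (h : SP A Ax Ay) (h0 : ∀ x y, A x y = B x y)
    (h1 : ∀ x y, Ax x y = Bx x y) (h2 : ∀ x y, Ay x y = By x y) : SP B Bx By := by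
  have e0 : A = B := by funext x y; exact h0 x y
  have e1 : Ax = Bx := by funext x y; exact h1 x y
  have e2 : Ay = By := by funext x y; exact h2 x y
  subst e0 e1 e2
  exact h

lemma cont {A Ax Ay : ℝ → ℝ → ℝ} (h : SP A Ax Ay) :
    Continuous (fun t : ℝ × ℝ => A t.1 t.2) ∧ Continuous (fun t : ℝ × ℝ => Ax t.1 t.2) ∧
      Continuous (fun t : ℝ × ℝ => Ay t.1 t.2) := by
  induction h with
  | basic u u' v v' hu hu' hup hv hv' hvp =>
    have cu : Continuous u := continuous_iff_continuousAt.mpr fun x => (hu x).continuousAt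
    have cv : Continuous v := continuous_iff_continuousAt.mpr fun x => (hv x).continuousAt
    refine ⟨?_, ?_, ?_⟩
    · exact (cu.comp continuous_fst).mul (cv.comp continuous_snd)
    · exact (hu'.comp continuous_fst).mul (cv.comp continuous_snd)
    · exact (cu.comp continuous_fst).mul (hv'.comp continuous_snd)
  | add hA hB ihA ihB =>
    exact ⟨ihA.1.add ihB.1, ihA.2.1.add ihB.2.1, ihA.2.2.add ihB.2.2⟩

lemma const (c : ℝ) : SP (fun _ _ => c) (fun _ _ => 0) (fun _ _ => 0) := by
  refine (SP.basic (fun _ => c) (fun _ => 0) (fun _ => 1) (fun _ => 0)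
    (fun x => hasDerivAt_const x c) continuous_const rfl
    (fun x => hasDerivAt_const x 1) continuous_const rfl).congr ?_ ?_ ?_ <;> intros <;> simp

lemma mul {A Ax Ay B Bx By : ℝ → ℝ → ℝ} (hA : SP A Ax Ay) (hB : SP B Bx By) :
    SP (fun x y => A x y * B x y) (fun x y => Ax x y * B x y + A x y * Bx x y)
      (fun x y => Ay x y * B x y + A x y * By x y) := by
  induction hA with
  | basic u u' v v' hu hu' hup hv hv' hvp =>
    induction hB with
    | basic r r' s s' hr hr' hrp hs hs' hsp =>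
      have cu : Continuous u := continuous_iff_continuousAt.mpr fun x => (hu x).continuousAt
      have cv : Continuous v := continuous_iff_continuousAt.mpr fun x => (hv x).continuousAt
      have cr : Continuous r := continuous_iff_continuousAt.mpr fun x => (hr x).continuousAt
      have cs : Continuous s := continuous_iff_continuousAt.mpr fun x => (hs x).continuousAt
      refine (SP.basic (fun x => u x * r x) (fun x => u' x * r x + u x * r' x)
        (fun x => v x * s x) (fun x => v' x * s x + v x * s' x)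
        (fun x => (hu x).mul (hr x)) (by fun_prop) (by simp only [hup, hrp])
        (fun x => (hv x).mul (hs x)) (by fun_prop) (by simp only [hvp, hsp])).congr ?_ ?_ ?_ <;>
        intro x y <;> ring
    | add h1 h2 ih1 ih2 =>
      refine (SP.add ih1 ih2).congr ?_ ?_ ?_ <;> intro x y <;> ring
  | add h1 h2 ih1 ih2 =>
    refine (SP.add ih1 ih2).congr ?_ ?_ ?_ <;> intro x y <;> ring

lemma smul {A Ax Ay : ℝ → ℝ → ℝ} (c : ℝ) (hA : SP A Ax Ay) :
    SP (fun x y => c * A x y) (fun x y => c * Ax x y) (fun x y => c * Ay x y) := by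
  refine ((SP.const c).mul hA).congr ?_ ?_ ?_ <;> intro x y <;> ring

lemma sum {ι : Type*} (s : Finset ι) {A Ax Ay : ι → ℝ → ℝ → ℝ}
    (h : ∀ i ∈ s, SP (A i) (Ax i) (Ay i)) :
    SP (fun x y => ∑ i ∈ s, A i x y) (fun x y => ∑ i ∈ s, Ax i x y)
      (fun x y => ∑ i ∈ s, Ay i x y) := by
  classical
  induction s using Finset.induction_on with
  | empty => simpa using SP.const 0
  | insert a s ha ih =>
    have h1 := h a (Finset.mem_insert_self a s)
    have h2 := ih (fun i hi => h i (Finset.mem_insert_of_mem hi))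
    refine (SP.add h1 h2).congr ?_ ?_ ?_ <;> intro x y <;> simp [Finset.sum_insert ha]

/-- Powers. -/
lemma pow {A Ax Ay : ℝ → ℝ → ℝ} (hA : SP A Ax Ay) (n : ℕ) :
    SP (fun x y => A x y ^ (n + 1)) (fun x y => (n + 1) * A x y ^ n * Ax x y)
      (fun x y => (n + 1) * A x y ^ n * Ay x y) := by
  induction n with
  | zero => refine hA.congr ?_ ?_ ?_ <;> intro x y <;> simp
  | succ n ih =>
    refine (ih.mul hA).congr ?_ ?_ ?_ <;> intro x y <;> push_cast <;> ring

/-- Antiderivative of a polynomial composed with `A`. -/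
lemma poly {A Ax Ay : ℝ → ℝ → ℝ} (hA : SP A Ax Ay) (P : Polynomial ℝ) :
    ∃ B : ℝ → ℝ → ℝ, SP B (fun x y => P.eval (A x y) * Ax x y)
      (fun x y => P.eval (A x y) * Ay x y) := by
  induction P using Polynomial.induction_on' with
  | add p q hp hq =>
    obtain ⟨B, hB⟩ := hp
    obtain ⟨C, hC⟩ := hq
    refine ⟨_, (hB.add hC).congr (fun _ _ => rfl) ?_ ?_⟩ <;> intro x y <;>
      rw [Polynomial.eval_add] <;> ring
  | monomial n a =>
    refine ⟨_, (SP.smul (a / (n + 1)) (hA.pow n)).congr (fun _ _ => rfl) ?_ ?_⟩ <;>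
    · intro x y
      rw [Polynomial.eval_monomial]
      have : (n + 1 : ℝ) ≠ 0 := by positivity
      field_simp

end SP

/-- The cube `[-π, π]^3`. -/
def Q : Set (ℝ × ℝ × ℝ) := Icc (-π) π ×ˢ (Icc (-π) π ×ˢ Icc (-π) π)

lemma isCompact_Q : IsCompact Q := isCompact_Icc.prod (isCompact_Icc.prod isCompact_Icc)

lemma integral_prod3 (f g h : ℝ → ℝ) :
    ∫ t in Q, f t.1 * (g t.2.1 * h t.2.2) =
      (∫ x in Icc (-π) π, f x) * ((∫ x in Icc (-π) π, g x) * (∫ x in Icc (-π) π, h x)) := by
  unfold Q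
  have h1 := setIntegral_prod_mul (μ := (volume : Measure ℝ)) (ν := (volume : Measure (ℝ × ℝ)))
    f (fun s : ℝ × ℝ => g s.1 * h s.2) (Icc (-π) π) (Icc (-π) π ×ˢ Icc (-π) π)
  have h2 := setIntegral_prod_mul (μ := (volume : Measure ℝ)) (ν := (volume : Measure ℝ))
    g h (Icc (-π) π) (Icc (-π) π)
  rw [← h2]
  exact h1

lemma ibp (u u' v v' : ℝ → ℝ) (hu : ∀ x, HasDerivAt u (u' x) x) (hu' : Continuous u')
    (hup : u (-π) = u π) (hv : ∀ x, HasDerivAt v (v' x) x) (hv' : Continuous v')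
    (hvp : v (-π) = v π) :
    ∫ x in Icc (-π) π, u' x * v x = - ∫ x in Icc (-π) π, u x * v' x := by
  have hle : -π ≤ π := by linarith [Real.pi_pos]
  rw [integral_Icc_eq_integral_Ioc, integral_Icc_eq_integral_Ioc,
    ← intervalIntegral.integral_of_le hle, ← intervalIntegral.integral_of_le hle]
  have := intervalIntegral.integral_mul_deriv_eq_deriv_mul (a := -π) (b := π) (u := u) (v := v)
    (u' := u') (v' := v') (fun x _ => hu x) (fun x _ => hv x)
    (hu'.intervalIntegrable _ _) (hv'.intervalIntegrable _ _)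
  rw [this, hup, hvp]
  ring

/-- The integrand of the degree formula. -/
def J (Ax Ay By Bz Cz Cx : ℝ → ℝ → ℝ) (t : ℝ × ℝ × ℝ) : ℝ :=
  Ax t.1 t.2.1 * By t.2.1 t.2.2 * Cz t.2.2 t.1 + Ay t.1 t.2.1 * Bz t.2.1 t.2.2 * Cx t.2.2 t.1

lemma J_cont {A Ax Ay B By Bz C Cz Cx : ℝ → ℝ → ℝ} (hA : SP A Ax Ay) (hB : SP B By Bz)
    (hC : SP C Cz Cx) : Continuous (J Ax Ay By Bz Cz Cx) := by
  obtain ⟨_, a1, a2⟩ := hA.cont
  obtain ⟨_, b1, b2⟩ := hB.cont
  obtain ⟨_, c1, c2⟩ := hC.cont
  have p12 : Continuous (fun t : ℝ × ℝ × ℝ => (t.1, t.2.1)) := by fun_prop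
  have p23 : Continuous (fun t : ℝ × ℝ × ℝ => (t.2.1, t.2.2)) := by fun_prop
  have p31 : Continuous (fun t : ℝ × ℝ × ℝ => (t.2.2, t.1)) := by fun_prop
  exact (((a1.comp p12).mul (b1.comp p23)).mul (c1.comp p31)).add
    (((a2.comp p12).mul (b2.comp p23)).mul (c2.comp p31))

lemma integral_J {A Ax Ay B By Bz C Cz Cx : ℝ → ℝ → ℝ} (hA : SP A Ax Ay) (hB : SP B By Bz)
    (hC : SP C Cz Cx) : ∫ t in Q, J Ax Ay By Bz Cz Cx t = 0 := by
  have hint : ∀ {A Ax Ay B By Bz C Cz Cx : ℝ → ℝ → ℝ}, SP A Ax Ay → SP B By Bz → SP C Cz Cx →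
      IntegrableOn (J Ax Ay By Bz Cz Cx) Q volume := fun h1 h2 h3 =>
    (J_cont h1 h2 h3).continuousOn.integrableOn_compact isCompact_Q
  induction hA with
  | add h1 h2 ih1 ih2 =>
    rename_i A1 A1x A1y A2 A2x A2y
    have e : ∀ t, J (fun x y => A1x x y + A2x x y) (fun x y => A1y x y + A2y x y) By Bz Cz Cx t =
        J A1x A1y By Bz Cz Cx t + J A2x A2y By Bz Cz Cx t := by
      intro t; simp only [J]; ring
    simp_rw [e]
    rw [integral_add (hint h1 hB hC) (hint h2 hB hC), ih1, ih2, add_zero]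
  | basic u u' v v' hu hu' hup hv hv' hvp =>
    have hAA := SP.basic u u' v v' hu hu' hup hv hv' hvp
    induction hB with
    | add h1 h2 ih1 ih2 =>
      rename_i B1 B1y B1z B2 B2y B2z
      have e : ∀ t, J (fun x y => u' x * v y) (fun x y => u x * v' y)
          (fun x y => B1y x y + B2y x y) (fun x y => B1z x y + B2z x y) Cz Cx t =
          J (fun x y => u' x * v y) (fun x y => u x * v' y) B1y B1z Cz Cx t +
          J (fun x y => u' x * v y) (fun x y => u x * v' y) B2y B2z Cz Cx t := by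
        intro t; simp only [J]; ring
      simp_rw [e]
      rw [integral_add (hint hAA h1 hC) (hint hAA h2 hC), ih1, ih2, add_zero]
    | basic r r' s s' hr hr' hrp hs hs' hsp =>
      have hBB := SP.basic r r' s s' hr hr' hrp hs hs' hsp
      induction hC with
      | add h1 h2 ih1 ih2 =>
        rename_i C1 C1z C1x C2 C2z C2x
        have e : ∀ t, J (fun x y => u' x * v y) (fun x y => u x * v' y)
            (fun x y => r' x * s y) (fun x y => r x * s' y)
            (fun x y => C1z x y + C2z x y) (fun x y => C1x x y + C2x x y) t =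
            J (fun x y => u' x * v y) (fun x y => u x * v' y)
              (fun x y => r' x * s y) (fun x y => r x * s' y) C1z C1x t +
            J (fun x y => u' x * v y) (fun x y => u x * v' y)
              (fun x y => r' x * s y) (fun x y => r x * s' y) C2z C2x t := by
          intro t; simp only [J]; ring
        simp_rw [e]
        rw [integral_add (hint hAA hBB h1) (hint hAA hBB h2), ih1, ih2, add_zero]
      | basic k k' m m' hk hk' hkp hm hm' hmp =>
        have cu : Continuous u := continuous_iff_continuousAt.mpr fun x => (hu x).continuousAt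
        have cv : Continuous v := continuous_iff_continuousAt.mpr fun x => (hv x).continuousAt
        have cr : Continuous r := continuous_iff_continuousAt.mpr fun x => (hr x).continuousAt
        have cs : Continuous s := continuous_iff_continuousAt.mpr fun x => (hs x).continuousAt
        have ck : Continuous k := continuous_iff_continuousAt.mpr fun x => (hk x).continuousAt
        have cm : Continuous m := continuous_iff_continuousAt.mpr fun x => (hm x).continuousAt
        have e : ∀ t, J (fun x y => u' x * v y) (fun x y => u x * v' y)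
            (fun x y => r' x * s y) (fun x y => r x * s' y)
            (fun x y => k' x * m y) (fun x y => k x * m' y) t =
            (fun x => u' x * m x) t.1 * ((fun x => v x * r' x) t.2.1 *
              (fun x => s x * k' x) t.2.2) +
            (fun x => u x * m' x) t.1 * ((fun x => v' x * r x) t.2.1 *
              (fun x => s' x * k x) t.2.2) := by
          intro t; simp only [J]; ring
        simp_rw [e]
        rw [integral_add, integral_prod3 (fun x => u' x * m x) (fun x => v x * r' x)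
          (fun x => s x * k' x), integral_prod3 (fun x => u x * m' x) (fun x => v' x * r x)
          (fun x => s' x * k x)]
        · rw [ibp u u' m m' hu hu' hup hm hm' hmp, ibp v v' r r' hv hv' hvp hr hr' hrp,
            ibp s s' k k' hs hs' hsp hk hk' hkp]
          ring
        · apply ContinuousOn.integrableOn_compact isCompact_Q
          apply Continuous.continuousOn
          fun_prop
        · apply ContinuousOn.integrableOn_compact isCompact_Q
          apply Continuous.continuousOn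
          fun_prop

/-- If the Jacobian at the origin is non-zero, then the fibre of `F` over `F 0` contains another
point of the torus. -/
theorem exists_other {A Ax Ay B By Bz C Cz Cx : ℝ → ℝ → ℝ} (hA : SP A Ax Ay) (hB : SP B By Bz)
    (hC : SP C Cz Cx) (hJ : J Ax Ay By Bz Cz Cx 0 ≠ 0) :
    ∃ t ∈ Q, t ≠ 0 ∧ A t.1 t.2.1 = A 0 0 ∧ B t.2.1 t.2.2 = B 0 0 ∧ C t.2.2 t.1 = C 0 0 := by
  by_contra hcon
  push Not at hcon
  obtain ⟨cA, _, _⟩ := hA.cont
  obtain ⟨cB, _, _⟩ := hB.cont
  obtain ⟨cC, _, _⟩ := hC.cont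
  have p12 : Continuous (fun t : ℝ × ℝ × ℝ => (t.1, t.2.1)) := by fun_prop
  have p23 : Continuous (fun t : ℝ × ℝ × ℝ => (t.2.1, t.2.2)) := by fun_prop
  have p31 : Continuous (fun t : ℝ × ℝ × ℝ => (t.2.2, t.1)) := by fun_prop
  have dA : Continuous (fun t : ℝ × ℝ × ℝ => A t.1 t.2.1) := cA.comp p12
  have dB : Continuous (fun t : ℝ × ℝ × ℝ => B t.2.1 t.2.2) := cB.comp p23
  have dC : Continuous (fun t : ℝ × ℝ × ℝ => C t.2.2 t.1) := cC.comp p31
  have bound : ∀ f : ℝ × ℝ × ℝ → ℝ, Continuous f → ∃ M : ℝ, 0 < M ∧ ∀ t ∈ Q, |f t| ≤ M := by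
    intro f hf
    obtain ⟨M, hM⟩ := isCompact_Q.exists_bound_of_continuousOn hf.continuousOn
    refine ⟨max M 1, by positivity, fun t ht => ?_⟩
    exact le_trans (hM t ht) (le_max_left _ _)
  obtain ⟨M1, hM1, b1⟩ := bound (fun t => A t.1 t.2.1 - A 0 0) (by fun_prop)
  obtain ⟨M2, hM2, b2⟩ := bound (fun t => B t.2.1 t.2.2 - B 0 0) (by fun_prop)
  obtain ⟨M3, hM3, b3⟩ := bound (fun t => C t.2.2 t.1 - C 0 0) (by fun_prop)
  -- the peak polynomial
  let P (y M : ℝ) : Polynomial ℝ :=
    1 - Polynomial.C (1 / M ^ 2) * (Polynomial.X - Polynomial.C y) ^ 2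
  have hP : ∀ y M x, (P y M).eval x = 1 - (x - y) ^ 2 / M ^ 2 := by
    intro y M x
    simp [P]
    ring
  let c : ℝ × ℝ × ℝ → ℝ := fun t => (P (A 0 0) M1).eval (A t.1 t.2.1) *
    (P (B 0 0) M2).eval (B t.2.1 t.2.2) * (P (C 0 0) M3).eval (C t.2.2 t.1)
  have hc : Continuous c := by
    simp only [c, hP]
    fun_prop
  have fact : ∀ (x y M : ℝ), 0 < M → |x - y| ≤ M → 0 ≤ 1 - (x - y) ^ 2 / M ^ 2 ∧
      1 - (x - y) ^ 2 / M ^ 2 ≤ 1 := by
    intro x y M hM h
    have h1 : (x - y) ^ 2 ≤ M ^ 2 := by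
      rw [← sq_abs]; gcongr
    have h2 : (x - y) ^ 2 / M ^ 2 ≤ 1 := by rw [div_le_one (by positivity)]; exact h1
    have h3 : 0 ≤ (x - y) ^ 2 / M ^ 2 := by positivity
    constructor <;> linarith
  have fact2 : ∀ (x y M : ℝ), 0 < M → x ≠ y → 1 - (x - y) ^ 2 / M ^ 2 < 1 := by
    intro x y M hM h
    have : 0 < (x - y) ^ 2 := by
      have := sub_ne_zero.mpr h
      positivity
    have h3 : 0 < (x - y) ^ 2 / M ^ 2 := by positivity
    linarith
  have c0 : c 0 = 1 := by simp [c, hP]
  have hc_nonneg : ∀ t ∈ Q, 0 ≤ c t := by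
    intro t ht
    simp only [c, hP]
    have h1 := (fact _ _ _ hM1 (b1 t ht)).1
    have h2 := (fact _ _ _ hM2 (b2 t ht)).1
    have h3 := (fact _ _ _ hM3 (b3 t ht)).1
    positivity
  have hc_lt : ∀ t ∈ Q, t ≠ 0 → c t < c 0 := by
    intro t ht ht0
    rw [c0]
    simp only [c, hP]
    obtain ⟨h1, h1'⟩ := fact _ _ _ hM1 (b1 t ht)
    obtain ⟨h2, h2'⟩ := fact _ _ _ hM2 (b2 t ht)
    obtain ⟨h3, h3'⟩ := fact _ _ _ hM3 (b3 t ht)
    have gen : ∀ a b c : ℝ, 0 ≤ a → a ≤ 1 → 0 ≤ b → b ≤ 1 → 0 ≤ c → c ≤ 1 →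
        (a < 1 ∨ b < 1 ∨ c < 1) → a * b * c < 1 := by
      intro a b c ha ha' hb hb' hc hc' h
      rcases h with h | h | h
      · nlinarith [mul_nonneg ha hb, mul_le_one₀ ha' hb hb', mul_le_one₀ hb' hc hc',
          mul_nonneg hb hc]
      · nlinarith [mul_nonneg ha hc, mul_le_one₀ ha' hc hc', mul_nonneg ha hb]
      · nlinarith [mul_nonneg ha hb, mul_le_one₀ ha' hb hb']
    apply gen _ _ _ h1 h1' h2 h2' h3 h3'
    by_cases e1 : A t.1 t.2.1 = A 0 0
    · by_cases e2 : B t.2.1 t.2.2 = B 0 0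
      · have e3 := hcon t ht ht0 e1 e2
        right; right; exact fact2 _ _ _ hM3 e3
      · right; left; exact fact2 _ _ _ hM2 e2
    · left; exact fact2 _ _ _ hM1 e1
  have h0Q : (0 : ℝ × ℝ × ℝ) ∈ interior Q := by
    have : interior Q = Ioo (-π) π ×ˢ (Ioo (-π) π ×ˢ Ioo (-π) π) := by
      unfold Q
      rw [interior_prod_eq, interior_prod_eq, interior_Icc]
    rw [this]
    have := Real.pi_pos
    refine ⟨⟨?_, ?_⟩, ⟨?_, ?_⟩, ⟨?_, ?_⟩⟩ <;> simp [this]
  have hJc := J_cont hA hB hC
  have key := tendsto_setIntegral_pow_smul_of_unique_maximum_of_isCompact_of_continuousOn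
    (μ := (volume : Measure (ℝ × ℝ × ℝ))) isCompact_Q (c := c) hc.continuousOn (x₀ := 0)
    hc_lt hc_nonneg (by rw [c0]; norm_num) (subset_closure h0Q)
    (g := J Ax Ay By Bz Cz Cx) hJc.continuousOn
  have hz : ∀ n : ℕ, ∫ t in Q, c t ^ n • J Ax Ay By Bz Cz Cx t = 0 := by
    intro n
    obtain ⟨A', hA'⟩ := hA.poly (P (A 0 0) M1 ^ n)
    obtain ⟨B', hB'⟩ := hB.poly (P (B 0 0) M2 ^ n)
    obtain ⟨C', hC'⟩ := hC.poly (P (C 0 0) M3 ^ n)
    have := integral_J hA' hB' hC'
    rw [← this]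
    congr 1
    funext t
    simp only [J, c, Polynomial.eval_pow, smul_eq_mul, mul_pow]
    ring
  simp only [hz, smul_zero] at key
  exact hJ (tendsto_nhds_unique key tendsto_const_nhds)

end Pool.Agent.H67.Degree
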