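import Mathlib
import Pool.Agent.H67.Degree
import Pool.Agent.H67.RigidDefs

/-!
A triangle of vertices each having `d - 1` further neighbours prevents global `d`-rigidity.
-/

namespace Pool.Agent.H67.Rigid

open MeasureTheory Real Set Pool.Agent.H67.Degree Pool.Agent.H67.RigidDefs

/-! ### Determinants of rows -/

section Det

variable {R S : Type*} [CommRing R] [CommRing S] {r : ℕ}

/-- Matrix with first row `x` and the other rows `a - A i`. -/
def rowMat (x a : Fin (r + 1) → R) (A : Fin r → Fin (r + 1) → R) :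
    Matrix (Fin (r + 1)) (Fin (r + 1)) R :=
  Matrix.of (Fin.cons x (fun i j => a j - A i j) : Fin (r + 1) → Fin (r + 1) → R)

lemma rowMat_zero (x a : Fin (r + 1) → R) (A : Fin r → Fin (r + 1) → R) (j : Fin (r + 1)) :
    rowMat x a A 0 j = x j := rfl

lemma rowMat_succ (x a : Fin (r + 1) → R) (A : Fin r → Fin (r + 1) → R) (i : Fin r)
    (j : Fin (r + 1)) : rowMat x a A i.succ j = a j - A i j := rfl

/-- The determinant of `rowMat`. -/
def DD (x a : Fin (r + 1) → R) (A : Fin r → Fin (r + 1) → R) : R := (rowMat x a A).det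

lemma map_DD (f : R →+* S) (x a : Fin (r + 1) → R) (A : Fin r → Fin (r + 1) → R) :
    f (DD x a A) = DD (fun j => f (x j)) (fun j => f (a j)) (fun i j => f (A i j)) := by
  unfold DD
  rw [RingHom.map_det]
  congr 1
  ext i j
  refine Fin.cases ?_ (fun i => ?_) i
  · rfl
  · simp [RingHom.mapMatrix_apply, rowMat_succ]

/-- The normal vector: cofactors along the first row. -/
def NN (a : Fin (r + 1) → R) (A : Fin r → Fin (r + 1) → R) (j : Fin (r + 1)) : R :=
  (-1) ^ (j : ℕ) * Matrix.det (Matrix.of (fun (i k : Fin r) => a (j.succAbove k) -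
    A i (j.succAbove k)))

lemma DD_eq_sum (x a : Fin (r + 1) → R) (A : Fin r → Fin (r + 1) → R) :
    DD x a A = ∑ j, x j * NN a A j := by
  unfold DD
  rw [Matrix.det_succ_row_zero]
  apply Finset.sum_congr rfl
  intro j _
  rw [rowMat_zero]
  unfold NN
  have : ((rowMat x a A).submatrix Fin.succ j.succAbove) =
      Matrix.of (fun (i k : Fin r) => a (j.succAbove k) - A i (j.succAbove k)) := by
    ext i k
    rfl
  rw [this]
  ring

lemma DD_row (a : Fin (r + 1) → R) (A : Fin r → Fin (r + 1) → R) (i : Fin r) :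
    DD (fun j => a j - A i j) a A = 0 := by
  unfold DD
  apply Matrix.det_zero_of_row_eq (i := 0) (j := i.succ) (Fin.succ_ne_zero i).symm
  funext j
  rfl

/-- The polynomial expressing infinitesimal rigidity of the triangle. -/
def Delta (P : Fin 3 × Option (Fin r) → Fin (r + 1) → R) : R :=
  DD (fun j => P (0, none) j - P (1, none) j) (P (0, none)) (fun i => P (0, some i)) *
  DD (fun j => P (1, none) j - P (2, none) j) (P (1, none)) (fun i => P (1, some i)) *
  DD (fun j => P (2, none) j - P (0, none) j) (P (2, none)) (fun i => P (2, some i)) -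
  DD (fun j => P (0, none) j - P (1, none) j) (P (1, none)) (fun i => P (1, some i)) *
  DD (fun j => P (1, none) j - P (2, none) j) (P (2, none)) (fun i => P (2, some i)) *
  DD (fun j => P (2, none) j - P (0, none) j) (P (0, none)) (fun i => P (0, some i))

lemma map_Delta (f : R →+* S) (P : Fin 3 × Option (Fin r) → Fin (r + 1) → R) :
    f (Delta P) = Delta (fun i j => f (P i j)) := by
  unfold Delta
  simp only [map_sub, map_mul, map_DD]

end Det

section Example

variable {s : ℕ}

/-- Direction index of row `i` for the vertex `k`. -/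
def exRow (k : Fin 3) (i : Fin (s + 1)) : Fin (s + 2) := if k = 2 ∧ i = 0 then 0 else i.succ

/-- Positions of the three triangle vertices in the example. -/
def exBase (k : Fin 3) (j : Fin (s + 2)) : ℚ :=
  if k = 0 then 0 else if k = 1 then (if j = 0 then 1 else 0) else (if j = 1 then 1 else 0)

/-- An example placement at which `Delta` does not vanish. -/
def exP (x : Fin 3 × Option (Fin (s + 1))) (j : Fin (s + 2)) : ℚ :=
  match x.2 with
  | none => exBase x.1 j
  | some i => exBase x.1 j - (if j = exRow x.1 i then 1 else 0)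

lemma exDD_std (k : Fin 3) (hk : k ≠ 2) (x : Fin (s + 2) → ℚ) :
    DD x (exP (k, none)) (fun i => exP (k, some i)) = x 0 := by
  unfold DD
  rw [Matrix.det_of_isUpperTriangular]
  · rw [Fin.prod_univ_succ, rowMat_zero]
    have : ∀ i : Fin (s + 1), rowMat x (exP (k, none)) (fun i => exP (k, some i)) i.succ i.succ
        = 1 := by
      intro i
      rw [rowMat_succ]
      simp [exP, exRow, hk]
    simp only [this, Finset.prod_const_one, mul_one]
  · intro i j hij
    simp only [id] at hij
    revert hij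
    refine Fin.cases ?_ (fun i => ?_) i
    · intro h; exact absurd h (Fin.not_lt_zero j)
    · intro h
      rw [rowMat_succ]
      have : j ≠ i.succ := ne_of_lt h
      simp [exP, exRow, hk, this]

lemma exDD_two :
    DD (fun j => exP (s := s) (2, none) j - exP (0, none) j) (exP (2, none))
      (fun i => exP (2, some i)) ≠ 0 := by
  unfold DD
  have : rowMat (fun j => exP (s := s) (2, none) j - exP (0, none) j) (exP (2, none))
      (fun i => exP (2, some i)) =
      (1 : Matrix (Fin (s + 2)) (Fin (s + 2)) ℚ).submatrix (Equiv.swap 0 1) id := by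
    ext i j
    refine Fin.cases ?_ (fun i => ?_) i
    · rw [rowMat_zero]
      simp only [Matrix.submatrix_apply, Equiv.swap_apply_left, id, Matrix.one_apply, exP, exBase]
      simp
      congr 1
      exact propext eq_comm
    · rw [rowMat_succ]
      simp only [Matrix.submatrix_apply, id, Matrix.one_apply, exP, exRow, true_and]
      by_cases hi : i = 0
      · subst hi
        have : Equiv.swap (0 : Fin (s + 2)) 1 (Fin.succ 0) = 0 := by
          have h1 : (Fin.succ 0 : Fin (s + 2)) = 1 := rfl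
          rw [h1, Equiv.swap_apply_right]
        rw [this]
        simp
        congr 1
        exact propext eq_comm
      · have : Equiv.swap (0 : Fin (s + 2)) 1 (Fin.succ i) = Fin.succ i := by
          apply Equiv.swap_apply_of_ne_of_ne
          · exact Fin.succ_ne_zero i
          · intro h
            apply hi
            have h1 : (Fin.succ 0 : Fin (s + 2)) = 1 := rfl
            rw [← h1] at h
            exact Fin.succ_injective _ h
        rw [this]
        simp [hi]
        congr 1
        exact propext eq_comm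
  rw [this, Matrix.det_permute]
  simp

lemma exDelta : Delta (exP (s := s)) ≠ 0 := by
  unfold Delta
  rw [exDD_std 0 (by decide), exDD_std 1 (by decide), exDD_std 1 (by decide),
    exDD_std 0 (by decide)]
  have h2 := exDD_two (s := s)
  have e0 : exP (s := s) (0, none) 0 = 0 := by simp [exP, exBase]
  have e1 : exP (s := s) (1, none) 0 = 1 := by simp [exP, exBase]
  have e2 : exP (s := s) (2, none) 0 = 0 := by simp [exP, exBase]
  rw [e0, e1, e2]
  simpa using h2

end Example

section Generic

variable {s : ℕ}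

/-- `Delta` does not vanish at generic placements. -/
lemma generic_Delta {V : Type*} (p : V → EuclideanSpace ℝ (Fin (s + 2))) (hp : IsGeneric p)
    (φ : Fin 3 × Option (Fin (s + 1)) ↪ V) :
    Delta (fun x j => p (φ x) j) ≠ 0 := by
  have hinj : Function.Injective
      (fun y : (Fin 3 × Option (Fin (s + 1))) × Fin (s + 2) => (φ y.1, y.2)) := by
    rintro ⟨x, j⟩ ⟨x', j'⟩ h
    simp only [Prod.mk.injEq, EmbeddingLike.apply_eq_iff_eq] at h
    rw [h.1, h.2]
  have hind := hp.comp _ hinj
  intro h0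
  let P : MvPolynomial ((Fin 3 × Option (Fin (s + 1))) × Fin (s + 2)) ℚ :=
    Delta (fun x j => MvPolynomial.X (x, j))
  have h1 : MvPolynomial.aeval (fun y : (Fin 3 × Option (Fin (s + 1))) × Fin (s + 2) =>
      p (φ y.1) y.2) P = 0 := by
    have := map_Delta (MvPolynomial.aeval (R := ℚ)
      (fun y : (Fin 3 × Option (Fin (s + 1))) × Fin (s + 2) => p (φ y.1) y.2)).toRingHom
      (fun x j => MvPolynomial.X (x, j))
    simp only [AlgHom.toRingHom_eq_coe, RingHom.coe_coe, MvPolynomial.aeval_X] at this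
    rw [h0] at this
    exact this
  have h2 : P = 0 := by
    have hz : MvPolynomial.aeval (fun y : (Fin 3 × Option (Fin (s + 1))) × Fin (s + 2) =>
      p (φ y.1) y.2) P = MvPolynomial.aeval (R := ℚ) (fun y : (Fin 3 × Option (Fin (s + 1))) × Fin (s + 2) =>
      p (φ y.1) y.2) 0 := by rw [h1, map_zero]
    exact hind hz
  have h3 := map_Delta (MvPolynomial.eval
      (fun y : (Fin 3 × Option (Fin (s + 1))) × Fin (s + 2) => exP (s := s) y.1 y.2))
      (fun x j => MvPolynomial.X (x, j))
  simp only [MvPolynomial.eval_X] at h3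
  have h4 : Delta (fun x j => (MvPolynomial.X (x, j) :
      MvPolynomial ((Fin 3 × Option (Fin (s + 1))) × Fin (s + 2)) ℚ)) = 0 := h2
  rw [h4, map_zero] at h3
  exact exDelta h3.symm

/-- The determinant witnessing affine independence of `d + 1` fixed vertices. -/
def Span {R : Type*} [CommRing R] (P : Fin 3 × Option (Fin (s + 1)) → Fin (s + 2) → R) : R :=
  DD (fun j => P (1, some 0) j - P (2, some 0) j) (P (2, some 0)) (fun i => P (0, some i))

lemma map_Span {R S : Type*} [CommRing R] [CommRing S] (f : R →+* S)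
    (P : Fin 3 × Option (Fin (s + 1)) → Fin (s + 2) → R) :
    f (Span P) = Span (fun i j => f (P i j)) := by
  unfold Span
  simp only [map_DD, map_sub]

/-- An example placement at which `Span` does not vanish. -/
def exQ (x : Fin 3 × Option (Fin (s + 1))) (j : Fin (s + 2)) : ℚ :=
  match x.2 with
  | none => 0
  | some i => if x.1 = 0 then (if j = i.succ then -1 else 0) else
      if x.1 = 1 then (if j = 0 then 1 else 0) else 0

lemma exSpan : Span (exQ (s := s)) ≠ 0 := by
  unfold Span DD
  rw [Matrix.det_of_isUpperTriangular]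
  · rw [Fin.prod_univ_succ, rowMat_zero]
    have : ∀ i : Fin (s + 1), rowMat (fun j => exQ (s := s) (1, some 0) j - exQ (2, some 0) j)
        (exQ (2, some 0)) (fun i => exQ (0, some i)) i.succ i.succ = 1 := by
      intro i
      rw [rowMat_succ]
      simp [exQ]
    simp only [this, Finset.prod_const_one, mul_one]
    simp [exQ]
  · intro i j hij
    simp only [id] at hij
    revert hij
    refine Fin.cases ?_ (fun i => ?_) i
    · intro h; exact absurd h (Fin.not_lt_zero j)
    · intro h
      rw [rowMat_succ]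
      have : j ≠ i.succ := ne_of_lt h
      simp [exQ, this]

/-- `Span` does not vanish at generic placements. -/
lemma generic_Span {V : Type*} (p : V → EuclideanSpace ℝ (Fin (s + 2))) (hp : IsGeneric p)
    (φ : Fin 3 × Option (Fin (s + 1)) ↪ V) :
    Span (fun x j => p (φ x) j) ≠ 0 := by
  have hinj : Function.Injective
      (fun y : (Fin 3 × Option (Fin (s + 1))) × Fin (s + 2) => (φ y.1, y.2)) := by
    rintro ⟨x, j⟩ ⟨x', j'⟩ h
    simp only [Prod.mk.injEq, EmbeddingLike.apply_eq_iff_eq] at h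
    rw [h.1, h.2]
  have hind := hp.comp _ hinj
  intro h0
  let P : MvPolynomial ((Fin 3 × Option (Fin (s + 1))) × Fin (s + 2)) ℚ :=
    Span (fun x j => MvPolynomial.X (x, j))
  have h1 : MvPolynomial.aeval (fun y : (Fin 3 × Option (Fin (s + 1))) × Fin (s + 2) =>
      p (φ y.1) y.2) P = 0 := by
    have := map_Span (MvPolynomial.aeval (R := ℚ)
      (fun y : (Fin 3 × Option (Fin (s + 1))) × Fin (s + 2) => p (φ y.1) y.2)).toRingHom
      (fun x j => MvPolynomial.X (x, j))
    simp only [AlgHom.toRingHom_eq_coe, RingHom.coe_coe, MvPolynomial.aeval_X] at this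
    rw [h0] at this
    exact this
  have h2 : P = 0 := by
    have hz : MvPolynomial.aeval (fun y : (Fin 3 × Option (Fin (s + 1))) × Fin (s + 2) =>
      p (φ y.1) y.2) P = MvPolynomial.aeval (R := ℚ) (fun y : (Fin 3 × Option (Fin (s + 1))) × Fin (s + 2) =>
      p (φ y.1) y.2) 0 := by rw [h1, map_zero]
    exact hind hz
  have h3 := map_Span (MvPolynomial.eval
      (fun y : (Fin 3 × Option (Fin (s + 1))) × Fin (s + 2) => exQ (s := s) y.1 y.2))
      (fun x j => MvPolynomial.X (x, j))
  simp only [MvPolynomial.eval_X] at h3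
  have h4 : Span (fun x j => (MvPolynomial.X (x, j) :
      MvPolynomial ((Fin 3 × Option (Fin (s + 1))) × Fin (s + 2)) ℚ)) = 0 := h2
  rw [h4, map_zero] at h3
  exact exSpan h3.symm

end Generic

/-! ### Circles -/

section Circle

variable {s : ℕ}

/-- Ambient space. -/
abbrev EE (s : ℕ) : Type := EuclideanSpace ℝ (Fin (s + 2))

open scoped InnerProductSpace

lemma inner_sum (x y : EE s) : ⟪x, y⟫_ℝ = ∑ j, x j * y j := by
  rw [PiLp.inner_apply]
  apply Finset.sum_congr rfl
  intro j _
  simp [mul_comm]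

lemma circle_exists (a : EE s) (A : Fin (s + 1) → EE s) (x0 : Fin (s + 2) → ℝ)
    (hD : DD x0 (fun j => a j) (fun i j => A i j) ≠ 0) :
    ∃ (w v : EE s) (κ : ℝ), κ ≠ 0 ∧ w ≠ 0 ∧ ⟪w, v⟫_ℝ = 0 ∧ ‖w‖ = ‖v‖ ∧
      (∀ i, ⟪a - A i, w⟫_ℝ = ‖w‖ ^ 2) ∧ (∀ i, ⟪a - A i, v⟫_ℝ = 0) ∧
      ∀ x : EE s, ⟪x, v⟫_ℝ = κ * DD (fun j => x j) (fun j => a j) (fun i j => A i j) := by
  let N : EE s := WithLp.toLp 2 (NN (fun j => a j) (fun i j => A i j))
  have hN : ∀ x : EE s, ⟪x, N⟫_ℝ = DD (fun j => x j) (fun j => a j) (fun i j => A i j) := by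
    intro x
    rw [inner_sum, DD_eq_sum]
  have hN0 : N ≠ 0 := by
    intro h
    apply hD
    have := hN (WithLp.toLp 2 x0)
    rw [h, inner_zero_right] at this
    exact this.symm
  have hperp : ∀ i, ⟪a - A i, N⟫_ℝ = 0 := by
    intro i
    rw [hN]
    exact DD_row (fun j => a j) (fun i j => A i j) i
  -- solve for a vector with prescribed products
  let M := rowMat x0 (fun j => a j) (fun i j => A i j)
  have hM : IsUnit M.det := isUnit_iff_ne_zero.mpr hD
  let e : Fin (s + 2) → ℝ := fun _ => 1
  let y : EE s := WithLp.toLp 2 (M⁻¹.mulVec e)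
  have hy : ∀ i, ⟪a - A i, y⟫_ℝ = 1 := by
    intro i
    have h1 : M.mulVec (M⁻¹.mulVec e) = e := by
      rw [Matrix.mulVec_mulVec, Matrix.mul_nonsing_inv M hM, Matrix.one_mulVec]
    have h2 := congrFun h1 i.succ
    rw [inner_sum]
    simpa [Matrix.mulVec, dotProduct, M, rowMat_succ, e, y] using h2
  let w' : EE s := y - (⟪y, N⟫_ℝ / ‖N‖ ^ 2) • N
  have hNn : ‖N‖ ≠ 0 := norm_ne_zero_iff.mpr hN0
  have hw'1 : ∀ i, ⟪a - A i, w'⟫_ℝ = 1 := by
    intro i
    simp only [w']
    rw [inner_sub_right, inner_smul_right, hperp i, hy i]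
    ring
  have hw'2 : ⟪w', N⟫_ℝ = 0 := by
    simp only [w']
    rw [inner_sub_left, inner_smul_left, real_inner_self_eq_norm_sq]
    simp only [conj_trivial]
    field_simp
    ring
  have hw'0 : w' ≠ 0 := by
    intro h
    have := hw'1 0
    rw [h, inner_zero_right] at this
    norm_num at this
  have hwn : ‖w'‖ ≠ 0 := norm_ne_zero_iff.mpr hw'0
  have hnw : ‖(1 / ‖w'‖ ^ 2) • w'‖ = 1 / ‖w'‖ := by
    rw [norm_smul, Real.norm_of_nonneg (by positivity)]
    field_simp
  refine ⟨(1 / ‖w'‖ ^ 2) • w', ((1 / ‖w'‖) / ‖N‖) • N, (1 / ‖w'‖) / ‖N‖, by positivity, ?_, ?_, ?_,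
    ?_, ?_, ?_⟩
  · exact smul_ne_zero (by positivity) hw'0
  · rw [inner_smul_left, inner_smul_right, hw'2]
    simp
  · rw [hnw, norm_smul, Real.norm_of_nonneg (by positivity)]
    field_simp
  · intro i
    rw [inner_smul_right, hw'1 i, hnw]
    field_simp
  · intro i
    rw [inner_smul_right, hperp i, mul_zero]
  · intro x
    rw [inner_smul_right, hN]

/-- The moving point. -/
noncomputable def circ (a w v : EE s) (θ : ℝ) : EE s := a + (cos θ - 1) • w + sin θ • v

lemma circ_zero (a w v : EE s) : circ a w v 0 = a := by simp [circ]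

lemma circ_dist (a b w v : EE s) (h1 : ⟪w, v⟫_ℝ = 0) (h2 : ‖w‖ = ‖v‖)
    (h3 : ⟪a - b, w⟫_ℝ = ‖w‖ ^ 2) (h4 : ⟪a - b, v⟫_ℝ = 0) (θ : ℝ) :
    ‖circ a w v θ - b‖ = ‖a - b‖ := by
  have h : ‖circ a w v θ - b‖ ^ 2 = ‖a - b‖ ^ 2 := by
    have e : circ a w v θ - b = (a - b) + ((cos θ - 1) • w + sin θ • v) := by
      simp only [circ]; abel
    rw [e, norm_add_sq_real, norm_add_sq_real, inner_add_right, inner_smul_right,
      inner_smul_right, inner_smul_left, inner_smul_right, h1, h3, h4, norm_smul, norm_smul, ← h2]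
    simp only [Real.norm_eq_abs, mul_pow, sq_abs, conj_trivial]
    have := Real.sin_sq_add_cos_sq θ
    nlinarith [sq_nonneg ‖w‖, this]
  exact (sq_eq_sq₀ (norm_nonneg _) (norm_nonneg _)).mp h

lemma circ_ne (a w v : EE s) (h1 : ⟪w, v⟫_ℝ = 0) (hw : w ≠ 0) (θ : ℝ)
    (hθ : θ ∈ Icc (-π) π) (h0 : θ ≠ 0) : circ a w v θ ≠ a := by
  intro h
  have h2 : (cos θ - 1) • w + sin θ • v = 0 := by
    have : circ a w v θ = a + ((cos θ - 1) • w + sin θ • v) := by simp only [circ]; abel
    rw [this] at h
    exact add_eq_left.mp h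
  have h3 : ⟪(cos θ - 1) • w + sin θ • v, w⟫_ℝ = 0 := by rw [h2, inner_zero_left]
  rw [inner_add_left, inner_smul_left, inner_smul_left, real_inner_self_eq_norm_sq,
    real_inner_comm, h1] at h3
  simp only [conj_trivial, mul_zero, add_zero, mul_eq_zero] at h3
  have hwn : ‖w‖ ≠ 0 := norm_ne_zero_iff.mpr hw
  rcases h3 with h3 | h3
  · have h4 : cos θ = 1 := by linarith
    have h5 := (Real.cos_eq_one_iff_of_lt_of_lt (x := θ) (by linarith [hθ.1, Real.pi_pos])
      (by linarith [hθ.2, Real.pi_pos])).mp h4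
    exact h0 h5
  · exact hwn (by simpa using h3)

lemma sp_circ (a w v b w' v' : EE s) :
    SP (fun x y => ‖circ a w v x - circ b w' v' y‖ ^ 2)
      (fun x y => 2 * ⟪circ a w v x - circ b w' v' y, (-sin x) • w + cos x • v⟫_ℝ)
      (fun x y => -2 * ⟪circ a w v x - circ b w' v' y, (-sin y) • w' + cos y • v'⟫_ℝ) := by
  have base : ∀ j : Fin (s + 2), SP (fun x y => circ a w v x j - circ b w' v' y j)
      (fun x _ => (-sin x) * w j + cos x * v j)
      (fun _ y => -((-sin y) * w' j + cos y * v' j)) := by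
    intro j
    have h1 := SP.basic (fun x => a j + (cos x - 1) * w j + sin x * v j)
      (fun x => (-sin x) * w j + cos x * v j) (fun _ => 1) (fun _ => 0)
      (fun x => by
        have e1 := ((Real.hasDerivAt_cos x).sub_const 1).mul_const (w j)
        have e2 := (Real.hasDerivAt_sin x).mul_const (v j)
        have e3 := (e1.const_add (a j)).add e2
        exact e3) (by fun_prop) (by simp) (fun x => hasDerivAt_const x 1) continuous_const rfl
    have h2 := SP.basic (fun _ => -1) (fun _ => 0)
      (fun x => b j + (cos x - 1) * w' j + sin x * v' j)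
      (fun x => (-sin x) * w' j + cos x * v' j)
      (fun x => hasDerivAt_const x _) continuous_const rfl
      (fun x => by
        have e1 := ((Real.hasDerivAt_cos x).sub_const 1).mul_const (w' j)
        have e2 := (Real.hasDerivAt_sin x).mul_const (v' j)
        have e3 := (e1.const_add (b j)).add e2
        exact e3) (by fun_prop) (by simp)
    refine (SP.add h1 h2).congr ?_ ?_ ?_
    · intro x y; simp [circ]; ring
    · intro x y; simp
    · intro x y; simp
  have h := SP.sum (Finset.univ : Finset (Fin (s + 2))) (fun j _ => (base j).mul (base j))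
  refine h.congr ?_ ?_ ?_
  · intro x y
    rw [← real_inner_self_eq_norm_sq, inner_sum]
    simp
  · intro x y
    rw [inner_sum, Finset.mul_sum]
    apply Finset.sum_congr rfl
    intro j _
    simp
    ring
  · intro x y
    rw [inner_sum, Finset.mul_sum]
    apply Finset.sum_congr rfl
    intro j _
    simp
    ring

end Circle

open scoped InnerProductSpace in
/-- A point with the same distances to `d + 1` affinely independent points is the same point. -/
lemma eq_of_dists {s : ℕ} (P : Fin 3 × Option (Fin (s + 1)) → EE s)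
    (hS : Span (fun x j => P x j) ≠ 0) (u v : EE s)
    (h1 : ‖u - P (1, some 0)‖ = ‖v - P (1, some 0)‖)
    (h2 : ‖u - P (2, some 0)‖ = ‖v - P (2, some 0)‖)
    (h0 : ∀ i, ‖u - P (0, some i)‖ = ‖v - P (0, some i)‖) : u = v := by
  have key : ∀ c e : EE s, ‖u - c‖ = ‖v - c‖ → ‖u - e‖ = ‖v - e‖ → ⟪c - e, u - v⟫_ℝ = 0 := by
    intro c e hc he
    have hc' : ‖u - c‖ ^ 2 = ‖v - c‖ ^ 2 := by rw [hc]
    have he' : ‖u - e‖ ^ 2 = ‖v - e‖ ^ 2 := by rw [he]
    rw [norm_sub_sq_real, norm_sub_sq_real] at hc' he'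
    rw [inner_sub_left, inner_sub_right, inner_sub_right, real_inner_comm u c,
      real_inner_comm v c, real_inner_comm u e, real_inner_comm v e]
    linarith
  by_contra hne
  have hne' : u - v ≠ 0 := sub_ne_zero.mpr hne
  apply hS
  unfold Span DD
  apply Matrix.exists_mulVec_eq_zero_iff.mp
  refine ⟨fun j => (u - v) j, ?_, ?_⟩
  · intro h
    apply hne'
    ext j
    exact congrFun h j
  · funext i
    refine Fin.cases ?_ (fun i => ?_) i
    · have := key _ _ h1 h2
      rw [inner_sum] at this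
      simpa [Matrix.mulVec, dotProduct, rowMat_zero] using this
    · have := key _ _ h2 (h0 i)
      rw [inner_sum] at this
      simpa [Matrix.mulVec, dotProduct, rowMat_succ] using this

open scoped InnerProductSpace in
/-- Main local obstruction: if `H` has three vertices `φ (k, none)` whose neighbours all lie among
each other and the `d - 1` vertices `φ (k, some i)` (for `k`-th vertex), then no generic
framework on `H` in `ℝ^d` is globally rigid, `d = s + 2`. -/
theorem not_frameworkGloballyRigid {V : Type*} {s : ℕ} (H : SimpleGraph V)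
    (φ : Fin 3 × Option (Fin (s + 1)) ↪ V)
    (hN : ∀ k v, H.Adj (φ (k, none)) v → (∃ k', v = φ (k', none)) ∨ ∃ i, v = φ (k, some i))
    (p : V → EE s) (hp : IsGeneric p) : ¬ FrameworkGloballyRigid H p := by
  classical
  intro hrig
  have hΔ := generic_Delta p hp φ
  have hSpan := generic_Span p hp φ
  -- each of the three stars is non-degenerate
  have hD : ∀ k : Fin 3, ∃ x0 : Fin (s + 2) → ℝ,
      DD x0 (fun j => p (φ (k, none)) j) (fun i j => p (φ (k, some i)) j) ≠ 0 := by
    by_contra hcon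
    push Not at hcon
    obtain ⟨k, hk⟩ := hcon
    apply hΔ
    unfold Delta
    fin_cases k
    · simp only [Fin.zero_eta] at hk
      rw [hk, hk]; ring
    · simp only [Fin.mk_one] at hk
      rw [hk, hk]; ring
    · simp only [Fin.reduceFinMk] at hk
      rw [hk, hk]; ring
  have hcirc : ∀ k : Fin 3, ∃ (w v : EE s) (κ : ℝ), κ ≠ 0 ∧ w ≠ 0 ∧ ⟪w, v⟫_ℝ = 0 ∧ ‖w‖ = ‖v‖ ∧
      (∀ i, ⟪p (φ (k, none)) - p (φ (k, some i)), w⟫_ℝ = ‖w‖ ^ 2) ∧
      (∀ i, ⟪p (φ (k, none)) - p (φ (k, some i)), v⟫_ℝ = 0) ∧
      ∀ x : EE s, ⟪x, v⟫_ℝ = κ * DD (fun j => x j) (fun j => p (φ (k, none)) j)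
        (fun i j => p (φ (k, some i)) j) := by
    intro k
    obtain ⟨x0, hx0⟩ := hD k
    exact circle_exists (p (φ (k, none))) (fun i => p (φ (k, some i))) x0 hx0
  choose w v κ hκ hw hwv hnorm hAw hAv hx using hcirc
  set a : Fin 3 → EE s := fun k => p (φ (k, none)) with ha
  have hJ : J
      (fun x y => 2 * ⟪circ (a 0) (w 0) (v 0) x - circ (a 1) (w 1) (v 1) y,
        (-sin x) • w 0 + cos x • v 0⟫_ℝ)
      (fun x y => -2 * ⟪circ (a 0) (w 0) (v 0) x - circ (a 1) (w 1) (v 1) y,
        (-sin y) • w 1 + cos y • v 1⟫_ℝ)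
      (fun x y => 2 * ⟪circ (a 1) (w 1) (v 1) x - circ (a 2) (w 2) (v 2) y,
        (-sin x) • w 1 + cos x • v 1⟫_ℝ)
      (fun x y => -2 * ⟪circ (a 1) (w 1) (v 1) x - circ (a 2) (w 2) (v 2) y,
        (-sin y) • w 2 + cos y • v 2⟫_ℝ)
      (fun x y => 2 * ⟪circ (a 2) (w 2) (v 2) x - circ (a 0) (w 0) (v 0) y,
        (-sin x) • w 2 + cos x • v 2⟫_ℝ)
      (fun x y => -2 * ⟪circ (a 2) (w 2) (v 2) x - circ (a 0) (w 0) (v 0) y,
        (-sin y) • w 0 + cos y • v 0⟫_ℝ) 0 ≠ 0 := by
    have e : ∀ (b : EE s) (k : Fin 3), ⟪b, (-sin 0) • w k + cos 0 • v k⟫_ℝ = ⟪b, v k⟫_ℝ := by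
      intro b k; simp
    simp only [J, Prod.fst_zero, Prod.snd_zero, circ_zero, e, hx]
    intro h0
    apply hΔ
    have hk := mul_ne_zero (mul_ne_zero (hκ 0) (hκ 1)) (hκ 2)
    have h8 : 8 * (κ 0 * κ 1 * κ 2) * Delta (fun x j => p (φ x) j) = 0 := by
      unfold Delta
      simp only [a, PiLp.sub_apply] at h0
      linear_combination h0
    rcases mul_eq_zero.mp h8 with h9 | h9
    · exfalso
      rcases mul_eq_zero.mp h9 with h10 | h10
      · norm_num at h10
      · exact hk h10
    · exact h9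
  obtain ⟨t, htQ, ht0, hA, hB, hC⟩ := exists_other
    (sp_circ (a 0) (w 0) (v 0) (a 1) (w 1) (v 1)) (sp_circ (a 1) (w 1) (v 1) (a 2) (w 2) (v 2))
    (sp_circ (a 2) (w 2) (v 2) (a 0) (w 0) (v 0)) hJ
  simp only [circ_zero] at hA hB hC
  -- the new positions of the triangle
  let θ : Fin 3 → ℝ := ![t.1, t.2.1, t.2.2]
  let b : Fin 3 → EE s := fun k => circ (a k) (w k) (v k) (θ k)
  have hpair : ∀ k l, ‖b k - b l‖ = ‖a k - a l‖ := by
    have sq : ∀ x y : EE s, ‖x‖ ^ 2 = ‖y‖ ^ 2 → ‖x‖ = ‖y‖ := fun x y h =>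
      (sq_eq_sq₀ (norm_nonneg _) (norm_nonneg _)).mp h
    have h01 : ‖b 0 - b 1‖ = ‖a 0 - a 1‖ := sq _ _ hA
    have h12 : ‖b 1 - b 2‖ = ‖a 1 - a 2‖ := sq _ _ hB
    have h20 : ‖b 2 - b 0‖ = ‖a 2 - a 0‖ := sq _ _ hC
    have comm : ∀ x y : EE s, ‖x - y‖ = ‖y - x‖ := fun x y => norm_sub_rev x y
    intro k l
    fin_cases k <;> fin_cases l <;> simp only [Fin.zero_eta, Fin.mk_one, Fin.reduceFinMk]
    · simp
    · exact h01
    · rw [comm, h20, comm]
    · rw [comm, h01, comm]
    · simp
    · exact h12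
    · exact h20
    · rw [comm, h12, comm]
    · simp
  -- the new placement
  let q : V → EE s := fun x => if h : ∃ k, φ (k, none) = x then b h.choose else p x
  have hqT : ∀ k, q (φ (k, none)) = b k := by
    intro k
    have hex : ∃ k', φ (k', none) = φ (k, none) := ⟨k, rfl⟩
    have hch : hex.choose = k := by
      have := hex.choose_spec
      have h := φ.injective this
      exact (Prod.ext_iff.mp h).1
    simp only [q]
    rw [dif_pos hex, hch]
  have hqR : ∀ x, (∀ k, φ (k, none) ≠ x) → q x = p x := by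
    intro x hx
    simp only [q]
    rw [dif_neg]
    push Not
    exact hx
  have hqS : ∀ k i, q (φ (k, some i)) = p (φ (k, some i)) := by
    intro k i
    apply hqR
    intro k' h
    have := φ.injective h
    simp at this
  have hedge : ∀ x y, H.Adj x y → ‖q x - q y‖ = ‖p x - p y‖ := by
    have one : ∀ k y, H.Adj (φ (k, none)) y → ‖q (φ (k, none)) - q y‖ = ‖p (φ (k, none)) - p y‖ := by
      intro k y hy
      rcases hN k y hy with ⟨k', rfl⟩ | ⟨i, rfl⟩
      · rw [hqT, hqT]; exact hpair k k'
      · rw [hqT, hqS]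
        exact circ_dist (a k) (p (φ (k, some i))) (w k) (v k) (hwv k) (hnorm k) (hAw k i)
          (hAv k i) (θ k)
    intro x y hxy
    by_cases hx1 : ∃ k, φ (k, none) = x
    · obtain ⟨k, rfl⟩ := hx1
      exact one k y hxy
    · by_cases hy1 : ∃ k, φ (k, none) = y
      · obtain ⟨k, rfl⟩ := hy1
        rw [norm_sub_rev, one k x hxy.symm, norm_sub_rev]
      · push Not at hx1 hy1
        rw [hqR x hx1, hqR y hy1]
  have hall := hrig q hedge
  -- hence the triangle did not move
  have hfix : ∀ k, b k = a k := by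
    intro k
    apply eq_of_dists (fun x => p (φ x)) hSpan
    · have := hall (φ (k, none)) (φ (1, some 0))
      rwa [hqT, hqS] at this
    · have := hall (φ (k, none)) (φ (2, some 0))
      rwa [hqT, hqS] at this
    · intro i
      have := hall (φ (k, none)) (φ (0, some i))
      rwa [hqT, hqS] at this
  have hθ : ∀ k, θ k = 0 := by
    intro k
    by_contra h
    have hm : θ k ∈ Icc (-π) π := by
      obtain ⟨h1, h2, h3⟩ := htQ
      fin_cases k
      · exact h1
      · exact h2
      · exact h3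
    exact circ_ne (a k) (w k) (v k) (hwv k) (hw k) (θ k) hm h (hfix k)
  apply ht0
  have e0 := hθ 0
  have e1 := hθ 1
  have e2 := hθ 2
  simp only [θ] at e0 e1 e2
  exact Prod.ext e0 (Prod.ext e1 e2)

end Pool.Agent.H67.Rigid
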