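import Mathlib
import Pool.Agent.H67.RandGraph
import Pool.Agent.H67.Rigid

/-!
The event that a given triple is a bad triangle attached to the core.
-/

namespace Pool.Agent.H67.Triangle

open Pool.Agent.H67.RigidDefs Pool.Agent.H67.RandGraph Finset
open scoped Classical

variable {n : ℕ}

/-- Delete all edges meeting `T`. -/
def del (T : Set (Fin n)) (G : SimpleGraph (Fin n)) : SimpleGraph (Fin n) where
  Adj u v := G.Adj u v ∧ u ∉ T ∧ v ∉ T
  symm := ⟨fun _ _ h => ⟨h.1.symm, h.2.2, h.2.1⟩⟩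
  loopless := ⟨fun u h => G.loopless.irrefl u h.1⟩

lemma del_adj {T : Set (Fin n)} {G : SimpleGraph (Fin n)} {u v : Fin n} :
    (del T G).Adj u v ↔ G.Adj u v ∧ u ∉ T ∧ v ∉ T := Iff.rfl

/-- Every vertex of the core has at least `k` neighbours in the core. -/
lemma core_deg {V : Type*} [Finite V] (k : ℕ) (G : SimpleGraph V) (u : V) (hu : u ∈ coreSet k G) :
    k ≤ (G.neighborSet u ∩ coreSet k G).ncard := by
  obtain ⟨S, huS, hS⟩ := hu
  have hsub : S ⊆ coreSet k G := fun v hv => ⟨S, hv, hS⟩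
  exact (hS u huS).trans (Set.ncard_le_ncard (Set.inter_subset_inter_right _ hsub)
    (Set.toFinite _))

/-- The bad event for the triple `T`: `T` spans a triangle, every vertex of `T` has exactly `r`
neighbours outside `T`, these neighbourhoods are pairwise disjoint and contained in the
`k`-core of the graph obtained by deleting all edges meeting `T`. -/
def Bad (k r : ℕ) (T : Finset (Fin n)) (G : SimpleGraph (Fin n)) : Prop :=
  (∀ u ∈ T, ∀ v ∈ T, u ≠ v → G.Adj u v) ∧
  (∀ u ∈ T, (G.neighborSet u \ T).ncard = r) ∧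
  (∀ u ∈ T, G.neighborSet u \ T ⊆ coreSet k (del T G)) ∧
  (∀ u ∈ T, ∀ v ∈ T, u ≠ v → Disjoint (G.neighborSet u \ T) (G.neighborSet v \ T))

lemma neighbor_inter {T : Finset (Fin n)} (G : SimpleGraph (Fin n)) (hT : T.card = 3)
    (hcl : ∀ u ∈ T, ∀ v ∈ T, u ≠ v → G.Adj u v) (u : Fin n) (hu : u ∈ T) :
    (G.neighborSet u ∩ T).ncard = 2 := by
  have : G.neighborSet u ∩ T = ((T.erase u : Finset (Fin n)) : Set (Fin n)) := by
    ext v
    simp only [Set.mem_inter_iff, SimpleGraph.mem_neighborSet, mem_coe, coe_erase, Set.mem_sdiff,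
      Set.mem_singleton_iff]
    constructor
    · rintro ⟨h1, h2⟩
      exact ⟨h2, fun h => by subst h; exact G.loopless.irrefl _ h1⟩
    · rintro ⟨h1, h2⟩
      exact ⟨hcl u hu v h1 (Ne.symm h2), h1⟩
  rw [this, Set.ncard_coe_finset, card_erase_of_mem hu, hT]

/-- Total degree of a vertex of a bad triangle. -/
lemma neighbor_card {k r : ℕ} {T : Finset (Fin n)} (G : SimpleGraph (Fin n)) (hT : T.card = 3)
    (hB : Bad k r T G) (u : Fin n) (hu : u ∈ T) : (G.neighborSet u).ncard = r + 2 := by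
  have h1 := neighbor_inter G hT hB.1 u hu
  have h2 := hB.2.1 u hu
  have h3 := Set.ncard_inter_add_ncard_sdiff_eq_ncard (G.neighborSet u) (T : Set (Fin n))
    (Set.toFinite _)
  omega

/-- A bad triangle and its attachments lie in the core. -/
lemma bad_subset_core {r : ℕ} {T : Finset (Fin n)} (G : SimpleGraph (Fin n)) (hT : T.card = 3)
    (hB : Bad (r + 2) r T G) :
    (T : Set (Fin n)) ∪ coreSet (r + 2) (del T G) ⊆ coreSet (r + 2) G := by
  intro v hv
  refine ⟨(T : Set (Fin n)) ∪ coreSet (r + 2) (del T G), hv, ?_⟩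
  intro u hu
  rcases hu with hu | hu
  · have h1 := neighbor_card G hT hB u hu
    have h2 : G.neighborSet u ∩ ((T : Set (Fin n)) ∪ coreSet (r + 2) (del T G)) =
        G.neighborSet u := by
      apply Set.inter_eq_left.mpr
      intro w hw
      by_cases hwT : w ∈ T
      · left; exact hwT
      · right; exact hB.2.2.1 u hu ⟨hw, hwT⟩
    rw [h2, h1]
  · refine (core_deg _ _ _ hu).trans (Set.ncard_le_ncard ?_ (Set.toFinite _))
    intro w hw
    refine ⟨?_, Or.inr hw.2⟩
    exact hw.1.1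

/-- Two distinct bad triples are disjoint. -/
lemma bad_disjoint {r : ℕ} {T T' : Finset (Fin n)} (G : SimpleGraph (Fin n)) (hT : T.card = 3)
    (hT' : T'.card = 3) (hB : Bad (r + 2) r T G) (hB' : Bad (r + 2) r T' G) (hne : T ≠ T') :
    Disjoint T T' := by
  rw [Finset.disjoint_left]
  intro a ha ha'
  have hex : ∃ b ∈ T', b ∉ T := by
    by_contra hcon
    push Not at hcon
    exact hne (Finset.eq_of_subset_of_card_le hcon (by omega)).symm
  obtain ⟨b, hb', hb⟩ := hex
  have hab : a ≠ b := fun h => hb (h ▸ ha)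
  have hadj : G.Adj a b := hB'.1 a ha' b hb' hab
  have hbcore : b ∈ coreSet (r + 2) (del T G) := hB.2.2.1 a ha ⟨hadj, hb⟩
  have h1 := core_deg _ _ _ hbcore
  have h2 := neighbor_card G hT' hB' b hb'
  have h3 : (del T G).neighborSet b ∩ coreSet (r + 2) (del T G) ⊆ G.neighborSet b \ {a} := by
    intro w hw
    refine ⟨hw.1.1, ?_⟩
    intro hwa
    simp only [Set.mem_singleton_iff] at hwa
    subst hwa
    exact hw.1.2.2 ha
  have h4 := Set.ncard_le_ncard h3 (Set.toFinite _)
  have h5 : (G.neighborSet b \ {a}).ncard < (G.neighborSet b).ncard := by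
    apply Set.ncard_sdiff_singleton_lt_of_mem (s := G.neighborSet b) (a := a) hadj.symm
      (Set.toFinite _)
  omega

/-- If there is a bad triangle, then the core is not globally rigid. -/
lemma bad_not_rigid {s : ℕ} {T : Finset (Fin n)} (G : SimpleGraph (Fin n)) (hT : T.card = 3)
    (hB : Bad (s + 3) (s + 1) T G) :
    ¬ GloballyRigid (s + 2) (G.induce (coreSet (s + 3) G)) := by
  rintro ⟨p, hp, hrig⟩
  have hsub := bad_subset_core (r := s + 1) G hT hB
  -- enumerate the triangle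
  let x : Fin 3 ↪ Fin n := (T.orderEmbOfFin hT).toEmbedding
  have hxT : ∀ k, x k ∈ T := fun k => T.orderEmbOfFin_mem hT k
  have hxsurj : ∀ v ∈ T, ∃ k, v = x k := by
    intro v hv
    have : v ∈ Set.range (T.orderEmbOfFin hT) := by
      rw [T.range_orderEmbOfFin hT]; exact hv
    obtain ⟨k, hk⟩ := this
    exact ⟨k, hk.symm⟩
  -- enumerate the outer neighbourhoods
  have hfin : ∀ k : Fin 3, ∃ e : Fin (s + 1) → Fin n, Function.Injective e ∧
      Set.range e = G.neighborSet (x k) \ T := by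
    intro k
    have hc := hB.2.1 (x k) (hxT k)
    have hS : (G.neighborSet (x k) \ (T : Set (Fin n))).toFinset.card = s + 1 := by
      rw [← hc, Set.ncard_eq_toFinset_card']
    refine ⟨fun i => ((G.neighborSet (x k) \ (T : Set (Fin n))).toFinset.orderEmbOfFin hS i), ?_, ?_⟩
    · exact (RelEmbedding.injective _)
    · have := (G.neighborSet (x k) \ (T : Set (Fin n))).toFinset.range_orderEmbOfFin hS
      rw [Set.coe_toFinset] at this
      exact this
  choose e he_inj he_range using hfin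
  have he_mem : ∀ k i, e k i ∈ G.neighborSet (x k) \ (T : Set (Fin n)) := by
    intro k i
    rw [← he_range k]
    exact ⟨i, rfl⟩
  have hcoreT : ∀ k, x k ∈ coreSet (s + 3) G := fun k => hsub (Or.inl (hxT k))
  have hcoreE : ∀ k i, e k i ∈ coreSet (s + 3) G := fun k i =>
    hsub (Or.inr (hB.2.2.1 (x k) (hxT k) (he_mem k i)))
  let φ0 : Fin 3 × Option (Fin (s + 1)) → coreSet (s + 3) G := fun y =>
    match y.2 with
    | none => ⟨x y.1, hcoreT y.1⟩
    | some i => ⟨e y.1 i, hcoreE y.1 i⟩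
  have hφ : Function.Injective φ0 := by
    rintro ⟨k, o⟩ ⟨l, o'⟩ h
    have h' := Subtype.ext_iff.mp h
    cases o with
    | none =>
      cases o' with
      | none =>
        have : k = l := x.injective h'
        rw [this]
      | some j =>
        exfalso
        have h1 : x k = e l j := h'
        exact (he_mem l j).2 (h1 ▸ hxT k)
    | some i =>
      cases o' with
      | none =>
        exfalso
        have h1 : e k i = x l := h'
        exact (he_mem k i).2 (h1 ▸ hxT l)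
      | some j =>
        have h1 : e k i = e l j := h'
        by_cases hkl : k = l
        · subst hkl
          rw [he_inj k h1]
        · exfalso
          have hd := hB.2.2.2 (x k) (hxT k) (x l) (hxT l) (fun h => hkl (x.injective h))
          exact Set.disjoint_left.mp hd (he_mem k i) (h1 ▸ he_mem l j)
  let φ : Fin 3 × Option (Fin (s + 1)) ↪ coreSet (s + 3) G := ⟨φ0, hφ⟩
  refine Pool.Agent.H67.Rigid.not_frameworkGloballyRigid _ φ ?_ p hp hrig
  intro k v hv
  have hadj : G.Adj (x k) v.1 := hv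
  by_cases hvT : v.1 ∈ T
  · left
    obtain ⟨k', hk'⟩ := hxsurj v.1 hvT
    exact ⟨k', Subtype.ext hk'⟩
  · right
    have : v.1 ∈ Set.range (e k) := by
      rw [he_range k]; exact ⟨hadj, hvT⟩
    obtain ⟨i, hi⟩ := this
    exact ⟨i, Subtype.ext hi.symm⟩

/-! ### Planting a bad triangle -/

/-- The edges of the triangle on `x 0, x 1, x 2`. -/
noncomputable def triE (x : Fin 3 → Fin n) : Finset (Sym2 (Fin n)) :=
  univ.image (fun k : Fin 3 => s(x k, x (k + 1)))

/-- The edges from `x k` to the set `c k`. -/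
noncomputable def starE (x : Fin 3 → Fin n) (c : Fin 3 → Finset (Fin n)) :
    Finset (Sym2 (Fin n)) :=
  univ.biUnion (fun k : Fin 3 => (c k).image (fun y => s(x k, y)))

/-- The graph with the triangle and the stars added. -/
noncomputable def plant (G : SimpleGraph (Fin n)) (x : Fin 3 → Fin n)
    (c : Fin 3 → Finset (Fin n)) : SimpleGraph (Fin n) :=
  SimpleGraph.fromEdgeSet ((ef G ∪ (triE x ∪ starE x c) : Finset (Sym2 (Fin n))) :
    Set (Sym2 (Fin n)))

lemma f3a : ∀ k l : Fin 3, k = l + 1 → k + 1 = l → k = l := by decide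

lemma f3b : ∀ i j : Fin 3, i ≠ j → j = i + 1 ∨ i = j + 1 := by decide

lemma f3c : ∀ j : Fin 3, j ≠ j + 1 := by decide

lemma triE_card (x : Fin 3 → Fin n) (hx : Function.Injective x) : (triE x).card = 3 := by
  unfold triE
  rw [card_image_of_injective]
  · simp
  · intro k l h
    simp only [Sym2.eq_iff] at h
    rcases h with ⟨h1, _⟩ | ⟨h1, h2⟩
    · exact hx h1
    · exact f3a k l (hx h1) (hx h2)

lemma starE_card (x : Fin 3 → Fin n) (hx : Function.Injective x) (c : Fin 3 → Finset (Fin n))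
    (hc : ∀ k l, x k ∉ c l) (r : ℕ) (hr : ∀ k, (c k).card = r) : (starE x c).card = 3 * r := by
  unfold starE
  rw [card_biUnion]
  · have : ∀ k ∈ (univ : Finset (Fin 3)), ((c k).image (fun y => s(x k, y))).card = r := by
      intro k _
      rw [card_image_of_injOn, hr k]
      intro y _ z _ h
      simp only [Sym2.eq_iff] at h
      rcases h with ⟨_, h⟩ | ⟨h1, h2⟩
      · exact h
      · exact h2.trans h1
    rw [sum_congr rfl this]
    simp
  · intro k _ l _ hkl
    simp only [Function.onFun]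
    rw [Finset.disjoint_left]
    intro e he he'
    simp only [mem_image] at he he'
    obtain ⟨y, hy, rfl⟩ := he
    obtain ⟨z, hz, h⟩ := he'
    simp only [Sym2.eq_iff] at h
    rcases h with ⟨h, _⟩ | ⟨h1, h2⟩
    · exact hkl (hx h).symm
    · exact hc l k (h1 ▸ hy)

lemma tri_star_disjoint (x : Fin 3 → Fin n) (c : Fin 3 → Finset (Fin n))
    (hc : ∀ k l, x k ∉ c l) : Disjoint (triE x) (starE x c) := by
  rw [Finset.disjoint_left]
  intro e he he'
  simp only [triE, starE, mem_image, mem_biUnion, mem_univ, true_and] at he he'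
  obtain ⟨k, rfl⟩ := he
  obtain ⟨l, y, hy, h⟩ := he'
  simp only [Sym2.eq_iff] at h
  rcases h with ⟨_, h⟩ | ⟨_, h⟩
  · exact hc _ l (h ▸ hy)
  · exact hc _ l (h ▸ hy)

/-- Membership in the new edges. -/
lemma mem_new (x : Fin 3 → Fin n) (c : Fin 3 → Finset (Fin n)) (u v : Fin n) :
    s(u, v) ∈ triE x ∪ starE x c ↔
      (∃ k, (u = x k ∧ v = x (k + 1)) ∨ (u = x (k + 1) ∧ v = x k)) ∨
      (∃ k, (u = x k ∧ v ∈ c k) ∨ (v = x k ∧ u ∈ c k)) := by
  simp only [triE, starE, mem_union, mem_image, mem_biUnion, mem_univ, true_and, Sym2.eq_iff]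
  constructor
  · rintro (⟨k, h⟩ | ⟨k, y, hy, h⟩)
    · left
      refine ⟨k, ?_⟩
      rcases h with ⟨h1, h2⟩ | ⟨h1, h2⟩
      · left; exact ⟨h1.symm, h2.symm⟩
      · right; exact ⟨h2.symm, h1.symm⟩
    · right
      refine ⟨k, ?_⟩
      rcases h with ⟨h1, h2⟩ | ⟨h1, h2⟩
      · left; exact ⟨h1.symm, h2 ▸ hy⟩
      · right; exact ⟨h1.symm, h2 ▸ hy⟩
  · rintro (⟨k, h⟩ | ⟨k, h⟩)
    · left
      refine ⟨k, ?_⟩
      rcases h with ⟨h1, h2⟩ | ⟨h1, h2⟩
      · left; exact ⟨h1.symm, h2.symm⟩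
      · right; exact ⟨h2.symm, h1.symm⟩
    · right
      rcases h with ⟨h1, h2⟩ | ⟨h1, h2⟩
      · exact ⟨k, v, h2, Or.inl ⟨h1.symm, rfl⟩⟩
      · exact ⟨k, u, h2, Or.inr ⟨h1.symm, rfl⟩⟩

/-- The hypotheses for planting. -/
structure Plantable (k r : ℕ) (T : Finset (Fin n)) (x : Fin 3 → Fin n)
    (G : SimpleGraph (Fin n)) (c : Fin 3 → Finset (Fin n)) : Prop where
  inj : Function.Injective x
  mem : ∀ i, x i ∈ T
  surj : ∀ v ∈ T, ∃ i, v = x i
  iso : ∀ u ∈ T, ∀ v, ¬ G.Adj u v
  sub : ∀ i, (c i : Set (Fin n)) ⊆ coreSet k G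
  card : ∀ i, (c i).card = r
  disj : ∀ i j, i ≠ j → Disjoint (c i) (c j)
  kpos : 0 < k

namespace Plantable

variable {k r : ℕ} {T : Finset (Fin n)} {x : Fin 3 → Fin n} {G : SimpleGraph (Fin n)}
  {c : Fin 3 → Finset (Fin n)}

lemma notMem (h : Plantable k r T x G c) (u : Fin n) (hu : u ∈ T) (l : Fin 3) : u ∉ c l := by
  intro hc
  have h1 := core_deg k G u (h.sub l hc)
  have h2 : G.neighborSet u ∩ coreSet k G = ∅ := by
    ext w
    simp only [Set.mem_inter_iff, SimpleGraph.mem_neighborSet, Set.mem_empty_iff_false, iff_false,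
      not_and]
    intro hw
    exact absurd hw (h.iso u hu w)
  rw [h2, Set.ncard_empty] at h1
  have := h.kpos
  omega

lemma adj_iff (_h : Plantable k r T x G c) (u v : Fin n) :
    (plant G x c).Adj u v ↔ G.Adj u v ∨ (u ≠ v ∧ s(u, v) ∈ triE x ∪ starE x c) := by
  unfold plant
  rw [SimpleGraph.fromEdgeSet_adj]
  simp only [mem_coe]
  rw [mem_union, mem_ef]
  simp only [SimpleGraph.mem_edgeSet]
  constructor
  · rintro ⟨h1 | h1, h2⟩
    · exact Or.inl h1
    · exact Or.inr ⟨h2, h1⟩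
  · rintro (h1 | ⟨h1, h2⟩)
    · exact ⟨Or.inl h1, h1.ne⟩
    · exact ⟨Or.inr h2, h1⟩

lemma adj_T (h : Plantable k r T x G c) (i : Fin 3) (v : Fin n) :
    (plant G x c).Adj (x i) v ↔ (v ∈ T ∧ v ≠ x i) ∨ v ∈ c i := by
  rw [h.adj_iff, mem_new]
  constructor
  · rintro (h1 | ⟨h1, h2 | h2⟩)
    · exact absurd h1 (h.iso _ (h.mem i) v)
    · obtain ⟨j, ⟨_, h3⟩ | ⟨_, h3⟩⟩ := h2
      · left; exact ⟨h3 ▸ h.mem _, Ne.symm h1⟩
      · left; exact ⟨h3 ▸ h.mem _, Ne.symm h1⟩
    · obtain ⟨j, ⟨h3, h4⟩ | ⟨h3, h4⟩⟩ := h2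
      · right
        rw [h.inj h3]; exact h4
      · exact absurd h4 (h.notMem _ (h.mem i) j)
  · rintro (⟨h1, h2⟩ | h1)
    · right
      refine ⟨Ne.symm h2, Or.inl ?_⟩
      obtain ⟨j, rfl⟩ := h.surj v h1
      have hij : i ≠ j := fun hh => h2 (hh ▸ rfl)
      rcases f3b i j hij with h3 | h3
      · exact ⟨i, Or.inl ⟨rfl, by rw [h3]⟩⟩
      · exact ⟨j, Or.inr ⟨by rw [h3], rfl⟩⟩
    · right
      refine ⟨?_, Or.inr ⟨i, Or.inl ⟨rfl, h1⟩⟩⟩
      rintro rfl
      exact h.notMem _ (h.mem i) i h1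

lemma del_plant (h : Plantable k r T x G c) : del T (plant G x c) = G := by
  ext u v
  rw [del_adj, h.adj_iff, mem_new]
  constructor
  · rintro ⟨h1 | ⟨h1, h2 | h2⟩, h3, h4⟩
    · exact h1
    · obtain ⟨j, ⟨h5, _⟩ | ⟨_, h5⟩⟩ := h2
      · exact absurd (h5 ▸ h.mem j) h3
      · exact absurd (h5 ▸ h.mem j) h4
    · obtain ⟨j, ⟨h5, _⟩ | ⟨h5, _⟩⟩ := h2
      · exact absurd (h5 ▸ h.mem j) h3
      · exact absurd (h5 ▸ h.mem j) h4
  · intro h1
    refine ⟨Or.inl h1, ?_, ?_⟩
    · intro hu; exact h.iso u hu v h1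
    · intro hv; exact h.iso v hv u h1.symm

lemma nbr_plant (h : Plantable k r T x G c) (i : Fin 3) :
    (plant G x c).neighborSet (x i) \ T = (c i : Set (Fin n)) := by
  ext v
  simp only [Set.mem_sdiff, SimpleGraph.mem_neighborSet, mem_coe]
  rw [h.adj_T]
  constructor
  · rintro ⟨⟨h1, _⟩ | h1, h2⟩
    · exact absurd h1 h2
    · exact h1
  · intro h1
    exact ⟨Or.inr h1, fun hv => h.notMem v hv i h1⟩

lemma bad_plant (h : Plantable k r T x G c) : Bad k r T (plant G x c) := by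
  refine ⟨?_, ?_, ?_, ?_⟩
  · intro u hu v hv huv
    obtain ⟨i, rfl⟩ := h.surj u hu
    rw [h.adj_T]
    exact Or.inl ⟨hv, huv.symm⟩
  · intro u hu
    obtain ⟨i, rfl⟩ := h.surj u hu
    rw [h.nbr_plant, Set.ncard_coe_finset, h.card]
  · intro u hu
    obtain ⟨i, rfl⟩ := h.surj u hu
    rw [h.nbr_plant, h.del_plant]
    exact h.sub i
  · intro u hu v hv huv
    obtain ⟨i, rfl⟩ := h.surj u hu
    obtain ⟨j, rfl⟩ := h.surj v hv
    rw [h.nbr_plant, h.nbr_plant]
    have hij : i ≠ j := fun hh => huv (hh ▸ rfl)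
    exact Finset.disjoint_coe.mpr (h.disj i j hij)

lemma ef_plant (h : Plantable k r T x G c) :
    ef (plant G x c) = ef G ∪ (triE x ∪ starE x c) := by
  unfold plant
  apply ef_fromEdgeSet
  apply union_subset (ef_subset G)
  intro e he
  induction e using Sym2.ind with
  | _ u v =>
    rw [mem_new] at he
    simp only [allE, mem_filter, mem_univ, true_and, Sym2.mk_isDiag_iff]
    rintro rfl
    rcases he with ⟨j, ⟨h1, h2⟩ | ⟨h1, h2⟩⟩ | ⟨j, ⟨h1, h2⟩ | ⟨h1, h2⟩⟩
    · exact f3c j (h.inj (h1.symm.trans h2))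
    · exact f3c j (h.inj (h2.symm.trans h1))
    · exact h.notMem u (h1 ▸ h.mem j) j h2
    · exact h.notMem u (h1 ▸ h.mem j) j h2

lemma card_ef_plant (h : Plantable k r T x G c) :
    (ef (plant G x c)).card = (ef G).card + 3 * (r + 1) := by
  rw [h.ef_plant, card_union_of_disjoint, card_union_of_disjoint, triE_card x h.inj,
    starE_card x h.inj c (fun i l => h.notMem _ (h.mem i) l) r h.card]
  · ring
  · exact tri_star_disjoint x c (fun i l => h.notMem _ (h.mem i) l)
  · rw [Finset.disjoint_left]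
    intro e he he'
    induction e using Sym2.ind with
    | _ u v =>
      rw [mem_ef, SimpleGraph.mem_edgeSet] at he
      rw [mem_new] at he'
      rcases he' with ⟨j, ⟨h1, h2⟩ | ⟨h1, h2⟩⟩ | ⟨j, ⟨h1, h2⟩ | ⟨h1, h2⟩⟩
      · exact h.iso u (h1 ▸ h.mem j) v he
      · exact h.iso u (h1 ▸ h.mem _) v he
      · exact h.iso u (h1 ▸ h.mem j) v he
      · exact h.iso v (h1 ▸ h.mem j) u he.symm

lemma wt_plant (h : Plantable k r T x G c) {p : ℝ} (h0 : 0 ≤ p) (h1 : p ≤ 1) :
    p ^ (3 * (r + 1)) * wt n p G ≤ wt n p (plant G x c) := by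
  rw [wt_eq, wt_eq, h.card_ef_plant]
  have hle : (1 - p) ^ ((allE n).card - (ef G).card) ≤
      (1 - p) ^ ((allE n).card - ((ef G).card + 3 * (r + 1))) := by
    apply pow_le_pow_of_le_one (by linarith) (by linarith)
    omega
  have hp : 0 ≤ p ^ ((ef G).card + 3 * (r + 1)) := by positivity
  calc p ^ (3 * (r + 1)) * (p ^ (ef G).card * (1 - p) ^ ((allE n).card - (ef G).card))
      = p ^ ((ef G).card + 3 * (r + 1)) * (1 - p) ^ ((allE n).card - (ef G).card) := by
        rw [pow_add]; ring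
    _ ≤ _ := mul_le_mul_of_nonneg_left hle hp

end Plantable

/-- Splitting off three disjoint subsets. -/
lemma exists_parts (m : ℕ) (S : Finset (Fin n)) (hS : 3 * m ≤ S.card) :
    ∃ part : Fin 3 → Finset (Fin n), (∀ i, part i ⊆ S ∧ (part i).card = m) ∧
      ∀ i j, i ≠ j → Disjoint (part i) (part j) := by
  obtain ⟨A, hA, hAc⟩ := exists_subset_card_eq (s := S) (n := m) (by omega)
  have h1 : (S \ A).card = S.card - m := by rw [card_sdiff_of_subset hA, hAc]
  obtain ⟨B, hB, hBc⟩ := exists_subset_card_eq (s := S \ A) (n := m) (by omega)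
  have h2 : ((S \ A) \ B).card = S.card - m - m := by rw [card_sdiff_of_subset hB, hBc, h1]
  obtain ⟨C, hC, hCc⟩ := exists_subset_card_eq (s := (S \ A) \ B) (n := m) (by omega)
  have dAB : Disjoint A B := disjoint_of_subset_right hB disjoint_sdiff
  have dBC : Disjoint B C := disjoint_of_subset_right hC disjoint_sdiff
  have dAC : Disjoint A C :=
    disjoint_of_subset_right (hC.trans sdiff_subset) disjoint_sdiff
  refine ⟨![A, B, C], ?_, ?_⟩
  · intro i
    fin_cases i
    · exact ⟨hA, hAc⟩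
    · exact ⟨hB.trans sdiff_subset, hBc⟩
    · exact ⟨(hC.trans sdiff_subset).trans sdiff_subset, hCc⟩
  · intro i j hij
    fin_cases i <;> fin_cases j <;> first | exact absurd rfl hij | skip
    · exact dAB
    · exact dAC
    · exact dAB.symm
    · exact dBC
    · exact dAC.symm
    · exact dBC.symm

/-- Lower bound for the probability of a bad triple. -/
lemma prob_bad_ge {p : ℝ} (h0 : 0 ≤ p) (h1 : p ≤ 1) (k r m : ℕ) (hk : 0 < k)
    (T : Finset (Fin n)) (hT : T.card = 3) :
    p ^ (3 * (r + 1)) * ((m.choose r) ^ 3 : ℕ) *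
      Prob n p (fun G => (∀ u ∈ T, ∀ v, ¬ G.Adj u v) ∧ 3 * m ≤ (coreSet k G).ncard) ≤
      Prob n p (Bad k r T) := by
  let x : Fin 3 → Fin n := T.orderEmbOfFin hT
  have hxinj : Function.Injective x := RelEmbedding.injective _
  have hxmem : ∀ i, x i ∈ T := fun i => T.orderEmbOfFin_mem hT i
  have hxsurj : ∀ v ∈ T, ∃ i, v = x i := by
    intro v hv
    have : v ∈ Set.range (T.orderEmbOfFin hT) := by
      rw [T.range_orderEmbOfFin hT]; exact hv
    obtain ⟨k, hk⟩ := this
    exact ⟨k, hk.symm⟩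
  let 𝒟 : Finset (SimpleGraph (Fin n)) := univ.filter
    (fun G => (∀ u ∈ T, ∀ v, ¬ G.Adj u v) ∧ 3 * m ≤ (coreSet k G).ncard)
  have hparts : ∀ G : SimpleGraph (Fin n), ∃ part : Fin 3 → Finset (Fin n), G ∈ 𝒟 →
      ((∀ i, (part i : Set (Fin n)) ⊆ coreSet k G ∧ (part i).card = m) ∧
      ∀ i j, i ≠ j → Disjoint (part i) (part j)) := by
    intro G
    by_cases hG : G ∈ 𝒟
    · simp only [𝒟, mem_filter, mem_univ, true_and] at hG
      have hc : 3 * m ≤ (coreSet k G).toFinset.card := by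
        rw [← Set.ncard_eq_toFinset_card']; exact hG.2
      obtain ⟨part, hp1, hp2⟩ := exists_parts m (coreSet k G).toFinset hc
      refine ⟨part, fun _ => ⟨fun i => ⟨?_, (hp1 i).2⟩, hp2⟩⟩
      intro v hv
      have := (hp1 i).1 hv
      simpa using this
    · exact ⟨fun _ => ∅, fun h => absurd h hG⟩
  choose part hpart using hparts
  let 𝒞 : SimpleGraph (Fin n) → Finset (Fin 3 → Finset (Fin n)) := fun G =>
    Fintype.piFinset (fun i => powersetCard r (part G i))
  have hplant : ∀ G ∈ 𝒟, ∀ c ∈ 𝒞 G, Plantable k r T x G c := by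
    intro G hG c hc
    obtain ⟨hp1, hp2⟩ := hpart G hG
    simp only [𝒟, mem_filter, mem_univ, true_and] at hG
    simp only [𝒞, Fintype.mem_piFinset, mem_powersetCard] at hc
    refine ⟨hxinj, hxmem, hxsurj, hG.1, ?_, fun i => (hc i).2, ?_, hk⟩
    · intro i v hv
      exact (hp1 i).1 ((hc i).1 hv)
    · intro i j hij
      exact disjoint_of_subset_left (hc i).1 (disjoint_of_subset_right (hc j).1 (hp2 i j hij))
  have hcardC : ∀ G ∈ 𝒟, (𝒞 G).card = (m.choose r) ^ 3 := by
    intro G hG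
    simp only [𝒞, Fintype.card_piFinset, card_powersetCard]
    rw [Finset.prod_congr rfl (fun i _ => by rw [((hpart G hG).1 i).2])]
    simp
  let 𝒮 : Finset ((_ : SimpleGraph (Fin n)) × (Fin 3 → Finset (Fin n))) := 𝒟.sigma 𝒞
  have hinj : Set.InjOn (fun y : (_ : SimpleGraph (Fin n)) × (Fin 3 → Finset (Fin n)) =>
      plant y.1 x y.2) 𝒮 := by
    rintro ⟨G, c⟩ hy ⟨G', c'⟩ hy' h
    simp only [𝒮, mem_coe, mem_sigma] at hy hy'
    have hP := hplant G hy.1 c hy.2
    have hP' := hplant G' hy'.1 c' hy'.2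
    simp only at h
    have e1 : G = G' := by rw [← hP.del_plant, ← hP'.del_plant, h]
    subst e1
    have e2 : c = c' := by
      funext i
      apply Finset.coe_injective
      rw [← hP.nbr_plant i, ← hP'.nbr_plant i, h]
    rw [e2]
  have hbad : ∀ y ∈ 𝒮, plant y.1 x y.2 ∈
      (univ : Finset (SimpleGraph (Fin n))).filter (Bad k r T) := by
    intro y hy
    simp only [𝒮, mem_sigma] at hy
    simp only [mem_filter, mem_univ, true_and]
    exact (hplant y.1 hy.1 y.2 hy.2).bad_plant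
  calc p ^ (3 * (r + 1)) * ((m.choose r) ^ 3 : ℕ) *
      Prob n p (fun G => (∀ u ∈ T, ∀ v, ¬ G.Adj u v) ∧ 3 * m ≤ (coreSet k G).ncard)
      = ∑ G ∈ 𝒟, ((m.choose r) ^ 3 : ℕ) * (p ^ (3 * (r + 1)) * wt n p G) := by
        rw [Prob_eq, mul_sum]
        apply sum_congr
        · simp only [𝒟]
        · intro G _
          ring
    _ = ∑ G ∈ 𝒟, ∑ c ∈ 𝒞 G, p ^ (3 * (r + 1)) * wt n p G := by
        apply sum_congr rfl
        intro G hG
        rw [sum_const, hcardC G hG, nsmul_eq_mul]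
    _ = ∑ y ∈ 𝒮, p ^ (3 * (r + 1)) * wt n p y.1 := by
        simp only [𝒮]
        rw [sum_sigma]
    _ ≤ ∑ y ∈ 𝒮, wt n p (plant y.1 x y.2) := by
        apply sum_le_sum
        intro y hy
        simp only [𝒮, mem_sigma] at hy
        exact (hplant y.1 hy.1 y.2 hy.2).wt_plant h0 h1
    _ = ∑ G ∈ 𝒮.image (fun y => plant y.1 x y.2), wt n p G := by
        rw [sum_image hinj]
    _ ≤ ∑ G ∈ (univ : Finset (SimpleGraph (Fin n))).filter (Bad k r T), wt n p G := by
        apply sum_le_sum_of_subset_of_nonneg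
        · intro G hG
          simp only [mem_image] at hG
          obtain ⟨y, hy, rfl⟩ := hG
          exact hbad y hy
        · intro G _ _
          exact wt_nonneg h0 h1 G
    _ = Prob n p (Bad k r T) := by rw [Prob_eq]

end Pool.Agent.H67.Triangle
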