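import Mathlib
import Pool.Agent.H67.Triangle

/-!
With probability bounded away from `0` the core of a sparse random graph is not globally rigid.
-/

namespace Pool.Agent.H67.CoreRigid

open Pool.Agent.H67.RigidDefs Pool.Agent.H67.RandGraph Pool.Agent.H67.Triangle Finset Filter
open scoped Classical

variable {n : ℕ}

/-- All possible edges meeting `T`. -/
noncomputable def incE (T : Finset (Fin n)) : Finset (Sym2 (Fin n)) :=
  (allE n).filter (fun e => ∃ u ∈ T, u ∈ e)

lemma incE_card_le (T : Finset (Fin n)) : (incE T).card ≤ T.card * n := by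
  have h : incE T ⊆ T.biUnion (fun u => (univ : Finset (Fin n)).image (fun v => s(u, v))) := by
    intro e he
    simp only [incE, mem_filter] at he
    obtain ⟨_, u, hu, hue⟩ := he
    simp only [mem_biUnion, mem_image, mem_univ, true_and]
    obtain ⟨v, rfl⟩ := Sym2.mem_iff_exists.mp hue
    exact ⟨u, hu, v, rfl⟩
  refine (card_le_card h).trans (card_biUnion_le.trans ?_)
  calc ∑ u ∈ T, ((univ : Finset (Fin n)).image (fun v => s(u, v))).card ≤ ∑ _u ∈ T, n := by
        apply sum_le_sum
        intro u _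
        exact card_image_le.trans (by simp)
    _ = T.card * n := by simp

lemma iso_iff (T : Finset (Fin n)) (G : SimpleGraph (Fin n)) :
    (∀ u ∈ T, ∀ v, ¬ G.Adj u v) ↔ Disjoint (ef G) (incE T) := by
  constructor
  · intro h
    rw [Finset.disjoint_left]
    intro e he he'
    simp only [incE, mem_filter] at he'
    obtain ⟨_, u, hu, hue⟩ := he'
    obtain ⟨v, rfl⟩ := Sym2.mem_iff_exists.mp hue
    rw [mem_ef, SimpleGraph.mem_edgeSet] at he
    exact h u hu v he
  · intro h u hu v hadj
    have h1 : s(u, v) ∈ ef G := by rw [mem_ef, SimpleGraph.mem_edgeSet]; exact hadj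
    have h2 : s(u, v) ∈ incE T := by
      simp only [incE, mem_filter]
      refine ⟨ef_subset G h1, u, hu, ?_⟩
      simp
    exact Finset.disjoint_left.mp h h1 h2

lemma prob_iso_ge {p : ℝ} (h0 : 0 ≤ p) (h1 : p ≤ 1) (T : Finset (Fin n)) (hT : T.card = 3) :
    (1 - p) ^ (3 * n) ≤ Prob n p (fun G => ∀ u ∈ T, ∀ v, ¬ G.Adj u v) := by
  rw [prob_congr (F := fun G => Disjoint (ef G) (incE T)) (fun G => iso_iff T G),
    prob_avoids p (incE T) (filter_subset _ _)]
  apply pow_le_pow_of_le_one (by linarith) (by linarith)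
  rw [← hT]
  exact incE_card_le T

/-- The edges inside a triple. -/
noncomputable def tri (T : Finset (Fin n)) : Finset (Sym2 (Fin n)) :=
  (allE n).filter (fun e => ∀ u ∈ e, u ∈ T)

lemma tri_card_ge (T : Finset (Fin n)) (hT : T.card = 3) : 3 ≤ (tri T).card := by
  have hinj : Function.Injective (fun i => T.orderEmbOfFin hT i) := RelEmbedding.injective _
  have hmem : ∀ i, T.orderEmbOfFin hT i ∈ T := fun i => T.orderEmbOfFin_mem hT i
  rw [← triE_card (fun i => T.orderEmbOfFin hT i) hinj]
  apply card_le_card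
  intro e he
  simp only [triE, mem_image, mem_univ, true_and] at he
  obtain ⟨k, rfl⟩ := he
  simp only [tri, allE, mem_filter, mem_univ, true_and, Sym2.mk_isDiag_iff]
  constructor
  · intro h
    exact f3c k (hinj h)
  · intro u hu
    rw [Sym2.mem_iff] at hu
    rcases hu with rfl | rfl
    · exact hmem _
    · exact hmem _

lemma tri_subset_of_bad {k r : ℕ} {T : Finset (Fin n)} {G : SimpleGraph (Fin n)}
    (h : Bad k r T G) : tri T ⊆ ef G := by
  intro e he
  induction e using Sym2.ind with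
  | _ u v =>
    simp only [tri, allE, mem_filter, mem_univ, true_and, Sym2.mk_isDiag_iff] at he
    rw [mem_ef, SimpleGraph.mem_edgeSet]
    exact h.1 u (he.2 u (by simp)) v (he.2 v (by simp)) he.1

lemma tri_disjoint {T T' : Finset (Fin n)} (h : Disjoint T T') : Disjoint (tri T) (tri T') := by
  rw [Finset.disjoint_left]
  intro e he he'
  simp only [tri, mem_filter] at he he'
  induction e using Sym2.ind with
  | _ u v =>
    exact Finset.disjoint_left.mp h (he.2 u (by simp)) (he'.2 u (by simp))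

lemma pow_card_le {p : ℝ} (h0 : 0 ≤ p) (h1 : p ≤ 1) {a b : ℕ} (h : a ≤ b) : p ^ b ≤ p ^ a :=
  pow_le_pow_of_le_one h0 h1 h

lemma prob_bad_le {p : ℝ} (h0 : 0 ≤ p) (h1 : p ≤ 1) (k r : ℕ) (T : Finset (Fin n))
    (hT : T.card = 3) : Prob n p (Bad k r T) ≤ p ^ 3 := by
  calc Prob n p (Bad k r T) ≤ Prob n p (fun G => tri T ⊆ ef G) :=
        prob_mono h0 h1 (fun G h => tri_subset_of_bad h)
    _ = p ^ (tri T).card := prob_contains p _ (filter_subset _ _)
    _ ≤ p ^ 3 := pow_card_le h0 h1 (tri_card_ge T hT)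

lemma prob_bad_pair_le {p : ℝ} (h0 : 0 ≤ p) (h1 : p ≤ 1) (r : ℕ) (T T' : Finset (Fin n))
    (hT : T.card = 3) (hT' : T'.card = 3) (hne : T ≠ T') :
    Prob n p (fun G => Bad (r + 2) r T G ∧ Bad (r + 2) r T' G) ≤ p ^ 6 := by
  by_cases hd : Disjoint T T'
  · calc Prob n p (fun G => Bad (r + 2) r T G ∧ Bad (r + 2) r T' G)
        ≤ Prob n p (fun G => tri T ∪ tri T' ⊆ ef G) :=
          prob_mono h0 h1 (fun G h => union_subset (tri_subset_of_bad h.1)
            (tri_subset_of_bad h.2))
      _ = p ^ (tri T ∪ tri T').card :=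
          prob_contains p _ (union_subset (filter_subset _ _) (filter_subset _ _))
      _ ≤ p ^ 6 := by
          apply pow_card_le h0 h1
          rw [card_union_of_disjoint (tri_disjoint hd)]
          have := tri_card_ge T hT
          have := tri_card_ge T' hT'
          omega
  · have : Prob n p (fun G => Bad (r + 2) r T G ∧ Bad (r + 2) r T' G) = 0 := by
      rw [Prob_eq]
      have he : (univ : Finset (SimpleGraph (Fin n))).filter
          (fun G => Bad (r + 2) r T G ∧ Bad (r + 2) r T' G) = ∅ := by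
        apply filter_eq_empty_iff.mpr
        intro G _ h
        exact hd (bad_disjoint G hT hT' h.1 h.2 hne)
      rw [he, sum_empty]
    rw [this]
    positivity

/-- Second moment bound. -/
lemma second_moment_le {p : ℝ} (h0 : 0 ≤ p) (h1 : p ≤ 1) (r : ℕ) :
    ∑ T ∈ powersetCard 3 (univ : Finset (Fin n)), ∑ T' ∈ powersetCard 3 (univ : Finset (Fin n)),
      Prob n p (fun G => Bad (r + 2) r T G ∧ Bad (r + 2) r T' G) ≤
      (n * p) ^ 3 + (n * p) ^ 6 := by
  have hcard : ((powersetCard 3 (univ : Finset (Fin n))).card : ℝ) ≤ (n : ℝ) ^ 3 := by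
    rw [card_powersetCard, card_univ, Fintype.card_fin]
    exact_mod_cast Nat.choose_le_pow n 3
  calc ∑ T ∈ powersetCard 3 (univ : Finset (Fin n)),
        ∑ T' ∈ powersetCard 3 (univ : Finset (Fin n)),
          Prob n p (fun G => Bad (r + 2) r T G ∧ Bad (r + 2) r T' G)
      ≤ ∑ T ∈ powersetCard 3 (univ : Finset (Fin n)),
        ∑ T' ∈ powersetCard 3 (univ : Finset (Fin n)), ((if T = T' then p ^ 3 else 0) + p ^ 6) := by
        apply sum_le_sum
        intro T hT
        apply sum_le_sum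
        intro T' hT'
        rw [mem_powersetCard] at hT hT'
        by_cases hne : T = T'
        · subst hne
          rw [if_pos rfl]
          have e1 : Prob n p (fun G => Bad (r + 2) r T G ∧ Bad (r + 2) r T G) ≤ p ^ 3 := by
            refine le_trans (prob_mono h0 h1 (fun G h => h.1)) (prob_bad_le h0 h1 (r + 2) r T hT.2)
          have : 0 ≤ p ^ 6 := by positivity
          linarith
        · rw [if_neg hne, zero_add]
          exact prob_bad_pair_le h0 h1 r T T' hT.2 hT'.2 hne
    _ = (powersetCard 3 (univ : Finset (Fin n))).card * p ^ 3 +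
        (powersetCard 3 (univ : Finset (Fin n))).card *
          ((powersetCard 3 (univ : Finset (Fin n))).card * p ^ 6) := by
        simp only [sum_add_distrib, sum_const, nsmul_eq_mul]
        congr 1
        have : ∀ T ∈ powersetCard 3 (univ : Finset (Fin n)),
            ∑ T' ∈ powersetCard 3 (univ : Finset (Fin n)), (if T = T' then p ^ 3 else 0) =
              p ^ 3 := by
          intro T hT
          rw [sum_ite_eq, if_pos hT]
        rw [sum_congr rfl this, sum_const, nsmul_eq_mul]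
    _ ≤ (n : ℝ) ^ 3 * p ^ 3 + (n : ℝ) ^ 3 * ((n : ℝ) ^ 3 * p ^ 6) := by
        gcongr
    _ = (n * p) ^ 3 + (n * p) ^ 6 := by ring

lemma one_sub_ge_exp {p : ℝ} (h0 : 0 ≤ p) (h1 : p ≤ 1 / 2) : Real.exp (-(2 * p)) ≤ 1 - p := by
  have h2 : 0 < 1 - p := by linarith
  have h3 := Real.add_one_le_exp (p / (1 - p))
  have h4 : p / (1 - p) + 1 = 1 / (1 - p) := by field_simp; ring
  rw [h4] at h3
  have h5 : p / (1 - p) ≤ 2 * p := by
    rw [div_le_iff₀ h2]
    nlinarith
  have h6 : 1 / (1 - p) ≤ Real.exp (2 * p) := h3.trans (Real.exp_le_exp.mpr h5)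
  rw [Real.exp_neg, inv_le_comm₀ (Real.exp_pos _) h2]
  rw [one_div] at h6
  exact h6

/-- The main probabilistic estimate. -/
theorem main (s : ℕ) (c : ℝ) (hc : 0 < c) (ε : ℝ) (hε : 0 < ε) :
    ∃ δ : ℝ, 0 < δ ∧ ∀ᶠ n : ℕ in atTop,
      Prob n (c / n) (fun G => ε * n ≤ (coreSet (s + 3) G).ncard ∧
        GloballyRigid (s + 2) (G.induce (coreSet (s + 3) G))) ≤ 1 - δ := by
  set r := s + 1 with hr
  set η : ℝ := Real.exp (-(6 * c)) with hη
  have hηpos : 0 < η := Real.exp_pos _
  set κ : ℝ := (1 / 48) * (c ^ (3 * (r + 1)) * (((ε / 6) ^ r / r.factorial) ^ 3) * (η / 2)) with hκ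
  have hκpos : 0 < κ := by positivity
  have hden : 0 < c ^ 3 + c ^ 6 := by positivity
  refine ⟨min (η / 2) (κ ^ 2 / (c ^ 3 + c ^ 6)), by positivity, ?_⟩
  have hlarge : ∀ᶠ n : ℕ in atTop, 4 ≤ n ∧ 2 * c ≤ n ∧ 6 * (r : ℝ) ≤ ε * n := by
    have t1 : ∀ᶠ n : ℕ in atTop, 4 ≤ n := eventually_ge_atTop 4
    have t2 : ∀ᶠ n : ℕ in atTop, 2 * c ≤ n := by
      have := tendsto_natCast_atTop_atTop (R := ℝ)
      exact this.eventually_ge_atTop (2 * c)
    have t3 : ∀ᶠ n : ℕ in atTop, 6 * (r : ℝ) / ε ≤ n := by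
      have := tendsto_natCast_atTop_atTop (R := ℝ)
      exact this.eventually_ge_atTop (6 * (r : ℝ) / ε)
    filter_upwards [t1, t2, t3] with n h1 h2 h3
    refine ⟨h1, h2, ?_⟩
    rw [div_le_iff₀ hε] at h3
    linarith
  filter_upwards [hlarge] with n hn
  obtain ⟨hn4, hnc, hnr⟩ := hn
  have hnpos : (0 : ℝ) < n := by
    have : (4 : ℝ) ≤ n := by exact_mod_cast hn4
    linarith
  set p : ℝ := c / n with hp
  have hp0 : 0 ≤ p := by positivity
  have hp12 : p ≤ 1 / 2 := by
    rw [hp, div_le_iff₀ hnpos]; linarith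
  have hp1 : p ≤ 1 := by linarith
  have hnp : (n : ℝ) * p = c := by rw [hp]; field_simp
  -- small core event
  by_cases hsmall : η / 2 ≤ Prob n p (fun G => ¬ (ε * n ≤ (coreSet (s + 3) G).ncard))
  · have h1 := prob_add_not (n := n) p (fun G => ε * n ≤ (coreSet (s + 3) G).ncard)
    have h2 : Prob n p (fun G => ε * n ≤ (coreSet (s + 3) G).ncard ∧
        GloballyRigid (s + 2) (G.induce (coreSet (s + 3) G))) ≤
        Prob n p (fun G => ε * n ≤ (coreSet (s + 3) G).ncard) :=
      prob_mono hp0 hp1 (fun G h => h.1)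
    have h3 := min_le_left (η / 2) (κ ^ 2 / (c ^ 3 + c ^ 6))
    linarith
  · rw [not_le] at hsmall
    set m : ℕ := ⌊ε * n / 3⌋₊ with hm
    have hm3 : (3 * m : ℝ) ≤ ε * n := by
      have := Nat.floor_le (a := ε * n / 3) (by positivity)
      rw [← hm] at this
      linarith
    have hmlow : ε * n / 6 ≤ ((m + 1 - r : ℕ) : ℝ) := by
      have h1 := Nat.lt_floor_add_one (ε * n / 3)
      rw [← hm] at h1
      have h2 : (r : ℝ) ≤ m + 1 := by
        have : (r : ℝ) ≤ ε * n / 3 := by nlinarith [Nat.cast_nonneg (α := ℝ) r]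
        linarith
      have h3 : r ≤ m + 1 := by exact_mod_cast h2
      rw [Nat.cast_sub h3]
      push_cast
      linarith
    -- first moment
    have hfirst : ∀ T ∈ powersetCard 3 (univ : Finset (Fin n)),
        p ^ (3 * (r + 1)) * (((ε * n / 6) ^ r / r.factorial) ^ 3) * (η / 2) ≤
          Prob n p (Bad (r + 2) r T) := by
      intro T hT
      rw [mem_powersetCard] at hT
      have h1 := prob_bad_ge hp0 hp1 (r + 2) r m (by omega) T hT.2
      refine le_trans ?_ h1
      have h2 : ((ε * n / 6) ^ r / r.factorial) ^ 3 ≤ (((m.choose r) ^ 3 : ℕ) : ℝ) := by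
        push_cast
        apply pow_le_pow_left₀ (by positivity)
        refine le_trans ?_ (Nat.pow_le_choose (α := ℝ) r m)
        apply div_le_div_of_nonneg_right _ (by positivity)
        exact pow_le_pow_left₀ (by positivity) hmlow r
      have h3 : η / 2 ≤ Prob n p (fun G => (∀ u ∈ T, ∀ v, ¬ G.Adj u v) ∧
          3 * m ≤ (coreSet (r + 2) G).ncard) := by
        have h4 := prob_and_ge hp0 hp1 (n := n) (fun G => ∀ u ∈ T, ∀ v, ¬ G.Adj u v)
          (fun G => 3 * m ≤ (coreSet (r + 2) G).ncard)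
        have h5 := prob_iso_ge hp0 hp1 T hT.2
        have h6 : η ≤ (1 - p) ^ (3 * n) := by
          have e1 := one_sub_ge_exp hp0 hp12
          have e2 : Real.exp (-(2 * p)) ^ (3 * n) ≤ (1 - p) ^ (3 * n) :=
            pow_le_pow_left₀ (Real.exp_pos _).le e1 _
          rw [← Real.exp_nat_mul] at e2
          have e3 : ((3 * n : ℕ) : ℝ) * -(2 * p) = -(6 * c) := by
            push_cast
            rw [← hnp]; ring
          rw [e3] at e2
          exact e2
        have h7 : Prob n p (fun G => ¬ (3 * m ≤ (coreSet (r + 2) G).ncard)) ≤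
            Prob n p (fun G => ¬ (ε * n ≤ (coreSet (s + 3) G).ncard)) := by
          apply prob_mono hp0 hp1
          intro G hG hG'
          apply hG
          have : (3 * m : ℝ) ≤ (coreSet (s + 3) G).ncard := hm3.trans hG'
          exact_mod_cast this
        linarith
      have hpp : 0 ≤ p ^ (3 * (r + 1)) := by positivity
      apply mul_le_mul _ h3 (by positivity) (by positivity)
      exact mul_le_mul_of_nonneg_left h2 hpp
    have hEX : κ ≤ ∑ T ∈ powersetCard 3 (univ : Finset (Fin n)), Prob n p (Bad (r + 2) r T) := by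
      have h1 := card_nsmul_le_sum _ _ _ hfirst
      refine le_trans ?_ h1
      rw [card_powersetCard, card_univ, Fintype.card_fin, nsmul_eq_mul]
      have h2 : (n : ℝ) ^ 3 / 48 ≤ (n.choose 3 : ℝ) := by
        refine le_trans ?_ (Nat.pow_le_choose (α := ℝ) 3 n)
        have h3' : n + 1 - 3 = n - 2 := by omega
        have h3 : ((n - 2 : ℕ) : ℝ) = n - 2 := by
          rw [Nat.cast_sub (by omega)]
          push_cast; ring
        rw [h3', h3]
        have h4 : (n : ℝ) / 2 ≤ n - 2 := by
          have : (4 : ℝ) ≤ n := by exact_mod_cast hn4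
          linarith
        have h5 : ((n : ℝ) / 2) ^ 3 ≤ ((n : ℝ) - 2) ^ 3 :=
          pow_le_pow_left₀ (by positivity) h4 3
        have h6 : (Nat.factorial 3 : ℝ) = 6 := by norm_num [Nat.factorial]
        rw [h6]
        rw [le_div_iff₀ (by norm_num)]
        nlinarith
      have hκ' : κ = (n : ℝ) ^ 3 / 48 *
          (p ^ (3 * (r + 1)) * (((ε * n / 6) ^ r / r.factorial) ^ 3) * (η / 2)) := by
        rw [hκ, hp]
        have hf : (r.factorial : ℝ) ≠ 0 := by positivity
        have hn0 : (n : ℝ) ≠ 0 := hnpos.ne'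
        have e1 : (c / n) ^ (3 * (r + 1)) = c ^ (3 * (r + 1)) / n ^ (3 * (r + 1)) := by
          rw [div_pow]
        have e2 : (ε * n / 6) ^ r = (ε / 6) ^ r * (n : ℝ) ^ r := by
          rw [← mul_pow]; congr 1; ring
        rw [e1, e2]
        have e3 : (n : ℝ) ^ (3 * (r + 1)) = n ^ 3 * (n ^ r) ^ 3 := by
          rw [← pow_mul, ← pow_add]; congr 1; ring
        rw [e3]
        have e4 : ((n : ℝ) ^ r) ≠ 0 := pow_ne_zero _ hn0
        field_simp
      rw [hκ']
      apply mul_le_mul_of_nonneg_right h2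
      positivity
    have hsm := second_moment hp0 hp1 (n := n) (powersetCard 3 (univ : Finset (Fin n)))
      (fun T => Bad (r + 2) r T)
    have hsm2 := second_moment_le hp0 hp1 (n := n) r
    rw [hnp] at hsm2
    have hPnn := prob_nonneg hp0 hp1 (n := n)
      (fun G => ∃ T ∈ powersetCard 3 (univ : Finset (Fin n)), Bad (r + 2) r T G)
    have hlow : κ ^ 2 / (c ^ 3 + c ^ 6) ≤ Prob n p
        (fun G => ∃ T ∈ powersetCard 3 (univ : Finset (Fin n)), Bad (r + 2) r T G) := by
      rw [div_le_iff₀ hden]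
      have h1 : κ ^ 2 ≤ (∑ T ∈ powersetCard 3 (univ : Finset (Fin n)),
          Prob n p (Bad (r + 2) r T)) ^ 2 := pow_le_pow_left₀ hκpos.le hEX 2
      have h2 := mul_le_mul_of_nonneg_right hsm2 hPnn
      linarith
    have h1 := prob_add_not (n := n) p
      (fun G => ∃ T ∈ powersetCard 3 (univ : Finset (Fin n)), Bad (r + 2) r T G)
    have h2 : Prob n p (fun G => ε * n ≤ (coreSet (s + 3) G).ncard ∧
        GloballyRigid (s + 2) (G.induce (coreSet (s + 3) G))) ≤
        Prob n p (fun G => ¬ ∃ T ∈ powersetCard 3 (univ : Finset (Fin n)),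
          Bad (r + 2) r T G) := by
      apply prob_mono hp0 hp1
      rintro G ⟨_, hG⟩ ⟨T, hT, hB⟩
      rw [mem_powersetCard] at hT
      exact bad_not_rigid G hT.2 hB hG
    have h3 := min_le_right (η / 2) (κ ^ 2 / (c ^ 3 + c ^ 6))
    linarith

end Pool.Agent.H67.CoreRigid
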