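import Mathlib

set_option autoImplicit false

namespace Pool.Agent.H67.Facet

/-- Euclidean `n`-space. -/
abbrev Euc (n : ℕ) : Type := EuclideanSpace ℝ (Fin n)

/-- `L` is a lattice of rank `n` in Euclidean `n`-space. -/
def IsLattice {n : ℕ} (L : Submodule ℤ (Euc n)) : Prop :=
  DiscreteTopology L ∧ Submodule.span ℝ (L : Set (Euc n)) = ⊤

/-- The points lying in both Voronoi cells `V(0)` and `V(v)`. -/
def cellMeet {n : ℕ} (L : Submodule ℤ (Euc n)) (v : Euc n) : Set (Euc n) :=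
  {x | ∀ w ∈ L, ‖x‖ ≤ ‖x - w‖ ∧ ‖x - v‖ ≤ ‖x - w‖}

/-- `v` is a facet vector: it is nonzero and `V(0)` and `V(v)` meet in a set of affine
dimension `n - 1`. -/
def IsFacetVector {n : ℕ} (L : Submodule ℤ (Euc n)) (v : Euc n) : Prop :=
  v ≠ 0 ∧ Module.finrank ℝ (affineSpan ℝ (cellMeet L v)).direction = n - 1

end Pool.Agent.H67.Facet
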