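import Mathlib

set_option autoImplicit false

namespace Pool.Agent.H67.Mink

open Module

section content

variable {M : Type} [AddCommGroup M] {n : ℕ}

/-- The greatest common divisor of the coordinates of `x` of index at least `j`. -/
noncomputable def cont (b : Basis (Fin n) ℤ M) (j : ℕ) (x : M) : ℤ :=
  (Finset.univ.filter (fun i : Fin n => j ≤ (i : ℕ))).gcd (fun i => b.repr x i)

variable (b : Basis (Fin n) ℤ M)

theorem cont_dvd (j : ℕ) (x : M) (i : Fin n) (h : j ≤ (i : ℕ)) : cont b j x ∣ b.repr x i :=
  Finset.gcd_dvd (by simp [h])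

theorem dvd_cont (j : ℕ) (x : M) (c : ℤ) (h : ∀ i : Fin n, j ≤ (i : ℕ) → c ∣ b.repr x i) :
    c ∣ cont b j x :=
  Finset.dvd_gcd (by intro i hi; exact h i (by simpa using hi))

theorem cont_nonneg (j : ℕ) (x : M) : 0 ≤ cont b j x := by
  have h : normalize (cont b j x) = cont b j x := Finset.normalize_gcd
  exact Int.nonneg_of_normalize_eq_self h

theorem cont_eq_zero (j : ℕ) (x : M) (h : cont b j x = 0) (i : Fin n) (hi : j ≤ (i : ℕ)) :
    b.repr x i = 0 := by
  have := cont_dvd b j x i hi
  rw [h] at this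
  exact zero_dvd_iff.mp this

theorem cont_eq_of_zero (j : ℕ) (x : M) (h : ∀ i : Fin n, j ≤ (i : ℕ) → b.repr x i = 0) :
    cont b j x = 0 := by
  unfold cont
  rw [Finset.gcd_eq_zero_iff]
  intro i hi
  exact h i (by simpa using hi)

theorem cont_mono_dvd {i j : ℕ} (hij : i ≤ j) (x : M) : cont b i x ∣ cont b j x :=
  dvd_cont b j x _ (fun m hm => cont_dvd b i x m (hij.trans hm))

/-- If a vector has content one above `j`, it can be the `j`-th vector of a basis with the same
first `j` members. -/
theorem completion (j : Fin n) (z : M) (h : cont b (j : ℕ) z = 1) :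
    ∃ b' : Basis (Fin n) ℤ M, (∀ i : Fin n, i < j → b' i = b i) ∧ b' j = z := by
  classical
  have hfin : Module.Finite ℤ M := Module.Finite.of_basis b
  have hj : (j : ℕ) + 1 ≤ n := j.2
  -- the first vectors
  set v : Fin ((j : ℕ) + 1) → M := fun i => if h : (i : ℕ) < j then b ⟨i, h.trans j.2⟩ else z
    with hv
  have hsum : ∀ c : Fin ((j : ℕ) + 1) → ℤ,
      ∑ i, c i • v i = (∑ i : Fin (j : ℕ), c i.castSucc • b ⟨i, i.2.trans j.2⟩)
        + c (Fin.last _) • z := by
    intro c
    rw [Fin.sum_univ_castSucc]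
    congr 1
    · apply Finset.sum_congr rfl
      intro i _
      simp [hv]
    · simp [hv]
  have hlow : ∀ (c : Fin (j : ℕ) → ℤ) (i : Fin n), (j : ℕ) ≤ (i : ℕ) →
      b.repr (∑ k : Fin (j : ℕ), c k • b ⟨k, k.2.trans j.2⟩) i = 0 := by
    intro c i hi
    rw [map_sum, Finsupp.finsetSum_apply]
    apply Finset.sum_eq_zero
    intro k _
    rw [map_smul, Finsupp.smul_apply, Basis.repr_self, Finsupp.single_apply, if_neg]
    · simp
    · intro hk
      have := congrArg Fin.val hk
      simp at this
      omega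
  have hlow2 : ∀ (c : Fin (j : ℕ) → ℤ) (i : Fin (j : ℕ)),
      b.repr (∑ k : Fin (j : ℕ), c k • b ⟨k, k.2.trans j.2⟩) ⟨i, i.2.trans j.2⟩ = c i := by
    intro c i
    rw [map_sum, Finsupp.finsetSum_apply, Finset.sum_eq_single i]
    · rw [map_smul, Finsupp.smul_apply, Basis.repr_self, Finsupp.single_apply, if_pos rfl]; simp
    · intro k _ hk
      rw [map_smul, Finsupp.smul_apply, Basis.repr_self, Finsupp.single_apply, if_neg]
      · simp
      · intro hki
        apply hk
        have := congrArg Fin.val hki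
        exact Fin.ext this
    · intro hi; exact absurd (Finset.mem_univ _) hi
  have hli : LinearIndependent ℤ v := by
    rw [Fintype.linearIndependent_iff]
    intro c hc
    rw [hsum c] at hc
    have hlast : c (Fin.last _) = 0 := by
      by_contra hne
      have : cont b (j : ℕ) z = 0 := by
        apply cont_eq_of_zero
        intro i hi
        have h1 := congrArg (fun y => b.repr y i) hc
        simp only [map_add, Finsupp.add_apply, hlow _ i hi, map_smul, Finsupp.smul_apply,
          map_zero, Finsupp.zero_apply, zero_add, smul_eq_mul] at h1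
        rcases mul_eq_zero.mp h1 with h2 | h2
        · exact absurd h2 hne
        · exact h2
      rw [this] at h
      exact absurd h (by norm_num)
    rw [hlast, zero_smul, add_zero] at hc
    intro i
    refine Fin.lastCases hlast (fun k => ?_) i
    have h1 := hlow2 (fun k => c k.castSucc) k
    rw [hc] at h1
    simpa using h1.symm
  set W : Submodule ℤ M := Submodule.span ℤ (Set.range v) with hW
  have hzW : z ∈ W := by
    have : v (Fin.last _) = z := by simp [hv]
    rw [← this]
    exact Submodule.subset_span ⟨_, rfl⟩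
  have hbW : ∀ i : Fin (j : ℕ), b ⟨i, i.2.trans j.2⟩ ∈ W := by
    intro i
    have : v i.castSucc = b ⟨i, i.2.trans j.2⟩ := by simp [hv]
    rw [← this]
    exact Submodule.subset_span ⟨_, rfl⟩
  have htf : Module.IsTorsionFree ℤ (M ⧸ W) := by
    rw [Module.isTorsionFree_iff_smul_eq_zero]
    intro r y hy
    by_cases hr : r = 0
    · exact Or.inl hr
    right
    obtain ⟨w, rfl⟩ := Submodule.Quotient.mk_surjective W y
    rw [← Submodule.Quotient.mk_smul, Submodule.Quotient.mk_eq_zero] at hy
    rw [Submodule.Quotient.mk_eq_zero]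
    obtain ⟨c, hc⟩ := (Submodule.mem_span_range_iff_exists_fun ℤ).mp hy
    rw [hsum c] at hc
    have hdiv : ∀ i : Fin n, (j : ℕ) ≤ (i : ℕ) →
        r * b.repr w i = c (Fin.last _) * b.repr z i := by
      intro i hi
      have h1 := congrArg (fun y => b.repr y i) hc
      simp only [map_add, Finsupp.add_apply, hlow _ i hi, map_smul, Finsupp.smul_apply,
        zero_add, smul_eq_mul] at h1
      exact h1.symm
    have hrc : r ∣ c (Fin.last _) := by
      have h1 : c (Fin.last _) * cont b (j : ℕ) z = c (Fin.last _) := by rw [h, mul_one]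
      have h2 : r ∣ normalize (c (Fin.last _)) * cont b (j : ℕ) z := by
        unfold cont
        rw [← Finset.gcd_mul_left]
        apply Finset.dvd_gcd
        intro i hi
        exact ⟨b.repr w i, (hdiv i (by simpa using hi)).symm⟩
      rw [h, mul_one] at h2
      exact (dvd_normalize_iff).mp h2
    obtain ⟨t, ht⟩ := hrc
    -- w - t z lies in the span of the first j vectors
    have hw0 : ∀ i : Fin n, (j : ℕ) ≤ (i : ℕ) → b.repr (w - t • z) i = 0 := by
      intro i hi
      have h1 := hdiv i hi
      rw [ht] at h1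
      have h2 : r * (b.repr w i - t * b.repr z i) = 0 := by rw [mul_sub, h1]; ring
      rcases mul_eq_zero.mp h2 with h3 | h3
      · exact absurd h3 hr
      · simpa using h3
    have hwW : w - t • z ∈ W := by
      rw [← b.sum_repr (w - t • z)]
      apply Submodule.sum_mem
      intro i _
      by_cases hi : (i : ℕ) < j
      · exact Submodule.smul_mem _ _ (hbW ⟨i, hi⟩)
      · rw [hw0 i (by omega), zero_smul]; exact Submodule.zero_mem _
    have : w = (w - t • z) + t • z := by abel
    rw [this]
    exact Submodule.add_mem _ hwW (Submodule.smul_mem _ _ hzW)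
  have hfree : Module.Free ℤ (M ⧸ W) := inferInstance
  let bW : Basis (Fin ((j : ℕ) + 1)) ℤ W := Basis.span hli
  let bQ : Basis (Fin (finrank ℤ (M ⧸ W))) ℤ (M ⧸ W) := Module.finBasis ℤ (M ⧸ W)
  let B := Module.Basis.sumQuot bW bQ
  have hcard : (j : ℕ) + 1 + finrank ℤ (M ⧸ W) = n := by
    have h1 := Module.finrank_eq_card_basis b
    have h2 := Module.finrank_eq_card_basis B
    rw [Fintype.card_sum, Fintype.card_fin, Fintype.card_fin] at h2
    rw [Fintype.card_fin] at h1
    omega
  let e : Fin ((j : ℕ) + 1) ⊕ Fin (finrank ℤ (M ⧸ W)) ≃ Fin n :=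
    finSumFinEquiv.trans (finCongr hcard)
  have he : ∀ i : Fin ((j : ℕ) + 1), e.symm ⟨i, lt_of_lt_of_le i.2 hj⟩ = Sum.inl i := by
    intro i
    rw [Equiv.symm_apply_eq]
    apply Fin.ext
    simp [e]
  have hBv : ∀ i : Fin ((j : ℕ) + 1), (B (Sum.inl i)) = v i := by
    intro i
    rw [Module.Basis.sumQuot_inl]
    change ((Basis.span hli i : W) : M) = v i
    rw [Basis.span_apply]
  refine ⟨B.reindex e, ?_, ?_⟩
  · intro i hi
    have hi' : (i : ℕ) < j := hi
    have h1 := he ⟨i, by omega⟩
    rw [Basis.reindex_apply]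
    have h2 : (⟨((⟨i, by omega⟩ : Fin ((j : ℕ) + 1)) : ℕ), by omega⟩ : Fin n) = i := rfl
    rw [h2] at h1
    rw [h1, hBv]
    simp only [hv]
    rw [dif_pos hi']
  · have h1 := he (Fin.last _)
    rw [Basis.reindex_apply]
    have h2 : (⟨((Fin.last (j : ℕ) : Fin ((j : ℕ) + 1)) : ℕ), by
        rw [Fin.val_last]; exact j.2⟩ : Fin n) = j := by
      apply Fin.ext; simp
    rw [h2] at h1
    rw [h1, hBv]
    simp [hv]

end content

end Pool.Agent.H67.Mink
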