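import Mathlib
import Pool.Agent.H67.MinkA

set_option autoImplicit false
set_option linter.unusedSectionVars false

namespace Pool.Agent.H67.Mink

open Module

/-- The linear programming step. -/
theorem lp (B : ℕ → ℝ) (U V S : ℝ) (hU : 0 < U) (hUV : U ≤ V) (hS : U + V ≤ S)
    (F : ∀ i < 7, B i ≤ U ∨ (4 * B i ≤ U + ∑ j ∈ Finset.range i, B j ∧ B i ≤ V) ∨
      (4 * B i ≤ U + ∑ j ∈ Finset.range i, B j ∧
        (4 * B i ≤ ∑ j ∈ Finset.range i, B j ∨ 9 * B i ≤ V + 2 * ∑ j ∈ Finset.range i, B j))) :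
    ∑ j ∈ Finset.range 7, B j < 4 * S := by
  have F0 := F 0 (by norm_num)
  have F1 := F 1 (by norm_num)
  have F2 := F 2 (by norm_num)
  have F3 := F 3 (by norm_num)
  have F4 := F 4 (by norm_num)
  have F5 := F 5 (by norm_num)
  have F6 := F 6 (by norm_num)
  simp only [Finset.sum_range_succ, Finset.sum_range_zero] at *
  have h0 : B 0 ≤ U := by rcases F0 with h | h | h <;> linarith [h]
  have h1 : B 1 ≤ U := by rcases F1 with h | h | h <;> linarith [h]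
  have h2 : B 2 ≤ U := by rcases F2 with h | h | h <;> linarith [h]
  have h3 : B 3 ≤ U := by rcases F3 with h | h | h <;> linarith [h]
  have s5 : 0 + B 0 + B 1 + B 2 + B 3 + B 4 ≤ 2 * S + U := by
    rcases F4 with h | ⟨h, h'⟩ | ⟨h, h' | h'⟩ <;> linarith
  have s6 : 0 + B 0 + B 1 + B 2 + B 3 + B 4 + B 5 < 3 * S + U := by
    rcases F5 with h | ⟨h, h'⟩ | ⟨h, h' | h'⟩ <;> linarith
  have s6' : 0 + B 0 + B 1 + B 2 + B 3 + B 4 + B 5 ≤ 25 / 8 * S := by
    rcases F5 with h | ⟨h, h'⟩ | ⟨h, h' | h'⟩ <;> linarith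
  rcases F6 with h | ⟨h, h'⟩ | ⟨h, h' | h'⟩ <;> linarith

section lift

variable {E : Type} [NormedAddCommGroup E] [InnerProductSpace ℝ E]

theorem step (v w : E) (f : ℝ) (hf0 : 0 ≤ f) (hf1 : f ≤ 1) :
    ‖v - f • w‖ ^ 2 ≤ ‖v‖ ^ 2 + f * (1 - f) * ‖w‖ ^ 2 ∨
    ‖v + (1 - f) • w‖ ^ 2 ≤ ‖v‖ ^ 2 + f * (1 - f) * ‖w‖ ^ 2 := by
  have e1 : ‖v - f • w‖ ^ 2 = ‖v‖ ^ 2 - 2 * f * inner ℝ v w + f ^ 2 * ‖w‖ ^ 2 := by
    rw [norm_sub_sq_real, inner_smul_right, norm_smul, mul_pow, Real.norm_eq_abs, sq_abs]; ring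
  have e2 : ‖v + (1 - f) • w‖ ^ 2
      = ‖v‖ ^ 2 + 2 * (1 - f) * inner ℝ v w + (1 - f) ^ 2 * ‖w‖ ^ 2 := by
    rw [norm_add_sq_real, inner_smul_right, norm_smul, mul_pow, Real.norm_eq_abs, sq_abs]; ring
  by_contra hcon
  push Not at hcon
  obtain ⟨h1, h2⟩ := hcon
  have h3 : 0 < (1 - f) * (‖v - f • w‖ ^ 2 - (‖v‖ ^ 2 + f * (1 - f) * ‖w‖ ^ 2))
      + f * (‖v + (1 - f) • w‖ ^ 2 - (‖v‖ ^ 2 + f * (1 - f) * ‖w‖ ^ 2)) := by
    rcases eq_or_lt_of_le hf0 with h | h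
    · rw [← h]; rw [← h] at h1; linarith
    · have a1 : 0 ≤ (1 - f) * (‖v - f • w‖ ^ 2 - (‖v‖ ^ 2 + f * (1 - f) * ‖w‖ ^ 2)) :=
        mul_nonneg (by linarith) (by linarith)
      have a2 : 0 < f * (‖v + (1 - f) • w‖ ^ 2 - (‖v‖ ^ 2 + f * (1 - f) * ‖w‖ ^ 2)) :=
        mul_pos h (by linarith)
      linarith
  rw [e1, e2] at h3
  have : (1 - f) * (‖v‖ ^ 2 - 2 * f * inner ℝ v w + f ^ 2 * ‖w‖ ^ 2
      - (‖v‖ ^ 2 + f * (1 - f) * ‖w‖ ^ 2))
      + f * (‖v‖ ^ 2 + 2 * (1 - f) * inner ℝ v w + (1 - f) ^ 2 * ‖w‖ ^ 2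
      - (‖v‖ ^ 2 + f * (1 - f) * ‖w‖ ^ 2)) = 0 := by ring
  rw [this] at h3
  exact lt_irrefl _ h3

theorem lift_sum {ι : Type} [DecidableEq ι] (x : E) (w : ι → E) (t : ι → ℝ) (V : ℝ)
    (hV : ∀ i, Int.fract (t i) * (1 - Int.fract (t i)) ≤ V) (s : Finset ι) :
    ∃ m : ι → ℤ, ‖x + ∑ i ∈ s, ((m i : ℝ) - t i) • w i‖ ^ 2
      ≤ ‖x‖ ^ 2 + V * ∑ i ∈ s, ‖w i‖ ^ 2 := by
  induction s using Finset.induction_on with
  | empty => exact ⟨fun _ => 0, by simp⟩
  | insert a s ha ih =>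
    obtain ⟨m, hm⟩ := ih
    have key : ∀ c : ℤ, ∑ i ∈ insert a s, (((Function.update m a c) i : ℝ) - t i) • w i
        = ((c : ℝ) - t a) • w a + ∑ i ∈ s, ((m i : ℝ) - t i) • w i := by
      intro c
      rw [Finset.sum_insert ha, Function.update_self]
      congr 1
      apply Finset.sum_congr rfl
      intro i hi
      rw [Function.update_of_ne (by rintro rfl; exact ha hi)]
    have hfl : (⌊t a⌋ : ℝ) - t a = - Int.fract (t a) := by
      have := Int.self_sub_floor (t a); linarith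
    have hb : Int.fract (t a) * (1 - Int.fract (t a)) * ‖w a‖ ^ 2 ≤ V * ‖w a‖ ^ 2 :=
      mul_le_mul_of_nonneg_right (hV a) (by positivity)
    rcases step (x + ∑ i ∈ s, ((m i : ℝ) - t i) • w i) (w a) (Int.fract (t a))
      (Int.fract_nonneg _) (Int.fract_lt_one _).le with h | h
    · refine ⟨Function.update m a ⌊t a⌋, ?_⟩
      rw [key, hfl, Finset.sum_insert ha]
      have e : x + (-Int.fract (t a) • w a + ∑ i ∈ s, ((m i : ℝ) - t i) • w i)
          = (x + ∑ i ∈ s, ((m i : ℝ) - t i) • w i) - Int.fract (t a) • w a := by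
        rw [neg_smul]; abel
      rw [e]
      linarith
    · refine ⟨Function.update m a (⌊t a⌋ + 1), ?_⟩
      rw [key, Finset.sum_insert ha]
      have e1 : ((⌊t a⌋ + 1 : ℤ) : ℝ) - t a = 1 - Int.fract (t a) := by
        push_cast; linarith
      rw [e1]
      have e : x + ((1 - Int.fract (t a)) • w a + ∑ i ∈ s, ((m i : ℝ) - t i) • w i)
          = (x + ∑ i ∈ s, ((m i : ℝ) - t i) • w i) + (1 - Int.fract (t a)) • w a := by
        abel
      rw [e]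
      linarith

variable {n : ℕ} {L : Submodule ℤ E} (b : Basis (Fin n) ℤ L)

theorem coe_sum_repr (x : L) : (x : E) = ∑ i, (b.repr x i : ℝ) • (b i : E) := by
  conv_lhs => rw [← b.sum_repr x]
  rw [Submodule.coe_sum]
  apply Finset.sum_congr rfl
  intro i _
  rw [Submodule.coe_smul, Int.cast_smul_eq_zsmul]

/-- Division by `g` with rounding of the first coordinates. -/
theorem lift (x : L) (j : ℕ) (g : ℤ) (hg : 0 < g)
    (hdiv : ∀ i : Fin n, j ≤ (i : ℕ) → g ∣ b.repr x i) (V : ℝ)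
    (hV : ∀ r : ℤ, Int.fract ((r : ℝ) / g) * (1 - Int.fract ((r : ℝ) / g)) ≤ V) :
    ∃ z : L, (∀ i : Fin n, j ≤ (i : ℕ) → g * b.repr z i = b.repr x i) ∧
      ‖(z : E)‖ ^ 2 ≤ ‖(x : E)‖ ^ 2 / (g : ℝ) ^ 2
        + V * ∑ i ∈ Finset.univ.filter (fun i : Fin n => (i : ℕ) < j), ‖(b i : E)‖ ^ 2 := by
  classical
  have hg' : (g : ℝ) ≠ 0 := by exact_mod_cast hg.ne'
  obtain ⟨m, hm⟩ := lift_sum ((1 / (g : ℝ)) • (x : E)) (fun i => (b i : E))
    (fun i => (b.repr x i : ℝ) / g) V (fun i => hV _)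
    (Finset.univ.filter (fun i : Fin n => (i : ℕ) < j))
  set c : Fin n → ℤ := fun i => if (i : ℕ) < j then m i else b.repr x i / g with hc
  refine ⟨∑ i, c i • b i, ?_, ?_⟩
  · intro i hi
    have : b.repr (∑ i, c i • b i) i = c i := by
      rw [b.repr_sum_self]
    rw [this, hc]
    simp only
    rw [if_neg (by omega)]
    exact Int.mul_ediv_cancel' (hdiv i hi)
  · have hz : ((∑ i, c i • b i : L) : E) = (1 / (g : ℝ)) • (x : E)
        + ∑ i ∈ Finset.univ.filter (fun i : Fin n => (i : ℕ) < j),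
          ((m i : ℝ) - (b.repr x i : ℝ) / g) • (b i : E) := by
      rw [coe_sum_repr b x, Finset.smul_sum, Finset.sum_filter, ← Finset.sum_add_distrib,
        Submodule.coe_sum]
      apply Finset.sum_congr rfl
      intro i _
      rw [Submodule.coe_smul, ← Int.cast_smul_eq_zsmul ℝ, hc]
      simp only
      split_ifs with h
      · rw [smul_smul, ← add_smul]
        congr 1
        ring
      · rw [smul_smul, add_zero]
        congr 1
        obtain ⟨q, hq⟩ := hdiv i (by omega)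
        rw [hq, Int.mul_ediv_cancel_left _ hg.ne']
        push_cast
        field_simp
    rw [hz]
    refine hm.trans (le_of_eq ?_)
    congr 1
    rw [norm_smul, mul_pow, Real.norm_eq_abs, sq_abs]
    field_simp

/-- Minkowski reduction at place `j`. -/
def Red (j : Fin n) : Prop :=
  ∀ b' : Basis (Fin n) ℤ L, (∀ i < j, b' i = b i) → ‖(b j : E)‖ ≤ ‖(b' j : E)‖

theorem red_content {j : Fin n} (hb : Red b j) (z : L) (h : cont b (j : ℕ) z = 1) :
    ‖(b j : E)‖ ≤ ‖(z : E)‖ := by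
  obtain ⟨b', h1, h2⟩ := completion b j z h
  have := hb b' h1
  rwa [h2] at this

theorem cont_lift (x z : L) (j : ℕ) (hx : 0 < cont b j x)
    (h : ∀ i : Fin n, j ≤ (i : ℕ) → cont b j x * b.repr z i = b.repr x i) :
    cont b j z = 1 := by
  have h1 : cont b j x * cont b j z ∣ cont b j x := by
    apply dvd_cont
    intro i hi
    rw [← h i hi]
    exact mul_dvd_mul_left _ (cont_dvd b j z i hi)
  have h2 : cont b j z ∣ 1 := by
    have h3 : cont b j x * cont b j z ∣ cont b j x * 1 := by rw [mul_one]; exact h1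
    exact (mul_dvd_mul_iff_left hx.ne').mp h3
  exact Int.eq_one_of_dvd_one (cont_nonneg b j z) h2

/-- The general estimate for a vector of content at least two. -/
theorem red_even {j : Fin n} (hb : Red b j) (x : L) (hx : 2 ≤ cont b (j : ℕ) x) :
    4 * ‖(b j : E)‖ ^ 2 ≤ ‖(x : E)‖ ^ 2
      + ∑ i ∈ Finset.univ.filter (fun i : Fin n => (i : ℕ) < j), ‖(b i : E)‖ ^ 2 := by
  obtain ⟨z, hz1, hz2⟩ := lift b x (j : ℕ) (cont b (j : ℕ) x) (by omega)
    (fun i hi => cont_dvd b _ x i hi) (1 / 4) (by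
      intro r
      nlinarith [sq_nonneg (Int.fract ((r : ℝ) / (cont b (j : ℕ) x : ℝ)) - 1 / 2)])
  have hc := cont_lift b x z (j : ℕ) (by omega) hz1
  have h1 := red_content b hb z hc
  have h2 : ‖(b j : E)‖ ^ 2 ≤ ‖(z : E)‖ ^ 2 := pow_le_pow_left₀ (norm_nonneg _) h1 2
  have h3 : (2 : ℝ) ≤ (cont b (j : ℕ) x : ℝ) := by exact_mod_cast hx
  have h4 : ‖(x : E)‖ ^ 2 / (cont b (j : ℕ) x : ℝ) ^ 2 ≤ ‖(x : E)‖ ^ 2 / 4 := by
    apply div_le_div_of_nonneg_left (by positivity) (by norm_num)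
    nlinarith
  linarith

/-- The estimate for a vector of odd content at least three. -/
theorem red_odd {j : Fin n} (hb : Red b j) (x : L) (hx : 2 ≤ cont b (j : ℕ) x)
    (hodd : ¬ (2 : ℤ) ∣ cont b (j : ℕ) x) :
    4 * ‖(b j : E)‖ ^ 2
      ≤ ∑ i ∈ Finset.univ.filter (fun i : Fin n => (i : ℕ) < j), ‖(b i : E)‖ ^ 2 ∨
    9 * ‖(b j : E)‖ ^ 2 ≤ ‖(x : E)‖ ^ 2
      + 2 * ∑ i ∈ Finset.univ.filter (fun i : Fin n => (i : ℕ) < j), ‖(b i : E)‖ ^ 2 := by
  set g : ℤ := cont b (j : ℕ) x with hg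
  have hg3 : 3 ≤ g := by omega
  have hgR : (3 : ℝ) ≤ (g : ℝ) := by exact_mod_cast hg3
  obtain ⟨z, hz1, hz2⟩ := lift b x (j : ℕ) g (by omega)
    (fun i hi => cont_dvd b _ x i hi) (1 / 4 * (1 - 1 / (g : ℝ) ^ 2)) (by
      intro r
      obtain ⟨k, hk⟩ : ∃ k : ℕ, g = (k : ℤ) := ⟨g.toNat, by omega⟩
      have hk0 : 0 < k := by omega
      have hkR : (0 : ℝ) < (k : ℝ) := by exact_mod_cast hk0
      have h1 : Int.fract ((r : ℝ) / (g : ℝ)) = ((r % (k : ℤ) : ℤ) : ℝ) / (k : ℝ) := by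
        rw [hk, Int.cast_natCast]
        exact Int.fract_div_intCast_eq_div_intCast_mod
      rw [h1, hk, Int.cast_natCast]
      set s : ℤ := r % (k : ℤ) with hs
      have hodd' : ¬ (2 : ℤ) ∣ ((k : ℤ) - 2 * s) := by
        intro hd
        apply hodd
        rw [hk]
        have := dvd_add hd (dvd_mul_right 2 s)
        simpa using this
      have hne : (k : ℤ) - 2 * s ≠ 0 := fun h0 => hodd' (by rw [h0]; exact dvd_zero _)
      have hsq : 1 ≤ ((k : ℤ) - 2 * s) ^ 2 := by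
        have := sq_pos_of_ne_zero hne
        omega
      have hsqR : (1 : ℝ) ≤ ((k : ℝ) - 2 * (s : ℝ)) ^ 2 := by exact_mod_cast hsq
      have hkk : (0 : ℝ) < (k : ℝ) ^ 2 := by positivity
      have e1 : (s : ℝ) / (k : ℝ) * (1 - (s : ℝ) / (k : ℝ))
          = ((k : ℝ) ^ 2 - ((k : ℝ) - 2 * (s : ℝ)) ^ 2) / (4 * (k : ℝ) ^ 2) := by
        field_simp
        ring
      have e2 : 1 / 4 * (1 - 1 / (k : ℝ) ^ 2) = ((k : ℝ) ^ 2 - 1) / (4 * (k : ℝ) ^ 2) := by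
        field_simp
      rw [e1, e2]
      apply div_le_div_of_nonneg_right _ (by positivity)
      linarith)
  have hc := cont_lift b x z (j : ℕ) (by omega) hz1
  have h1 := red_content b hb z hc
  have h2 : ‖(b j : E)‖ ^ 2 ≤ ‖(z : E)‖ ^ 2 := pow_le_pow_left₀ (norm_nonneg _) h1 2
  set σ : ℝ := ∑ i ∈ Finset.univ.filter (fun i : Fin n => (i : ℕ) < j), ‖(b i : E)‖ ^ 2 with hσ
  set X : ℝ := ‖(x : E)‖ ^ 2 with hX
  set t : ℝ := 1 / (g : ℝ) ^ 2 with ht
  have ht0 : 0 < t := by rw [ht]; positivity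
  have ht1 : t ≤ 1 / 9 := by
    rw [ht]
    apply one_div_le_one_div_of_le (by norm_num)
    nlinarith
  have h5 : ‖(b j : E)‖ ^ 2 ≤ X * t + 1 / 4 * (1 - t) * σ := by
    have : X / (g : ℝ) ^ 2 = X * t := by rw [ht]; ring
    rw [this] at hz2
    linarith
  by_cases hXσ : X ≤ σ / 4
  · left
    have : X * t ≤ σ / 4 * t := mul_le_mul_of_nonneg_right hXσ ht0.le
    linarith
  · right
    push Not at hXσ
    have : (X - σ / 4) * t ≤ (X - σ / 4) * (1 / 9) :=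
      mul_le_mul_of_nonneg_left ht1 (by linarith)
    linarith

end lift

end Pool.Agent.H67.Mink
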