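import Mathlib
import Pool.Agent.H67.MinkB

set_option autoImplicit false
set_option linter.unusedSectionVars false

namespace Pool.Agent.H67.Mink

open Module

section indec

variable {E : Type} [NormedAddCommGroup E] [InnerProductSpace ℝ E]
variable {n : ℕ} {L : Submodule ℤ E} (b : Basis (Fin n) ℤ L)

theorem sum_filter_lt (f : Fin n → ℝ) (i : ℕ) (hi : i ≤ n) (g : ℕ → ℝ)
    (hg : ∀ j (hj : j < i), g j = f ⟨j, hj.trans_le hi⟩) :
    ∑ m ∈ Finset.univ.filter (fun m : Fin n => (m : ℕ) < i), f m = ∑ j ∈ Finset.range i, g j := by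
  symm
  refine Finset.sum_bij (fun j hj => (⟨j, (Finset.mem_range.mp hj).trans_le hi⟩ : Fin n))
    ?_ ?_ ?_ ?_
  · intro j hj; simpa using hj
  · intro j _ j' _ h; exact congrArg Fin.val h
  · intro m hm
    refine ⟨(m : ℕ), by simpa using hm, rfl⟩
  · intro j hj; exact hg j (Finset.mem_range.mp hj)

theorem two_le_cont {k : Fin n} (hb : Red b k) (x y : L) (hxy : x + y = b k)
    (hn : ‖(x : E)‖ ^ 2 + ‖(y : E)‖ ^ 2 ≤ ‖(b k : E)‖ ^ 2) (hx : x ≠ 0) (hy : y ≠ 0) :
    2 ≤ cont b (k : ℕ) x := by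
  have hx0 : 0 < ‖(x : E)‖ := norm_pos_iff.mpr (by simpa using hx)
  have hy0 : 0 < ‖(y : E)‖ := norm_pos_iff.mpr (by simpa using hy)
  have h0 := cont_nonneg b (k : ℕ) x
  by_contra hlt
  push Not at hlt
  have hc : cont b (k : ℕ) x = 0 ∨ cont b (k : ℕ) x = 1 := by omega
  rcases hc with hc | hc
  · have hyk : cont b (k : ℕ) y = 1 := by
      have h1 : cont b (k : ℕ) y ∣ 1 := by
        have h2 := cont_dvd b (k : ℕ) y k le_rfl
        have h3 : b.repr y k = 1 := by
          have h4 : b.repr (x + y) k = b.repr (b k) k := by rw [hxy]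
          rw [map_add, Finsupp.add_apply, cont_eq_zero b _ x hc k le_rfl, zero_add,
            Basis.repr_self, Finsupp.single_eq_same] at h4
          exact h4
        rwa [h3] at h2
      exact Int.eq_one_of_dvd_one (cont_nonneg b _ y) h1
    have h5 := red_content b hb y hyk
    nlinarith [norm_nonneg (b k : E)]
  · have h5 := red_content b hb x hc
    nlinarith [norm_nonneg (b k : E)]

/-- The first eight vectors of a Minkowski reduced basis are indecomposable. -/
theorem indec (hb : ∀ i, Red b i) (k : Fin n) (hk : (k : ℕ) < 8) (x y : L) (hxy : x + y = b k)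
    (hx : x ≠ 0) (hy : y ≠ 0) : inner ℝ (x : E) (y : E) < 0 := by
  by_contra hcon
  push Not at hcon
  wlog hle : ‖(x : E)‖ ≤ ‖(y : E)‖ generalizing x y
  · push Not at hle
    exact this y x (by rw [add_comm]; exact hxy) hy hx (by rw [real_inner_comm]; exact hcon) hle.le
  have hn : ‖(x : E)‖ ^ 2 + ‖(y : E)‖ ^ 2 ≤ ‖(b k : E)‖ ^ 2 := by
    rw [← hxy, Submodule.coe_add, norm_add_sq_real]
    linarith
  have hx0 : 0 < ‖(x : E)‖ ^ 2 := by
    have : 0 < ‖(x : E)‖ := norm_pos_iff.mpr (by simpa using hx)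
    positivity
  have hUV : ‖(x : E)‖ ^ 2 ≤ ‖(y : E)‖ ^ 2 := pow_le_pow_left₀ (norm_nonneg _) hle 2
  have hcx := two_le_cont b (hb k) x y hxy hn hx hy
  have hcy := two_le_cont b (hb k) y x (by rw [add_comm]; exact hxy) (by linarith) hy hx
  have hcx1 : ∀ i : ℕ, i ≤ k → 1 ≤ cont b i x := by
    intro i hi
    have h1 := cont_nonneg b i x
    have h2 : cont b i x ≠ 0 := by
      intro h3
      have := cont_mono_dvd b hi x
      rw [h3, zero_dvd_iff] at this
      omega
    omega
  have hcy1 : ∀ i : ℕ, i ≤ k → 1 ≤ cont b i y := by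
    intro i hi
    have h1 := cont_nonneg b i y
    have h2 : cont b i y ≠ 0 := by
      intro h3
      have := cont_mono_dvd b hi y
      rw [h3, zero_dvd_iff] at this
      omega
    omega
  have hcop : ∀ i : ℕ, i ≤ k → ¬ (2 : ℤ) ∣ cont b i x ∨ ¬ (2 : ℤ) ∣ cont b i y := by
    intro i hi
    by_contra h
    push Not at h
    have h1 := h.1.trans (cont_dvd b i x k hi)
    have h2 := h.2.trans (cont_dvd b i y k hi)
    have h3 := dvd_add h1 h2
    have h4 : b.repr (x + y) k = b.repr (b k) k := by rw [hxy]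
    rw [map_add, Finsupp.add_apply, Basis.repr_self, Finsupp.single_eq_same] at h4
    rw [h4] at h3
    norm_num at h3
  set Bf : ℕ → ℝ := fun i => if h : i < (k : ℕ) then ‖(b ⟨i, h.trans k.2⟩ : E)‖ ^ 2 else 0 with hBf
  have hsum : ∀ i : ℕ, i ≤ k →
      ∑ m ∈ Finset.univ.filter (fun m : Fin n => (m : ℕ) < i), ‖(b m : E)‖ ^ 2
        = ∑ j ∈ Finset.range i, Bf j := by
    intro i hi
    apply sum_filter_lt (fun m => ‖(b m : E)‖ ^ 2) i (hi.trans k.2.le)
    intro j hj
    simp only [hBf]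
    rw [dif_pos (hj.trans_le hi)]
  have hlp := lp Bf (‖(x : E)‖ ^ 2) (‖(y : E)‖ ^ 2) (‖(b k : E)‖ ^ 2) hx0 hUV hn (by
    intro i _
    by_cases hik : i < (k : ℕ)
    · have hBi : Bf i = ‖(b ⟨i, hik.trans k.2⟩ : E)‖ ^ 2 := by
        simp only [hBf]; rw [dif_pos hik]
      have hred := hb ⟨i, hik.trans k.2⟩
      rw [hBi]
      by_cases h1 : cont b i x = 1
      · left
        exact pow_le_pow_left₀ (norm_nonneg _) (red_content b hred x h1) 2
      · right
        have h1' : 2 ≤ cont b i x := by have := hcx1 i hik.le; omega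
        have e1 := red_even b hred x h1'
        simp only at e1
        rw [hsum i hik.le] at e1
        by_cases h2 : cont b i y = 1
        · left
          exact ⟨e1, pow_le_pow_left₀ (norm_nonneg _) (red_content b hred y h2) 2⟩
        · right
          have h2' : 2 ≤ cont b i y := by have := hcy1 i hik.le; omega
          refine ⟨e1, ?_⟩
          rcases hcop i hik.le with h3 | h3
          · rcases red_odd b hred x h1' h3 with h4 | h4
            · left; simp only at h4; rw [hsum i hik.le] at h4; exact h4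
            · right; simp only at h4; rw [hsum i hik.le] at h4; linarith
          · rcases red_odd b hred y h2' h3 with h4 | h4
            · left; simp only at h4; rw [hsum i hik.le] at h4; exact h4
            · right; simp only at h4; rw [hsum i hik.le] at h4; linarith
    · left
      simp only [hBf]
      rw [dif_neg hik]
      exact hx0.le)
  have hrange : ∑ j ∈ Finset.range (k : ℕ), Bf j = ∑ j ∈ Finset.range 7, Bf j := by
    apply Finset.sum_subset
    · intro j hj
      rw [Finset.mem_range] at hj ⊢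
      omega
    · intro j _ hj
      rw [Finset.mem_range] at hj
      simp only [hBf]
      rw [dif_neg hj]
  have hs := hsum k le_rfl
  rw [hrange] at hs
  have hfinal : 4 * ‖(b k : E)‖ ^ 2
      ≤ ∑ i ∈ Finset.univ.filter (fun i : Fin n => (i : ℕ) < k), ‖(b i : E)‖ ^ 2 ∨
      9 * ‖(b k : E)‖ ^ 2 ≤ ‖(y : E)‖ ^ 2
      + 2 * ∑ i ∈ Finset.univ.filter (fun i : Fin n => (i : ℕ) < k), ‖(b i : E)‖ ^ 2 := by
    rcases hcop k le_rfl with h3 | h3
    · rcases red_odd b (hb k) x hcx h3 with h4 | h4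
      · left; exact h4
      · right; linarith
    · exact red_odd b (hb k) y hcy h3
  rw [hs] at hfinal
  rcases hfinal with h | h <;> linarith

end indec

section existence

variable {n : ℕ} {d : ℕ} {L : Submodule ℤ (EuclideanSpace ℝ (Fin d))}

/-- Norms of lattice vectors in a nonempty set attain their minimum. -/
theorem exists_min_norm (hL : DiscreteTopology L) (S : Set L) (hS : S.Nonempty) :
    ∃ z ∈ S, ∀ w ∈ S, ‖(z : EuclideanSpace ℝ (Fin d))‖ ≤ ‖(w : EuclideanSpace ℝ (Fin d))‖ := by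
  obtain ⟨z0, hz0⟩ := hS
  have hfin : Set.Finite (Metric.closedBall (0 : EuclideanSpace ℝ (Fin d))
      ‖(z0 : EuclideanSpace ℝ (Fin d))‖ ∩ (L : Set (EuclideanSpace ℝ (Fin d)))) := by
    change ((_ : Set (EuclideanSpace ℝ (Fin d))) ∩ L.toAddSubgroup).Finite
    have : DiscreteTopology L.toAddSubgroup := hL
    exact Metric.finite_isBounded_inter_isClosed DiscreteTopology.isDiscrete
      Metric.isBounded_closedBall inferInstance
  set T : Set (EuclideanSpace ℝ (Fin d)) :=
    (fun z : L => (z : EuclideanSpace ℝ (Fin d))) ''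
      {w ∈ S | ‖(w : EuclideanSpace ℝ (Fin d))‖ ≤ ‖(z0 : EuclideanSpace ℝ (Fin d))‖} with hT
  have hTfin : T.Finite := by
    apply hfin.subset
    rintro _ ⟨w, ⟨_, hw⟩, rfl⟩
    exact ⟨by simpa using hw, w.2⟩
  have hTne : T.Nonempty := ⟨z0, z0, ⟨hz0, le_rfl⟩, rfl⟩
  obtain ⟨t, ht, hmin⟩ := Set.exists_min_image T (fun v => ‖v‖) hTfin hTne
  obtain ⟨z, ⟨hzS, hz⟩, rfl⟩ := ht
  refine ⟨z, hzS, fun w hw => ?_⟩
  by_cases h : ‖(w : EuclideanSpace ℝ (Fin d))‖ ≤ ‖(z0 : EuclideanSpace ℝ (Fin d))‖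
  · exact hmin _ ⟨w, ⟨hw, h⟩, rfl⟩
  · push Not at h
    exact hz.trans h.le

theorem exists_red (hL : DiscreteTopology L) (b₀ : Basis (Fin n) ℤ L) :
    ∃ b : Basis (Fin n) ℤ L, ∀ i, Red b i := by
  have key : ∀ k : ℕ, ∃ b : Basis (Fin n) ℤ L, ∀ i : Fin n, (i : ℕ) < k → Red b i := by
    intro k
    induction k with
    | zero => exact ⟨b₀, fun i hi => absurd hi (Nat.not_lt_zero _)⟩
    | succ k ih =>
      obtain ⟨b, hb⟩ := ih
      by_cases hk : k < n
      · obtain ⟨z, ⟨b', hb', hz⟩, hmin⟩ := exists_min_norm hL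
          {z : L | ∃ b' : Basis (Fin n) ℤ L, (∀ i : Fin n, (i : ℕ) < k → b' i = b i) ∧
            b' ⟨k, hk⟩ = z} ⟨b ⟨k, hk⟩, b, fun _ _ => rfl, rfl⟩
        refine ⟨b', fun i hi => ?_⟩
        rcases Nat.lt_succ_iff_lt_or_eq.mp hi with h | h
        · intro b'' hb''
          rw [hb' i h]
          apply hb i h b''
          intro j hj
          have hj' : (j : ℕ) < i := hj
          rw [hb'' j hj, hb' j (by omega)]
        · have hi' : i = ⟨k, hk⟩ := Fin.ext h
          rw [hi']
          intro b'' hb''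
          rw [hz]
          apply hmin
          refine ⟨b'', fun j hj => ?_, rfl⟩
          rw [hb'' j (by exact hj), hb' j hj]
      · refine ⟨b, fun i _ => hb i (by have := i.2; omega)⟩
  obtain ⟨b, hb⟩ := key n
  exact ⟨b, fun i => hb i i.2⟩

end existence

end Pool.Agent.H67.Mink
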