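import Mathlib
import Pool.Agent.H67.MinkC

set_option autoImplicit false
set_option linter.unusedSectionVars false

namespace Pool.Agent.H67.Mink

open Module

section facet

variable {n : ℕ} {L : Submodule ℤ (EuclideanSpace ℝ (Fin n))}

/-- The facet condition of the problem: `v` is nonzero and the Voronoi cells of `0` and of `v` meet
in a set of dimension `n - 1`. -/
def IsFacetVec (L : Submodule ℤ (EuclideanSpace ℝ (Fin n))) (v : EuclideanSpace ℝ (Fin n)) :
    Prop :=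
  v ≠ 0 ∧ Module.finrank ℝ
    (affineSpan ℝ {x : EuclideanSpace ℝ (Fin n) |
      ∀ w ∈ L, ‖x‖ ≤ ‖x - w‖ ∧ ‖x - v‖ ≤ ‖x - w‖}).direction = n - 1

theorem exists_delta (hL : DiscreteTopology L) (v : EuclideanSpace ℝ (Fin n))
    (hind : ∀ w ∈ L, w ≠ 0 → w ≠ v → inner ℝ w (v - w) < 0) :
    ∃ δ : ℝ, 0 < δ ∧ δ ≤ 1 / 2 ∧ ∀ w ∈ L, w ≠ 0 → w ≠ v →
      2 * δ * ‖w‖ ≤ ‖w‖ ^ 2 - inner ℝ v w := by
  have hpos : ∀ w ∈ L, w ≠ 0 → w ≠ v → 0 < ‖w‖ ^ 2 - inner ℝ v w := by
    intro w hw h0 hv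
    have h := hind w hw h0 hv
    rw [inner_sub_right, real_inner_self_eq_norm_sq, real_inner_comm] at h
    linarith
  set T : Set (EuclideanSpace ℝ (Fin n)) :=
    {w | w ∈ L ∧ w ≠ 0 ∧ w ≠ v ∧ ‖w‖ ≤ ‖v‖ + 1} with hT
  have hfin : T.Finite := by
    have h1 : Set.Finite (Metric.closedBall (0 : EuclideanSpace ℝ (Fin n)) (‖v‖ + 1)
        ∩ (L : Set (EuclideanSpace ℝ (Fin n)))) := by
      change ((_ : Set (EuclideanSpace ℝ (Fin n))) ∩ L.toAddSubgroup).Finite
      have : DiscreteTopology L.toAddSubgroup := hL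
      exact Metric.finite_isBounded_inter_isClosed DiscreteTopology.isDiscrete
        Metric.isBounded_closedBall inferInstance
    apply h1.subset
    rintro w ⟨hw, _, _, h⟩
    exact ⟨by simpa using h, hw⟩
  have hlarge : ∀ δ : ℝ, 0 < δ → δ ≤ 1 / 2 → ∀ w ∈ L, w ≠ 0 → w ≠ v → w ∉ T →
      2 * δ * ‖w‖ ≤ ‖w‖ ^ 2 - inner ℝ v w := by
    intro δ h0 h1 w hw hw0 hwv hwT
    have h2 : ‖v‖ + 1 < ‖w‖ := by
      by_contra hcon
      push Not at hcon
      exact hwT ⟨hw, hw0, hwv, hcon⟩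
    have h3 : inner ℝ v w ≤ ‖v‖ * ‖w‖ := real_inner_le_norm v w
    have h4 : 0 ≤ ‖w‖ := norm_nonneg _
    have h5 : 2 * δ * ‖w‖ ≤ 1 * ‖w‖ := mul_le_mul_of_nonneg_right (by linarith) h4
    nlinarith
  rcases T.eq_empty_or_nonempty with hTe | hTne
  · refine ⟨1 / 2, by norm_num, le_rfl, fun w hw h0 hv => ?_⟩
    exact hlarge (1 / 2) (by norm_num) le_rfl w hw h0 hv (by rw [hTe]; exact Set.notMem_empty _)
  · obtain ⟨t, ht, hmin⟩ := Set.exists_min_image T
      (fun w => (‖w‖ ^ 2 - inner ℝ v w) / (2 * ‖w‖)) hfin hTne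
    have htn : 0 < ‖t‖ := norm_pos_iff.mpr ht.2.1
    have htpos : 0 < (‖t‖ ^ 2 - inner ℝ v t) / (2 * ‖t‖) :=
      div_pos (hpos t ht.1 ht.2.1 ht.2.2.1) (by linarith)
    refine ⟨min (1 / 2) ((‖t‖ ^ 2 - inner ℝ v t) / (2 * ‖t‖)), lt_min (by norm_num) htpos,
      min_le_left _ _, fun w hw h0 hv => ?_⟩
    by_cases hwT : w ∈ T
    · have h1 := hmin w hwT
      have hwn : 0 < ‖w‖ := norm_pos_iff.mpr h0
      have h2 : min (1 / 2) ((‖t‖ ^ 2 - inner ℝ v t) / (2 * ‖t‖))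
          ≤ (‖w‖ ^ 2 - inner ℝ v w) / (2 * ‖w‖) := (min_le_right _ _).trans h1
      rw [le_div_iff₀ (by linarith)] at h2
      linarith
    · exact hlarge _ (lt_min (by norm_num) htpos) (min_le_left _ _) w hw h0 hv hwT

/-- A lattice vector all of whose nontrivial decompositions have negative inner product is a
facet vector. -/
theorem facet_of_indec (hL : DiscreteTopology L) (v : EuclideanSpace ℝ (Fin n)) (hv : v ∈ L)
    (hv0 : v ≠ 0) (hind : ∀ w ∈ L, w ≠ 0 → w ≠ v → inner ℝ w (v - w) < 0) :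
    IsFacetVec L v := by
  refine ⟨hv0, ?_⟩
  obtain ⟨δ, hδ0, hδ1, hδ⟩ := exists_delta hL v hind
  set S : Set (EuclideanSpace ℝ (Fin n)) :=
    {x | ∀ w ∈ L, ‖x‖ ≤ ‖x - w‖ ∧ ‖x - v‖ ≤ ‖x - w‖} with hS
  have hmem : ∀ u : EuclideanSpace ℝ (Fin n), ‖u‖ ≤ δ → inner ℝ v u = 0 →
      (1 / 2 : ℝ) • v + u ∈ S := by
    intro u hu huv w hw
    have hsym : ‖(1 / 2 : ℝ) • v + u - v‖ = ‖(1 / 2 : ℝ) • v + u‖ := by
      have e1 : (1 / 2 : ℝ) • v + u - v = u - (1 / 2 : ℝ) • v := by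
        have : v = (1 / 2 : ℝ) • v + (1 / 2 : ℝ) • v := by rw [← add_smul]; norm_num
        nth_rewrite 2 [this]
        abel
      rw [e1]
      have e2 : ‖u - (1 / 2 : ℝ) • v‖ ^ 2 = ‖(1 / 2 : ℝ) • v + u‖ ^ 2 := by
        rw [norm_sub_sq_real, norm_add_sq_real, inner_smul_left, inner_smul_right,
          real_inner_comm, huv]
        simp
        ring
      exact (sq_eq_sq₀ (norm_nonneg _) (norm_nonneg _)).mp e2
    have hmain : ‖(1 / 2 : ℝ) • v + u‖ ≤ ‖(1 / 2 : ℝ) • v + u - w‖ := by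
      have e3 : ‖(1 / 2 : ℝ) • v + u - w‖ ^ 2 = ‖(1 / 2 : ℝ) • v + u‖ ^ 2
          + (‖w‖ ^ 2 - inner ℝ v w - 2 * inner ℝ u w) := by
        rw [norm_sub_sq_real, inner_add_left, inner_smul_left]
        simp
        ring
      have e4 : 0 ≤ ‖w‖ ^ 2 - inner ℝ v w - 2 * inner ℝ u w := by
        by_cases h0 : w = 0
        · rw [h0]; simp
        by_cases hwv : w = v
        · rw [hwv, real_inner_self_eq_norm_sq, real_inner_comm, huv]; simp
        have h1 := hδ w hw h0 hwv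
        have h2 : inner ℝ u w ≤ ‖u‖ * ‖w‖ := real_inner_le_norm u w
        have h3 : ‖u‖ * ‖w‖ ≤ δ * ‖w‖ := mul_le_mul_of_nonneg_right hu (norm_nonneg _)
        linarith
      have e5 : ‖(1 / 2 : ℝ) • v + u‖ ^ 2 ≤ ‖(1 / 2 : ℝ) • v + u - w‖ ^ 2 := by
        rw [e3]; linarith
      exact (sq_le_sq₀ (norm_nonneg _) (norm_nonneg _)).mp e5
    exact ⟨hmain, by rw [hsym]; exact hmain⟩
  have hplane : ∀ x ∈ S, inner ℝ v x = ‖v‖ ^ 2 / 2 := by
    intro x hx
    have h1 := (hx v hv).1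
    have h2 := (hx 0 L.zero_mem).2
    rw [sub_zero] at h2
    have h3 : ‖x - v‖ = ‖x‖ := le_antisymm h2 h1
    have h4 : ‖x - v‖ ^ 2 = ‖x‖ ^ 2 := by rw [h3]
    rw [norm_sub_sq_real, real_inner_comm] at h4
    linarith
  have hdir : (affineSpan ℝ S).direction = (Submodule.span ℝ {v})ᗮ := by
    rw [direction_affineSpan]
    apply le_antisymm
    · rw [vectorSpan_def, Submodule.span_le]
      rintro _ ⟨x, hx, y, hy, rfl⟩
      rw [SetLike.mem_coe, Submodule.mem_orthogonal_singleton_iff_inner_right]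
      simp only [vsub_eq_sub]
      rw [inner_sub_right, hplane x hx, hplane y hy, sub_self]
    · intro u hu
      rw [Submodule.mem_orthogonal_singleton_iff_inner_right] at hu
      by_cases hu0 : u = 0
      · rw [hu0]; exact Submodule.zero_mem _
      have hun : 0 < ‖u‖ := norm_pos_iff.mpr hu0
      have h1 : (1 / 2 : ℝ) • v + (δ / ‖u‖) • u ∈ S := by
        apply hmem
        · rw [norm_smul, Real.norm_eq_abs, abs_of_pos (div_pos hδ0 hun), div_mul_cancel₀ _ hun.ne']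
        · rw [inner_smul_right, hu, mul_zero]
      have h2 : (1 / 2 : ℝ) • v + 0 ∈ S := by
        apply hmem
        · rw [norm_zero]; exact hδ0.le
        · rw [inner_zero_right]
      have h3 : ((1 / 2 : ℝ) • v + (δ / ‖u‖) • u) -ᵥ ((1 / 2 : ℝ) • v + 0) ∈ vectorSpan ℝ S :=
        vsub_mem_vectorSpan ℝ h1 h2
      have h4 : ((1 / 2 : ℝ) • v + (δ / ‖u‖) • u) -ᵥ ((1 / 2 : ℝ) • v + 0) = (δ / ‖u‖) • u := by
        rw [vsub_eq_sub]; abel
      rw [h4] at h3
      have h5 := (vectorSpan ℝ S).smul_mem (‖u‖ / δ) h3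
      rwa [smul_smul, div_mul_div_cancel₀ hδ0.ne', div_self hun.ne', one_smul] at h5
  rw [hdir]
  have h1 := Submodule.finrank_add_finrank_orthogonal (Submodule.span ℝ {v})
  rw [finrank_span_singleton hv0, finrank_euclideanSpace_fin] at h1
  omega

end facet

section final

theorem exists_basis {n : ℕ} (L : Submodule ℤ (EuclideanSpace ℝ (Fin n)))
    (hL : DiscreteTopology L)
    (hspan : Submodule.span ℝ (L : Set (EuclideanSpace ℝ (Fin n))) = ⊤) :
    Nonempty (Basis (Fin n) ℤ L) := by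
  have : IsZLattice ℝ L := ⟨hspan⟩
  have h1 : Module.Finite ℤ L := ZLattice.module_finite ℝ L
  have h2 : Module.Free ℤ L := ZLattice.module_free ℝ L
  have h3 : finrank ℤ L = n := by
    rw [ZLattice.rank ℝ L, finrank_euclideanSpace_fin]
  exact ⟨Module.finBasisOfFinrankEq ℤ L h3⟩

/-- Every lattice has a basis whose first eight members are facet vectors. -/
theorem main {n : ℕ} (L : Submodule ℤ (EuclideanSpace ℝ (Fin n)))
    (hL : DiscreteTopology L)
    (hspan : Submodule.span ℝ (L : Set (EuclideanSpace ℝ (Fin n))) = ⊤) :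
    ∃ b : Basis (Fin n) ℤ L, ∀ i : Fin n, (i : ℕ) < 8 →
      IsFacetVec L (b i : EuclideanSpace ℝ (Fin n)) := by
  obtain ⟨b₀⟩ := exists_basis L hL hspan
  obtain ⟨b, hb⟩ := exists_red hL b₀
  refine ⟨b, fun i hi => ?_⟩
  apply facet_of_indec hL _ (b i).2
  · intro h
    exact b.ne_zero i (by simpa using h)
  · intro w hw hw0 hwv
    have h1 := indec b hb i hi ⟨w, hw⟩ (b i - ⟨w, hw⟩) (by abel)
      (by intro h; exact hw0 (congrArg Subtype.val h))
      (by
        intro h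
        apply hwv
        have := congrArg Subtype.val (sub_eq_zero.mp h)
        exact this.symm)
    exact h1

end final

end Pool.Agent.H67.Mink
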