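import Pool.Agent.H67.QTFactors

/-!
The chain of partial products for `l = 6`.
-/

namespace Pool.Agent.H67.QTFiber

open Finset

variable {l : ℕ}

lemma sumTo_congr {R : Type*} [CommRing R] {f g : ℕ → R} {n : ℕ} (h : ∀ k ≤ n, f k = g k) :
    sumTo f n = sumTo g n := by
  rw [sumTo_eq, sumTo_eq]
  apply sum_congr rfl
  intro k hk
  rw [mem_range] at hk
  exact h k (by omega)

lemma Has.step' {j : Fin l} {δ : Fin l → ℤ} {f : MvPowerSeries (Sg l) ℤ} {p : ℕ → KK}
    (hf : Has j δ f (PowerSeries.mk p)) (hδ : suf j δ = -1) (F : MvPowerSeries (Sg l) ℤ)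
    (v : Fin l → ℤ) (n : ℕ) (hv : suf j v = -(n : ℤ)) :
    S (f * F) v = sumTo (fun k => p k * S F (v - (k : ℤ) • δ)) n := by
  rw [hf.step hδ F v n hv, sumTo_eq]
  simp only [PowerSeries.coeff_mk]

/-- `F` does not involve coordinate `r`. -/
def Van (r : Fin l) (F : MvPowerSeries (Sg l) ℤ) : Prop := ∀ v : Fin l → ℤ, v r ≠ 0 → S F v = 0

lemma Van.one (r : Fin l) : Van r (1 : MvPowerSeries (Sg l) ℤ) := by
  intro v hv
  rw [S_one, if_neg]
  rintro rfl
  exact hv rfl

lemma Van.W {r i j : Fin l} (hij : i < j) (hi : r ≠ i) (hj : r ≠ j)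
    {F : MvPowerSeries (Sg l) ℤ} (hF : Van r F) : Van r (Wf i j * F) :=
  (has_Wf hij).van (suf_dl hij) r (by simp [dl, hi, hj]) F hF

lemma Van.Wa {r i j : Fin l} (hij : i < j) (hi : r ≠ i) (hj : r ≠ j)
    {F : MvPowerSeries (Sg l) ℤ} (hF : Van r F) : Van r (Wf i j * If i j * F) :=
  (has_Wa hij).van (suf_dl hij) r (by simp [dl, hi, hj]) F hF

lemma Van.Z {r j : Fin l} (hj : r ≠ j)
    {F : MvPowerSeries (Sg l) ℤ} (hF : Van r F) : Van r (Zf j * F) :=
  (has_Zf j).van (suf_dz j) r (by simp [dz, hj]) F hF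

lemma Zstep {j : Fin l} {F : MvPowerSeries (Sg l) ℤ} (hF : Van j F) (v : Fin l → ℤ) (n : ℕ)
    (hs : suf j v = -(n : ℤ)) (hv : v j = -(n : ℤ)) :
    S (Zf j * F) v = S F (v - (n : ℤ) • dz j) := by
  rw [(has_Zf j).step (suf_dz j) F v n hs, sum_eq_single n]
  · simp
  · intro k _ hk
    rw [hF, mul_zero]
    simp only [Pi.sub_apply, Pi.smul_apply, dz, if_true, hv, smul_eq_mul]
    intro h
    apply hk
    have : (k : ℤ) = n := by linarith
    exact_mod_cast this
  · intro h
    simp at h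

lemma zero_step {i j : Fin l} (hij : i < j) {f F : MvPowerSeries (Sg l) ℤ} {p : ℕ → KK}
    (hf : Has j (dl i j) f (PowerSeries.mk p)) (hF : Van j F) (v : Fin l → ℤ) (n : ℕ)
    (hs : suf j v = -(n : ℤ)) (hv : v j = -(n : ℤ)) (c : KK)
    (hc : ∀ k ≤ n, S F (v - (k : ℤ) • dl i j - ((n - k : ℕ) : ℤ) • dz j) = c) :
    S (f * (Zf j * F)) v = sumTo p n * c := by
  rw [hf.step' (suf_dl hij) _ v n hs, sumTo_eq, sumTo_eq, sum_mul]
  apply sum_congr rfl
  intro k hk
  rw [mem_range] at hk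
  rw [Zstep hF _ (n - k) ?_ ?_, hc k (by omega)]
  · rw [suf_sub, suf_smul, suf_dl hij, hs, Nat.cast_sub (by omega)]
    ring
  · have hne : j ≠ i := ne_of_gt hij
    simp only [Pi.sub_apply, Pi.smul_apply, dl, if_true, hv, smul_eq_mul, hne, if_false]
    rw [Nat.cast_sub (by omega)]
    ring

/-- Vectors for `l = 6`. -/
def V (a b c d e f : ℕ) : Fin 6 → ℤ := ![-(a : ℤ), -(b : ℤ), -(c : ℤ), -(d : ℤ), -(e : ℤ), -(f : ℤ)]

noncomputable section

def P1 : MvPowerSeries (Sg 6) ℤ := Zf 0 * 1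
def P2 : MvPowerSeries (Sg 6) ℤ := (Wf 0 1 * If 0 1) * (Zf 1 * P1)
def P3 : MvPowerSeries (Sg 6) ℤ := (Wf 1 2 * If 1 2) * (Wf 0 2 * (Zf 2 * P2))
def P4 : MvPowerSeries (Sg 6) ℤ := Wf 1 3 * ((Wf 2 3 * If 2 3) * (Wf 0 3 * (Zf 3 * P3)))
def P5 : MvPowerSeries (Sg 6) ℤ :=
  Wf 1 4 * (Wf 2 4 * ((Wf 3 4 * If 3 4) * (Wf 0 4 * (Zf 4 * P4))))
def P6 : MvPowerSeries (Sg 6) ℤ :=
  Wf 1 5 * (Wf 2 5 * (Wf 3 5 * ((Wf 4 5 * If 4 5) * (Wf 0 5 * (Zf 5 * P5)))))

end

lemma van1 (r : Fin 6) (h : 0 < r) : Van r P1 := Van.Z (ne_of_gt h) (Van.one r)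

lemma van2 (r : Fin 6) (h : 1 < r) : Van r P2 := by
  have h0 : 0 < r := lt_trans (by decide) h
  exact Van.Wa (by decide) (ne_of_gt h0) (ne_of_gt h) (Van.Z (ne_of_gt h) (van1 r h0))

lemma van3 (r : Fin 6) (h : 2 < r) : Van r P3 := by
  have h1 : 1 < r := lt_trans (by decide) h
  have h0 : 0 < r := lt_trans (by decide) h1
  exact Van.Wa (by decide) (ne_of_gt h1) (ne_of_gt h)
    (Van.W (by decide) (ne_of_gt h0) (ne_of_gt h) (Van.Z (ne_of_gt h) (van2 r h1)))

lemma van4 (r : Fin 6) (h : 3 < r) : Van r P4 := by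
  have h2 : 2 < r := lt_trans (by decide) h
  have h1 : 1 < r := lt_trans (by decide) h2
  have h0 : 0 < r := lt_trans (by decide) h1
  exact Van.W (by decide) (ne_of_gt h1) (ne_of_gt h)
    (Van.Wa (by decide) (ne_of_gt h2) (ne_of_gt h)
    (Van.W (by decide) (ne_of_gt h0) (ne_of_gt h) (Van.Z (ne_of_gt h) (van3 r h2))))

lemma van5 (r : Fin 6) (h : 4 < r) : Van r P5 := by
  have h3 : 3 < r := lt_trans (by decide) h
  have h2 : 2 < r := lt_trans (by decide) h3
  have h1 : 1 < r := lt_trans (by decide) h2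
  have h0 : 0 < r := lt_trans (by decide) h1
  exact Van.W (by decide) (ne_of_gt h1) (ne_of_gt h)
    (Van.W (by decide) (ne_of_gt h2) (ne_of_gt h)
    (Van.Wa (by decide) (ne_of_gt h3) (ne_of_gt h)
    (Van.W (by decide) (ne_of_gt h0) (ne_of_gt h) (Van.Z (ne_of_gt h) (van4 r h3)))))

lemma S1 (a : ℕ) : S P1 (V a 0 0 0 0 0) = 1 := by
  have e : V a 0 0 0 0 0 - (a : ℤ) • dz 0 = 0 := by
    funext r
    simp only [Pi.sub_apply, Pi.smul_apply, smul_eq_mul, dl, dz]
    fin_cases r <;> simp [V] <;> omega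
  unfold P1
  rw [Zstep (Van.one 0) _ a ?_ ?_, e, S_one, if_pos rfl]
  · simp [suf, V, Fin.sum_univ_six]
  · simp [V]

lemma S2 (a b : ℕ) : S P2 (V a b 0 0 0 0) = hh qK tK b := by
  unfold P2
  rw [zero_step (c := 1) (by decide) (has_Wa (by decide)) (van1 1 (by decide)) _ b ?_ ?_ ?_,
    sumTo_wa, mul_one]
  · simp [suf, V, Fin.sum_univ_six]
  · simp [V]
  · intro k hk
    have e : V a b 0 0 0 0 - (k : ℤ) • dl 0 1 - ((b - k : ℕ) : ℤ) • dz 1 = V (a + k) 0 0 0 0 0 := by
      funext r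
      simp only [Pi.sub_apply, Pi.smul_apply, smul_eq_mul, dl, dz]
      fin_cases r <;> simp [V] <;> omega
    rw [e, S1]

lemma S3z (a b c : ℕ) : S (Wf 0 2 * (Zf 2 * P2)) (V a b c 0 0 0) = WW qK tK c * hh qK tK b := by
  rw [zero_step (c := hh qK tK b) (by decide) (has_Wf (by decide)) (van2 2 (by decide)) _ c ?_ ?_ ?_,
    sumTo_ww]
  · simp [suf, V, Fin.sum_univ_six]
  · simp [V]
  · intro k hk
    have e : V a b c 0 0 0 - (k : ℤ) • dl 0 2 - ((c - k : ℕ) : ℤ) • dz 2 = V (a + k) b 0 0 0 0 := by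
      funext r
      simp only [Pi.sub_apply, Pi.smul_apply, smul_eq_mul, dl, dz]
      fin_cases r <;> simp [V] <;> omega
    rw [e, S2]

lemma S3 (a b c : ℕ) : S P3 (V a b c 0 0 0) = A3 qK tK b c := by
  unfold P3 A3
  rw [(has_Wa (by decide)).step' (suf_dl (by decide)) _ _ c ?_]
  · apply sumTo_congr
    intro k hk
    have e : V a b c 0 0 0 - (k : ℤ) • dl 1 2 = V a (b + k) (c - k) 0 0 0 := by
      funext r
      simp only [Pi.sub_apply, Pi.smul_apply, smul_eq_mul, dl, dz]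
      fin_cases r <;> simp [V] <;> omega
    rw [e, S3z]
  · simp [suf, V, Fin.sum_univ_six]

lemma S4z (a b c d : ℕ) : S (Wf 0 3 * (Zf 3 * P3)) (V a b c d 0 0) =
    WW qK tK d * A3 qK tK b c := by
  rw [zero_step (c := A3 qK tK b c) (by decide) (has_Wf (by decide)) (van3 3 (by decide)) _ d
    ?_ ?_ ?_, sumTo_ww]
  · simp [suf, V, Fin.sum_univ_six]
  · simp [V]
  · intro k hk
    have e : V a b c d 0 0 - (k : ℤ) • dl 0 3 - ((d - k : ℕ) : ℤ) • dz 3 = V (a + k) b c 0 0 0 := by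
      funext r
      simp only [Pi.sub_apply, Pi.smul_apply, smul_eq_mul, dl, dz]
      fin_cases r <;> simp [V] <;> omega
    rw [e, S3]

lemma S4 (a b c d : ℕ) : S P4 (V a b c d 0 0) = A4 qK tK b c d := by
  unfold P4 A4
  rw [(has_Wf (by decide)).step' (suf_dl (by decide)) _ _ d ?_]
  · apply sumTo_congr
    intro k hk
    have e : V a b c d 0 0 - (k : ℤ) • dl 1 3 = V a (b + k) c (d - k) 0 0 := by
      funext r
      simp only [Pi.sub_apply, Pi.smul_apply, smul_eq_mul, dl, dz]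
      fin_cases r <;> simp [V] <;> omega
    rw [e, (has_Wa (by decide)).step' (suf_dl (by decide)) _ _ (d - k) ?_]
    · congr 1
      apply sumTo_congr
      intro k' hk'
      have e : V a (b + k) c (d - k) 0 0 - (k' : ℤ) • dl 2 3 =
          V a (b + k) (c + k') (d - k - k') 0 0 := by
        funext r
        simp only [Pi.sub_apply, Pi.smul_apply, smul_eq_mul, dl, dz]
        fin_cases r <;> simp [V] <;> omega
      rw [e, S4z]
    · simp [suf, V, Fin.sum_univ_six]
  · simp [suf, V, Fin.sum_univ_six]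

lemma S5z (a b c d e : ℕ) : S (Wf 0 4 * (Zf 4 * P4)) (V a b c d e 0) =
    WW qK tK e * A4 qK tK b c d := by
  rw [zero_step (c := A4 qK tK b c d) (by decide) (has_Wf (by decide)) (van4 4 (by decide)) _ e
    ?_ ?_ ?_, sumTo_ww]
  · simp [suf, V, Fin.sum_univ_six]
  · simp [V]
  · intro k hk
    have e : V a b c d e 0 - (k : ℤ) • dl 0 4 - ((e - k : ℕ) : ℤ) • dz 4 = V (a + k) b c d 0 0 := by
      funext r
      simp only [Pi.sub_apply, Pi.smul_apply, smul_eq_mul, dl, dz]
      fin_cases r <;> simp [V] <;> omega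
    rw [e, S4]

lemma S5 (a b c d e : ℕ) : S P5 (V a b c d e 0) = A5 qK tK b c d e := by
  unfold P5 A5
  rw [(has_Wf (by decide)).step' (suf_dl (by decide)) _ _ e ?_]
  · apply sumTo_congr
    intro k hk
    have e1 : V a b c d e 0 - (k : ℤ) • dl 1 4 = V a (b + k) c d (e - k) 0 := by
      funext r
      simp only [Pi.sub_apply, Pi.smul_apply, smul_eq_mul, dl, dz]
      fin_cases r <;> simp [V] <;> omega
    rw [e1, (has_Wf (by decide)).step' (suf_dl (by decide)) _ _ (e - k) ?_]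
    · congr 1
      apply sumTo_congr
      intro k' hk'
      have e1 : V a (b + k) c d (e - k) 0 - (k' : ℤ) • dl 2 4 =
          V a (b + k) (c + k') d (e - k - k') 0 := by
        funext r
        simp only [Pi.sub_apply, Pi.smul_apply, smul_eq_mul, dl, dz]
        fin_cases r <;> simp [V] <;> omega
      rw [e1, (has_Wa (by decide)).step' (suf_dl (by decide)) _ _ (e - k - k') ?_]
      · congr 1
        apply sumTo_congr
        intro k'' hk''
        have e1 : V a (b + k) (c + k') d (e - k - k') 0 - (k'' : ℤ) • dl 3 4 =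
            V a (b + k) (c + k') (d + k'') (e - k - k' - k'') 0 := by
          funext r
          simp only [Pi.sub_apply, Pi.smul_apply, smul_eq_mul, dl, dz]
          fin_cases r <;> simp [V] <;> omega
        rw [e1, S5z]
      · simp [suf, V, Fin.sum_univ_six]
    · simp [suf, V, Fin.sum_univ_six]
  · simp [suf, V, Fin.sum_univ_six]

lemma S6z (a b c d e f : ℕ) : S (Wf 0 5 * (Zf 5 * P5)) (V a b c d e f) =
    WW qK tK f * A5 qK tK b c d e := by
  rw [zero_step (c := A5 qK tK b c d e) (by decide) (has_Wf (by decide)) (van5 5 (by decide)) _ f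
    ?_ ?_ ?_, sumTo_ww]
  · simp [suf, V, Fin.sum_univ_six]
  · simp [V]
  · intro k hk
    have e1 : V a b c d e f - (k : ℤ) • dl 0 5 - ((f - k : ℕ) : ℤ) • dz 5 =
        V (a + k) b c d e 0 := by
      funext r
      simp only [Pi.sub_apply, Pi.smul_apply, smul_eq_mul, dl, dz]
      fin_cases r <;> simp [V] <;> omega
    rw [e1, S5]

lemma S6 (a b c d e f : ℕ) : S P6 (V a b c d e f) = A6 qK tK b c d e f := by
  unfold P6 A6
  rw [(has_Wf (by decide)).step' (suf_dl (by decide)) _ _ f ?_]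
  · apply sumTo_congr
    intro k hk
    have e1 : V a b c d e f - (k : ℤ) • dl 1 5 = V a (b + k) c d e (f - k) := by
      funext r
      simp only [Pi.sub_apply, Pi.smul_apply, smul_eq_mul, dl, dz]
      fin_cases r <;> simp [V] <;> omega
    rw [e1, (has_Wf (by decide)).step' (suf_dl (by decide)) _ _ (f - k) ?_]
    · congr 1
      apply sumTo_congr
      intro k' hk'
      have e1 : V a (b + k) c d e (f - k) - (k' : ℤ) • dl 2 5 =
          V a (b + k) (c + k') d e (f - k - k') := by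
        funext r
        simp only [Pi.sub_apply, Pi.smul_apply, smul_eq_mul, dl, dz]
        fin_cases r <;> simp [V] <;> omega
      rw [e1, (has_Wf (by decide)).step' (suf_dl (by decide)) _ _ (f - k - k') ?_]
      · congr 1
        apply sumTo_congr
        intro k'' hk''
        have e1 : V a (b + k) (c + k') d e (f - k - k') - (k'' : ℤ) • dl 3 5 =
            V a (b + k) (c + k') (d + k'') e (f - k - k' - k'') := by
          funext r
          simp only [Pi.sub_apply, Pi.smul_apply, smul_eq_mul, dl, dz]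
          fin_cases r <;> simp [V] <;> omega
        rw [e1, (has_Wa (by decide)).step' (suf_dl (by decide)) _ _ (f - k - k' - k'') ?_]
        · congr 1
          apply sumTo_congr
          intro k3 hk3
          have e1 : V a (b + k) (c + k') (d + k'') e (f - k - k' - k'') - (k3 : ℤ) • dl 4 5 =
              V a (b + k) (c + k') (d + k'') (e + k3) (f - k - k' - k'' - k3) := by
            funext r
            simp only [Pi.sub_apply, Pi.smul_apply, smul_eq_mul, dl, dz]
            fin_cases r <;> simp [V] <;> omega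
          rw [e1, S6z]
        · simp [suf, V, Fin.sum_univ_six]
      · simp [suf, V, Fin.sum_univ_six]
    · simp [suf, V, Fin.sum_univ_six]
  · simp [suf, V, Fin.sum_univ_six]

end Pool.Agent.H67.QTFiber
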