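import Pool.Agent.H67.QTSeq

/-!
Kernel evaluation of `A6` at two integer points, and the digit argument.
-/

namespace Pool.Agent.H67.QTFiber

open Finset

namespace Z
/-- integer copies, for fast kernel evaluation -/
def sumTo (f : ℕ → ℤ) : ℕ → ℤ
  | 0 => f 0
  | n+1 => sumTo f n + f (n+1)
/-- integer copy -/
def hh (q t : ℤ) : ℕ → ℤ
  | 0 => 1
  | n+1 => q * hh q t n + t^(n+1)
/-- integer copy -/
def wa (q t : ℤ) : ℕ → ℤ
  | 0 => 1
  | n+1 => hh q t (n+1) - hh q t n
/-- integer copy -/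
def WW (q t : ℤ) : ℕ → ℤ
  | 0 => 1
  | n+1 => hh q t (n+1) - q*t*hh q t n
/-- integer copy -/
def ww (q t : ℤ) : ℕ → ℤ
  | 0 => 1
  | n+1 => WW q t (n+1) - WW q t n
/-- integer copy -/
def A3 (q t : ℤ) (n2 n3 : ℕ) : ℤ :=
  sumTo (fun k => wa q t k * (WW q t (n3-k) * hh q t (n2+k))) n3
/-- integer copy -/
def A4 (q t : ℤ) (n2 n3 n4 : ℕ) : ℤ :=
  sumTo (fun k2 => ww q t k2 * sumTo (fun k3 => wa q t k3 * (WW q t (n4-k2-k3) *
    A3 q t (n2+k2) (n3+k3))) (n4-k2)) n4
/-- integer copy -/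
def A5 (q t : ℤ) (n2 n3 n4 n5 : ℕ) : ℤ :=
  sumTo (fun k2 => ww q t k2 * sumTo (fun k3 => ww q t k3 * sumTo (fun k4 => wa q t k4 *
    (WW q t (n5-k2-k3-k4) * A4 q t (n2+k2) (n3+k3) (n4+k4))) (n5-k2-k3)) (n5-k2)) n5
/-- integer copy -/
def A6 (q t : ℤ) (n2 n3 n4 n5 n6 : ℕ) : ℤ :=
  sumTo (fun k2 => ww q t k2 * sumTo (fun k3 => ww q t k3 * sumTo (fun k4 => ww q t k4 *
    sumTo (fun k5 => wa q t k5 * (WW q t (n6-k2-k3-k4-k5) *
      A5 q t (n2+k2) (n3+k3) (n4+k4) (n5+k5))) (n6-k2-k3-k4)) (n6-k2-k3)) (n6-k2)) n6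

lemma sumTo_eq (f : ℕ → ℤ) (n : ℕ) : Z.sumTo f n = QTFiber.sumTo f n := by
  induction n with
  | zero => rfl
  | succ n ih => rw [sumTo, ih, QTFiber.sumTo]

lemma hh_eq (q t : ℤ) (n : ℕ) : Z.hh q t n = QTFiber.hh q t n := by
  induction n with
  | zero => rfl
  | succ n ih => rw [hh, ih, QTFiber.hh]

lemma wa_eq (q t : ℤ) (n : ℕ) : Z.wa q t n = QTFiber.wa q t n := by
  cases n with
  | zero => rfl
  | succ n => rw [wa, hh_eq, hh_eq, QTFiber.wa]

lemma WW_eq (q t : ℤ) (n : ℕ) : Z.WW q t n = QTFiber.WW q t n := by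
  cases n with
  | zero => rfl
  | succ n => rw [WW, hh_eq, hh_eq, QTFiber.WW]

lemma ww_eq (q t : ℤ) (n : ℕ) : Z.ww q t n = QTFiber.ww q t n := by
  cases n with
  | zero => rfl
  | succ n => rw [ww, WW_eq, WW_eq, QTFiber.ww]

lemma A3_eq (q t : ℤ) (a b : ℕ) : Z.A3 q t a b = QTFiber.A3 q t a b := by
  simp only [A3, QTFiber.A3, sumTo_eq, hh_eq, wa_eq, WW_eq]

lemma A4_eq (q t : ℤ) (a b c : ℕ) : Z.A4 q t a b c = QTFiber.A4 q t a b c := by
  simp only [A4, QTFiber.A4, sumTo_eq, wa_eq, WW_eq, ww_eq, A3_eq]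

lemma A5_eq (q t : ℤ) (a b c d : ℕ) : Z.A5 q t a b c d = QTFiber.A5 q t a b c d := by
  simp only [A5, QTFiber.A5, sumTo_eq, wa_eq, WW_eq, ww_eq, A4_eq]

lemma A6_eq (q t : ℤ) (a b c d e : ℕ) : Z.A6 q t a b c d e = QTFiber.A6 q t a b c d e := by
  simp only [A6, QTFiber.A6, sumTo_eq, wa_eq, WW_eq, ww_eq, A5_eq]

end Z

set_option maxRecDepth 100000 in
lemma evalOneZ : Z.A6 1 1 18 7 7 2 2 = 35611 := by decide +kernel

set_option maxRecDepth 100000 in
lemma evalBigZ : (Z.A6 (2^16) (2^1152) 18 7 7 2 2) / 2^(16*1825) % 2^16 = 65535 := by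
  decide +kernel

lemma evalOne : A6 (1 : ℤ) 1 18 7 7 2 2 = 35611 := by
  rw [← Z.A6_eq]; exact evalOneZ

lemma evalBig : (A6 ((2 : ℤ)^16) (2^1152) 18 7 7 2 2) / 2^(16*1825) % 2^16 = 65535 := by
  rw [← Z.A6_eq]; exact evalBigZ

/-- Digit argument: a combination of powers of `B` with nonnegative coefficients of total less
than `B` has all its base-`B` digits at most that total. -/
lemma digit_le {ι : Type*} (s : Finset ι) (c : ι → ℤ) (e : ι → ℕ) (hc : ∀ i ∈ s, 0 ≤ c i)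
    (B : ℤ) (hB : 1 < B) (hs : ∑ i ∈ s, c i < B) (E : ℕ) :
    (∑ i ∈ s, c i * B ^ e i) / B ^ E % B ≤ ∑ i ∈ s, c i := by
  classical
  have hB0 : 0 < B := by linarith
  -- split
  have h1 : ∑ i ∈ s, c i * B ^ e i =
      (∑ i ∈ s with e i < E, c i * B ^ e i) +
      B ^ E * ((∑ i ∈ s with e i = E, c i) +
        B * ∑ i ∈ s with E < e i, c i * B ^ (e i - E - 1)) := by
    rw [mul_add, mul_sum, mul_sum, mul_sum, sum_filter, sum_filter, sum_filter, ← sum_add_distrib,
      ← sum_add_distrib]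
    apply sum_congr rfl
    intro i _
    rcases lt_trichotomy (e i) E with h | h | h
    · rw [if_pos h, if_neg (by omega), if_neg (by omega)]
      ring
    · rw [if_neg (by omega), if_pos h, if_neg (by omega), h]
      ring
    · rw [if_neg (by omega), if_neg (by omega), if_pos h]
      have : e i = E + 1 + (e i - E - 1) := by omega
      conv_lhs => rw [this]
      rw [pow_add, pow_add]
      ring
  have h2 : 0 ≤ ∑ i ∈ s with e i < E, c i * B ^ e i := by
    apply sum_nonneg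
    intro i hi
    exact mul_nonneg (hc i (mem_filter.mp hi).1) (by positivity)
  have h3 : ∑ i ∈ s with e i < E, c i * B ^ e i < B ^ E := by
    rcases Nat.eq_zero_or_pos E with hE | hE
    · subst hE
      simp
    · have h4 : ∑ i ∈ s with e i < E, c i * B ^ e i ≤ ∑ i ∈ s, c i * B ^ (E - 1) := by
        calc ∑ i ∈ s with e i < E, c i * B ^ e i
            ≤ ∑ i ∈ s with e i < E, c i * B ^ (E - 1) := by
              apply sum_le_sum
              intro i hi
              obtain ⟨hi1, hi2⟩ := mem_filter.mp hi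
              apply mul_le_mul_of_nonneg_left _ (hc i hi1)
              exact pow_le_pow_right₀ hB.le (by omega)
          _ ≤ _ := by
              apply sum_le_sum_of_subset_of_nonneg (filter_subset _ _)
              intro i hi _
              exact mul_nonneg (hc i hi) (by positivity)
      rw [← sum_mul] at h4
      have h5 : (∑ i ∈ s, c i) * B ^ (E - 1) < B * B ^ (E - 1) :=
        mul_lt_mul_of_pos_right hs (by positivity)
      have h6 : B * B ^ (E - 1) = B ^ E := by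
        rw [← pow_succ', Nat.sub_add_cancel hE]
      linarith
  have h4 : 0 ≤ ∑ i ∈ s with e i = E, c i := by
    apply sum_nonneg
    intro i hi
    exact hc i (mem_filter.mp hi).1
  have h5 : ∑ i ∈ s with e i = E, c i ≤ ∑ i ∈ s, c i := by
    apply sum_le_sum_of_subset_of_nonneg (filter_subset _ _)
    intro i hi _
    exact hc i hi
  rw [h1, Int.add_mul_ediv_left _ _ (by positivity), Int.ediv_eq_zero_of_lt h2 h3, zero_add,
    Int.add_mul_emod_self_left, Int.emod_eq_of_lt h4 (lt_of_le_of_lt h5 hs)]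
  exact h5

/-- `A6` over the polynomial ring has a negative coefficient at `(18,7,7,2,2)`. -/
theorem exists_neg : ∃ m : Fin 2 →₀ ℕ, MvPolynomial.coeff m
    (A6 (MvPolynomial.X 0 : MvPolynomial (Fin 2) ℤ) (MvPolynomial.X 1) 18 7 7 2 2) < 0 := by
  by_contra hcon
  push Not at hcon
  set P := A6 (MvPolynomial.X 0 : MvPolynomial (Fin 2) ℤ) (MvPolynomial.X 1) 18 7 7 2 2 with hP
  have ev : ∀ x y : ℤ, MvPolynomial.eval ![x, y] P = A6 x y 18 7 7 2 2 := by
    intro x y
    rw [hP, map_A6]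
    simp
  have e1 : ∑ m ∈ P.support, P.coeff m = 35611 := by
    rw [← evalOne, ← ev, MvPolynomial.eval_eq']
    apply sum_congr rfl
    intro m _
    simp
  have e2 : ∑ m ∈ P.support, P.coeff m * ((2 : ℤ)^16) ^ (m 0 + 72 * m 1) =
      A6 ((2 : ℤ)^16) (2^1152) 18 7 7 2 2 := by
    rw [← ev, MvPolynomial.eval_eq']
    apply sum_congr rfl
    intro m _
    rw [Fin.prod_univ_two]
    simp only [Matrix.cons_val_zero, Matrix.cons_val_one]
    rw [← pow_mul, ← pow_mul, ← pow_mul, ← pow_add]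
    congr 2
    ring
  have h := digit_le P.support (fun m => P.coeff m) (fun m => m 0 + 72 * m 1)
    (fun m _ => hcon m) ((2 : ℤ)^16) (by norm_num) (by rw [e1]; norm_num) 1825
  rw [e1, e2, ← pow_mul, evalBig] at h
  norm_num at h

end Pool.Agent.H67.QTFiber
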