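import Mathlib

/-!
The coefficient sequences and the nested sums `A2, ..., A6`, over a commutative ring.
-/

namespace Pool.Agent.H67.QTFiber


section seq
variable {R : Type*} [CommRing R]

/-- `f 0 + ... + f n`. -/
def sumTo (f : ℕ → R) : ℕ → R
  | 0 => f 0
  | n+1 => sumTo f n + f (n+1)

lemma sumTo_eq (f : ℕ → R) (n : ℕ) : sumTo f n = ∑ k ∈ Finset.range (n + 1), f k := by
  induction n with
  | zero => simp [sumTo]
  | succ n ih => rw [sumTo, ih, Finset.sum_range_succ _ (n + 1)]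

/-- Complete homogeneous sums in `q, t`. -/
def hh (q t : R) : ℕ → R
  | 0 => 1
  | n+1 => q * hh q t n + t^(n+1)

/-- Coefficients of `(1-u)/((1-qu)(1-tu))`. -/
def wa (q t : R) : ℕ → R
  | 0 => 1
  | n+1 => hh q t (n+1) - hh q t n

/-- Coefficients of `(1-qtu)/((1-qu)(1-tu))`. -/
def WW (q t : R) : ℕ → R
  | 0 => 1
  | n+1 => hh q t (n+1) - q*t*hh q t n

/-- Coefficients of `(1-u)(1-qtu)/((1-qu)(1-tu))`. -/
def ww (q t : R) : ℕ → R
  | 0 => 1
  | n+1 => WW q t (n+1) - WW q t n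

lemma sumTo_wa (q t : R) (n : ℕ) : sumTo (wa q t) n = hh q t n := by
  induction n with
  | zero => rfl
  | succ n ih => rw [sumTo, ih, wa]; ring

lemma sumTo_ww (q t : R) (n : ℕ) : sumTo (ww q t) n = WW q t n := by
  induction n with
  | zero => rfl
  | succ n ih => rw [sumTo, ih, ww]; ring

/-- Nested sums. -/
def A3 (q t : R) (n2 n3 : ℕ) : R :=
  sumTo (fun k => wa q t k * (WW q t (n3-k) * hh q t (n2+k))) n3
/-- Nested sums. -/
def A4 (q t : R) (n2 n3 n4 : ℕ) : R :=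
  sumTo (fun k2 => ww q t k2 * sumTo (fun k3 => wa q t k3 * (WW q t (n4-k2-k3) *
    A3 q t (n2+k2) (n3+k3))) (n4-k2)) n4
/-- Nested sums. -/
def A5 (q t : R) (n2 n3 n4 n5 : ℕ) : R :=
  sumTo (fun k2 => ww q t k2 * sumTo (fun k3 => ww q t k3 * sumTo (fun k4 => wa q t k4 *
    (WW q t (n5-k2-k3-k4) * A4 q t (n2+k2) (n3+k3) (n4+k4))) (n5-k2-k3)) (n5-k2)) n5
/-- Nested sums. -/
def A6 (q t : R) (n2 n3 n4 n5 n6 : ℕ) : R :=
  sumTo (fun k2 => ww q t k2 * sumTo (fun k3 => ww q t k3 * sumTo (fun k4 => ww q t k4 *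
    sumTo (fun k5 => wa q t k5 * (WW q t (n6-k2-k3-k4-k5) *
      A5 q t (n2+k2) (n3+k3) (n4+k4) (n5+k5))) (n6-k2-k3-k4)) (n6-k2-k3)) (n6-k2)) n6

section hom
variable {R' : Type*} [CommRing R'] (φ : R →+* R')

lemma map_sumTo (f : ℕ → R) (n : ℕ) : φ (sumTo f n) = sumTo (fun k => φ (f k)) n := by
  induction n with
  | zero => rfl
  | succ n ih => rw [sumTo, map_add, ih, sumTo]

lemma map_hh (q t : R) (n : ℕ) : φ (hh q t n) = hh (φ q) (φ t) n := by
  induction n with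
  | zero => simp [hh]
  | succ n ih => simp [hh, ih]

lemma map_wa (q t : R) (n : ℕ) : φ (wa q t n) = wa (φ q) (φ t) n := by
  cases n with
  | zero => simp [wa]
  | succ n => simp [wa, map_hh]

lemma map_WW (q t : R) (n : ℕ) : φ (WW q t n) = WW (φ q) (φ t) n := by
  cases n with
  | zero => simp [WW]
  | succ n => simp [WW, map_hh]

lemma map_ww (q t : R) (n : ℕ) : φ (ww q t n) = ww (φ q) (φ t) n := by
  cases n with
  | zero => simp [ww]
  | succ n => simp [ww, map_WW]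

lemma map_A3 (q t : R) (n2 n3 : ℕ) : φ (A3 q t n2 n3) = A3 (φ q) (φ t) n2 n3 := by
  simp only [A3, map_sumTo, map_mul, map_hh, map_wa, map_WW]

lemma map_A4 (q t : R) (n2 n3 n4 : ℕ) : φ (A4 q t n2 n3 n4) = A4 (φ q) (φ t) n2 n3 n4 := by
  simp only [A4, map_sumTo, map_mul, map_A3, map_wa, map_WW, map_ww]

lemma map_A5 (q t : R) (n2 n3 n4 n5 : ℕ) :
    φ (A5 q t n2 n3 n4 n5) = A5 (φ q) (φ t) n2 n3 n4 n5 := by
  simp only [A5, map_sumTo, map_mul, map_A4, map_wa, map_WW, map_ww]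

lemma map_A6 (q t : R) (n2 n3 n4 n5 n6 : ℕ) :
    φ (A6 q t n2 n3 n4 n5 n6) = A6 (φ q) (φ t) n2 n3 n4 n5 n6 := by
  simp only [A6, map_sumTo, map_mul, map_A5, map_wa, map_WW, map_ww]

end hom

section ps
open PowerSeries

lemma ps_geom (t : R) : (1 - C t * X) * (PowerSeries.mk (fun n => t ^ n) : PowerSeries R) = 1 := by
  ext n
  rw [sub_mul, one_mul, mul_assoc, map_sub, coeff_C_mul, coeff_one]
  cases n with
  | zero => simp
  | succ n =>
    rw [coeff_succ_X_mul]
    simp [pow_succ, mul_comm]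

lemma ps_hh' (q t : R) : (1 - C q * X) * (PowerSeries.mk (hh q t) : PowerSeries R) =
    PowerSeries.mk (fun n => t ^ n) := by
  ext n
  rw [sub_mul, one_mul, mul_assoc, map_sub, coeff_C_mul]
  cases n with
  | zero => simp [hh]
  | succ n =>
    rw [coeff_succ_X_mul]
    simp [hh]

lemma ps_hh (q t : R) :
    (PowerSeries.mk (fun n => q ^ n) : PowerSeries R) * PowerSeries.mk (fun n => t ^ n) = PowerSeries.mk (hh q t) := by
  have h1 := ps_hh' q t
  have h2 := ps_geom q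
  rw [← h1, ← mul_assoc, mul_comm (PowerSeries.mk fun n => q ^ n) (1 - C q * X), h2, one_mul]

lemma ps_wa (q t : R) : (1 - X) * (PowerSeries.mk (hh q t) : PowerSeries R) = PowerSeries.mk (wa q t) := by
  ext n
  rw [sub_mul, one_mul, map_sub]
  cases n with
  | zero => simp [hh, wa]
  | succ n =>
    rw [coeff_succ_X_mul]
    simp [wa]

lemma ps_WW (q t : R) : (1 - C (q * t) * X) * (PowerSeries.mk (hh q t) : PowerSeries R) = PowerSeries.mk (WW q t) := by
  ext n
  rw [sub_mul, one_mul, mul_assoc, map_sub, coeff_C_mul]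
  cases n with
  | zero => simp [hh, WW]
  | succ n =>
    rw [coeff_succ_X_mul]
    simp [WW]

lemma ps_ww (q t : R) : (1 - X) * (PowerSeries.mk (WW q t) : PowerSeries R) = PowerSeries.mk (ww q t) := by
  ext n
  rw [sub_mul, one_mul, map_sub]
  cases n with
  | zero => simp [WW, ww]
  | succ n =>
    rw [coeff_succ_X_mul]
    simp [ww]

end ps
end seq

end Pool.Agent.H67.QTFiber
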