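import Pool.Agent.H67.QTLine
import Pool.Agent.H67.QTSeq

/-!
The factors of the product as operators on fibre sums.
-/

namespace Pool.Agent.H67.QTFiber

open Finset

variable {l : ℕ}

/-- Variables. -/
noncomputable abbrev Qv (l : ℕ) : MvPowerSeries (Sg l) ℤ := MvPowerSeries.X (Sum.inl 0)
noncomputable abbrev Tv (l : ℕ) : MvPowerSeries (Sg l) ℤ := MvPowerSeries.X (Sum.inl 1)
noncomputable abbrev Uv (i j : Fin l) : MvPowerSeries (Sg l) ℤ :=
  MvPowerSeries.X (Sum.inr (Sum.inr (i, j)))
noncomputable abbrev Zv (i : Fin l) : MvPowerSeries (Sg l) ℤ := MvPowerSeries.X (Sum.inr (Sum.inl i))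

/-- `ε_i - ε_j`. -/
def dl (i j : Fin l) : Fin l → ℤ := fun r => (if r = i then 1 else 0) - (if r = j then 1 else 0)
/-- `-ε_j`. -/
def dz (j : Fin l) : Fin l → ℤ := fun r => -(if r = j then 1 else 0)

lemma suf_single (j i : Fin l) : suf j (fun r => if r = i then (1 : ℤ) else 0) =
    if j ≤ i then 1 else 0 := by
  unfold suf
  rw [sum_eq_single i]
  · simp
  · intro b _ hb
    simp [hb]
  · simp

lemma suf_dl {i j : Fin l} (hij : i < j) : suf j (dl i j) = -1 := by
  have h := suf_sub j (fun r => if r = i then (1 : ℤ) else 0) (fun r => if r = j then (1 : ℤ) else 0)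
  rw [suf_single, suf_single] at h
  have h2 : ¬ j ≤ i := not_le.mpr hij
  simp only [h2, if_false, le_refl, if_true] at h
  exact h

lemma suf_dz (j : Fin l) : suf j (dz j) = -1 := by
  have h := suf_sub j 0 (fun r => if r = j then (1 : ℤ) else 0)
  rw [suf_single] at h
  simp only [zero_sub, le_refl, if_true] at h
  have h0 : suf j (0 : Fin l → ℤ) = 0 := by simp [suf]
  rw [h0] at h
  exact h

/-- The exponent of `U i j`. -/
noncomputable def eU (i j : Fin l) : Sg l →₀ ℕ := Finsupp.single (Sum.inr (Sum.inr (i, j))) 1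
/-- The exponent of `Z i`. -/
noncomputable def eZ (i : Fin l) : Sg l →₀ ℕ := Finsupp.single (Sum.inr (Sum.inl i)) 1
/-- The exponent of a `q,t` variable. -/
noncomputable def eQ (l : ℕ) (x : Fin 2) : Sg l →₀ ℕ := Finsupp.single (Sum.inl x) 1

lemma good_eU {i j : Fin l} (hij : i < j) : good (eU i j) := by
  intro a b hab
  simp only [eU, Finsupp.single_apply]
  rw [if_neg]
  simp only [Sum.inr.injEq, Prod.mk.injEq, not_and]
  rintro rfl rfl
  exact hab hij

lemma good_eZ (i : Fin l) : good (eZ i) := by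
  intro a b _
  simp [eZ]

lemma good_eQ (x : Fin 2) : good (eQ l x) := by
  intro a b _
  simp [eQ]

lemma good_add {α β : Sg l →₀ ℕ} (h1 : good α) (h2 : good β) : good (α + β) := by
  intro a b hab
  simp [h1 a b hab, h2 a b hab]

lemma flow_eU {i j : Fin l} (hij : i < j) : flow (eU i j) = dl i j := by
  funext r
  unfold flow dl eU
  simp only [Finsupp.single_apply, Sum.inr.injEq, Prod.mk.injEq, reduceCtorEq, if_false,
    Nat.cast_ite, Nat.cast_one, Nat.cast_zero, sub_zero]
  congr 1
  · rw [sum_eq_single j]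
    · by_cases h : r = i
      · subst h; simp [hij]
      · simp [h, Ne.symm h]
    · intro b _ hb
      simp [Ne.symm hb]
    · simp
  · rw [sum_eq_single i]
    · by_cases h : r = j
      · subst h; simp [hij]
      · simp [h, Ne.symm h]
    · intro b _ hb
      simp [Ne.symm hb]
    · simp

lemma flow_eZ (i : Fin l) : flow (eZ i) = dz i := by
  funext r
  unfold flow dz eZ
  by_cases h : r = i
  · subst h; simp
  · simp [h]

lemma flow_eQ (x : Fin 2) : flow (eQ l x) = 0 := by
  funext r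
  unfold flow eQ
  simp

lemma qt_eU (i j : Fin l) : qt (eU i j) = 0 := by
  ext x; rw [qt_apply]; simp [eU]

lemma qt_eZ (i : Fin l) : qt (eZ i) = 0 := by
  ext x; rw [qt_apply]; simp [eZ]

lemma qt_eQ (x : Fin 2) : qt (eQ l x) = Finsupp.single x 1 := by
  ext y; rw [qt_apply]; simp [eQ, Finsupp.single_apply]

lemma qt_add (α β : Sg l →₀ ℕ) : qt (α + β) = qt α + qt β := by
  ext x; simp [qt_apply]

/-- `q` and `t` in the coefficient ring. -/
noncomputable abbrev qK : KK := MvPowerSeries.X 0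
noncomputable abbrev tK : KK := MvPowerSeries.X 1

open PowerSeries in
lemma has_U {i j : Fin l} (hij : i < j) : Has j (dl i j) (1 - Uv i j) (1 - (X : PowerSeries KK)) := by
  have h := has_one_sub (j := j) (eU i j) (good_eU hij) (flow_eU hij)
  rw [qt_eU] at h
  have e : (MvPowerSeries.monomial (0 : Fin 2 →₀ ℕ) (1 : ℤ) : KK) = 1 := rfl
  rw [e, show (C (1 : KK) : PowerSeries KK) = 1 from map_one _, one_mul] at h
  exact h

open PowerSeries in
lemma has_Z (i : Fin l) : Has i (dz i) (1 - Zv i) (1 - (X : PowerSeries KK)) := by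
  have h := has_one_sub (j := i) (eZ i) (good_eZ i) (flow_eZ i)
  rw [qt_eZ] at h
  have e : (MvPowerSeries.monomial (0 : Fin 2 →₀ ℕ) (1 : ℤ) : KK) = 1 := rfl
  rw [e, show (C (1 : KK) : PowerSeries KK) = 1 from map_one _, one_mul] at h
  exact h

open PowerSeries in
lemma has_QU {i j : Fin l} (hij : i < j) :
    Has j (dl i j) (1 - Qv l * Uv i j) (1 - C qK * (X : PowerSeries KK)) := by
  have h := has_one_sub (j := j) (δ := dl i j) (eQ l 0 + eU i j) (good_add (good_eQ 0) (good_eU hij))
    (by rw [flow_add, flow_eQ, zero_add]; exact flow_eU hij)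
  rw [qt_add, qt_eU, qt_eQ, add_zero] at h
  have e : Qv l * Uv i j = MvPowerSeries.monomial (eQ l 0 + eU i j) (1 : ℤ) := by
    unfold Qv Uv eQ eU
    rw [MvPowerSeries.X, MvPowerSeries.X, MvPowerSeries.monomial_mul_monomial, mul_one]
  rw [e]
  exact h

open PowerSeries in
lemma has_TU {i j : Fin l} (hij : i < j) :
    Has j (dl i j) (1 - Tv l * Uv i j) (1 - C tK * (X : PowerSeries KK)) := by
  have h := has_one_sub (j := j) (δ := dl i j) (eQ l 1 + eU i j) (good_add (good_eQ 1) (good_eU hij))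
    (by rw [flow_add, flow_eQ, zero_add]; exact flow_eU hij)
  rw [qt_add, qt_eU, qt_eQ, add_zero] at h
  have e : Tv l * Uv i j = MvPowerSeries.monomial (eQ l 1 + eU i j) (1 : ℤ) := by
    unfold Tv Uv eQ eU
    rw [MvPowerSeries.X, MvPowerSeries.X, MvPowerSeries.monomial_mul_monomial, mul_one]
  rw [e]
  exact h

open PowerSeries in
lemma has_QTU {i j : Fin l} (hij : i < j) :
    Has j (dl i j) (1 - Qv l * Tv l * Uv i j) (1 - C (qK * tK) * (X : PowerSeries KK)) := by
  have h := has_one_sub (j := j) (δ := dl i j) (eQ l 0 + eQ l 1 + eU i j)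
    (good_add (good_add (good_eQ 0) (good_eQ 1)) (good_eU hij))
    (by rw [flow_add, flow_add, flow_eQ, flow_eQ, zero_add, zero_add]; exact flow_eU hij)
  rw [qt_add, qt_add, qt_eU, qt_eQ, qt_eQ, add_zero] at h
  have e : Qv l * Tv l * Uv i j = MvPowerSeries.monomial (eQ l 0 + eQ l 1 + eU i j) (1 : ℤ) := by
    unfold Qv Tv Uv eQ eU
    rw [MvPowerSeries.X, MvPowerSeries.X, MvPowerSeries.X, MvPowerSeries.monomial_mul_monomial,
      MvPowerSeries.monomial_mul_monomial, mul_one, mul_one]
  have e2 : qK * tK = MvPowerSeries.monomial (Finsupp.single 0 1 + Finsupp.single 1 1) (1 : ℤ) := by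
    unfold qK tK
    rw [MvPowerSeries.X, MvPowerSeries.X, MvPowerSeries.monomial_mul_monomial, mul_one]
  rw [e, e2]
  exact h

lemma mul_inv_one_sub (M : MvPowerSeries (Sg l) ℤ) (hM : MvPowerSeries.constantCoeff M = 0) :
    (1 - M) * MvPowerSeries.invOfUnit (1 - M) 1 = 1 := by
  apply MvPowerSeries.mul_invOfUnit
  simp [hM]

/-- The non-adjacent pair factor. -/
noncomputable def Wf (i j : Fin l) : MvPowerSeries (Sg l) ℤ :=
  (1 - Uv i j) * (1 - Qv l * Tv l * Uv i j)
                * MvPowerSeries.invOfUnit (1 - Qv l * Uv i j) 1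
                * MvPowerSeries.invOfUnit (1 - Tv l * Uv i j) 1

/-- The extra factor for adjacent pairs. -/
noncomputable def If (i j : Fin l) : MvPowerSeries (Sg l) ℤ :=
  MvPowerSeries.invOfUnit (1 - Qv l * Tv l * Uv i j) 1

/-- The factor of `Z i`. -/
noncomputable def Zf (i : Fin l) : MvPowerSeries (Sg l) ℤ :=
  MvPowerSeries.invOfUnit (1 - Zv i) 1

open PowerSeries in
lemma has_Wf {i j : Fin l} (hij : i < j) : Has j (dl i j) (Wf i j) (mk (ww qK tK)) := by
  have h1 := has_U hij
  have h2 := has_QTU hij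
  have h3 := (has_QU hij).inv (mul_inv_one_sub (Qv l * Uv i j) (by simp)) (ps_geom qK)
  have h4 := (has_TU hij).inv (mul_inv_one_sub (Tv l * Uv i j) (by simp)) (ps_geom tK)
  have h := ((h1.mul h2).mul h3).mul h4
  have e : (1 - (X : PowerSeries KK)) * (1 - C (qK * tK) * (X : PowerSeries KK)) *
      mk (fun n => qK ^ n) * mk (fun n => tK ^ n) = mk (ww qK tK) := by
    rw [mul_assoc, ps_hh, mul_assoc, ps_WW, ps_ww]
  rw [e] at h
  exact h

open PowerSeries in
lemma has_Wa {i j : Fin l} (hij : i < j) : Has j (dl i j) (Wf i j * If i j) (mk (wa qK tK)) := by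
  have h1 := has_U hij
  have h3 := (has_QU hij).inv (mul_inv_one_sub (Qv l * Uv i j) (by simp)) (ps_geom qK)
  have h4 := (has_TU hij).inv (mul_inv_one_sub (Tv l * Uv i j) (by simp)) (ps_geom tK)
  have h := (h1.mul h3).mul h4
  have e : (1 - (X : PowerSeries KK)) *
      mk (fun n => qK ^ n) * mk (fun n => tK ^ n) = mk (wa qK tK) := by
    rw [mul_assoc, ps_hh, ps_wa]
  rw [e] at h
  have e2 : Wf i j * If i j = (1 - Uv i j) * MvPowerSeries.invOfUnit (1 - Qv l * Uv i j) 1
                * MvPowerSeries.invOfUnit (1 - Tv l * Uv i j) 1 := by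
    unfold Wf If
    have h5 := mul_inv_one_sub (Qv l * Tv l * Uv i j) (by simp)
    linear_combination ((1 - Uv i j) * MvPowerSeries.invOfUnit (1 - Qv l * Uv i j) 1
                * MvPowerSeries.invOfUnit (1 - Tv l * Uv i j) 1) * h5
  rw [e2]
  exact h

open PowerSeries in
lemma has_Zf (i : Fin l) : Has i (dz i) (Zf i) (mk (fun _ => 1)) := by
  have e := ps_geom (1 : KK)
  rw [map_one, one_mul] at e
  simp only [one_pow] at e
  exact (has_Z i).inv (mul_inv_one_sub (Zv i) (by simp)) e

end Pool.Agent.H67.QTFiber
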