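import Mathlib

/-!
Fibre sums of power series: the coefficient extraction underlying the generalized q,t-Catalan
numbers.
-/

namespace Pool.Agent.H67.QTFiber

open Finset

/-- Index type of the variables. -/
abbrev Sg (l : ℕ) : Type := Fin 2 ⊕ (Fin l ⊕ (Fin l × Fin l))

variable {l : ℕ}

/-- The `z`-degree of an exponent. -/
def flow (α : Sg l →₀ ℕ) (r : Fin l) : ℤ :=
  (∑ j : Fin l, if r < j then (α (Sum.inr (Sum.inr (r, j))) : ℤ) else 0)
    - (∑ i : Fin l, if i < r then (α (Sum.inr (Sum.inr (i, r))) : ℤ) else 0)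
    - (α (Sum.inr (Sum.inl r)) : ℤ)

lemma flow_add (α β : Sg l →₀ ℕ) : flow (α + β) = flow α + flow β := by
  funext r
  have h1 : ∀ (P : Fin l → Prop) [DecidablePred P] (f g : Fin l → ℕ),
      (∑ j : Fin l, if P j then ((f j + g j : ℕ) : ℤ) else 0) =
        (∑ j : Fin l, if P j then (f j : ℤ) else 0) + ∑ j : Fin l, if P j then (g j : ℤ) else 0 := by
    intro P _ f g
    rw [← sum_add_distrib]
    apply sum_congr rfl
    intro j _
    by_cases h : P j <;> simp [h]
  simp only [flow, Finsupp.add_apply, Pi.add_apply]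
  rw [h1 (fun j => r < j), h1 (fun i => i < r)]
  push_cast
  ring

lemma flow_zero : flow (0 : Sg l →₀ ℕ) = 0 := by
  funext r
  simp [flow]

/-- Exponents not involving the variables `U i j` with `j ≤ i`. -/
def good (α : Sg l →₀ ℕ) : Prop := ∀ i j : Fin l, ¬ i < j → α (Sum.inr (Sum.inr (i, j))) = 0

/-- Suffix sums. -/
def suf (j : Fin l) (v : Fin l → ℤ) : ℤ := ∑ r : Fin l, if j ≤ r then v r else 0

lemma suf_add (j : Fin l) (v w : Fin l → ℤ) : suf j (v + w) = suf j v + suf j w := by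
  simp only [suf, Pi.add_apply]
  rw [← sum_add_distrib]
  apply sum_congr rfl
  intro r _
  by_cases h : j ≤ r <;> simp [h]

lemma suf_sub (j : Fin l) (v w : Fin l → ℤ) : suf j (v - w) = suf j v - suf j w := by
  have := suf_add j (v - w) w
  rw [sub_add_cancel] at this
  linarith

lemma neg_suf_flow (α : Sg l →₀ ℕ) (j : Fin l) :
    -suf j (flow α) = (∑ a : Fin l, ∑ b : Fin l,
      if a < j ∧ j ≤ b then (α (Sum.inr (Sum.inr (a, b))) : ℤ) else 0) +
      ∑ r : Fin l, if j ≤ r then (α (Sum.inr (Sum.inl r)) : ℤ) else 0 := by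
  have e1 : suf j (flow α) =
      (∑ a : Fin l, ∑ b : Fin l,
        if j ≤ a ∧ a < b then (α (Sum.inr (Sum.inr (a, b))) : ℤ) else 0) -
      (∑ b : Fin l, ∑ a : Fin l,
        if j ≤ b ∧ a < b then (α (Sum.inr (Sum.inr (a, b))) : ℤ) else 0) -
      ∑ r : Fin l, if j ≤ r then (α (Sum.inr (Sum.inl r)) : ℤ) else 0 := by
    unfold suf flow
    rw [← sum_sub_distrib, ← sum_sub_distrib]
    apply sum_congr rfl
    intro r _
    by_cases h : j ≤ r
    · simp [h]
    · simp [h]
  rw [e1]
  rw [sum_comm (f := fun b a => if j ≤ b ∧ a < b then (α (Sum.inr (Sum.inr (a, b))) : ℤ) else 0)]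
  have e2 : ∀ a b : Fin l,
      (if j ≤ b ∧ a < b then (α (Sum.inr (Sum.inr (a, b))) : ℤ) else 0) =
      (if j ≤ a ∧ a < b then (α (Sum.inr (Sum.inr (a, b))) : ℤ) else 0) +
      (if a < j ∧ j ≤ b then (α (Sum.inr (Sum.inr (a, b))) : ℤ) else 0) := by
    intro a b
    by_cases h1 : j ≤ a
    · by_cases h2 : a < b
      · have h3 : j ≤ b := h1.trans h2.le
        have h4 : ¬ a < j := not_lt.mpr h1
        simp [h1, h2, h3, h4]
      · have h4 : ¬ a < j := not_lt.mpr h1
        simp [h2, h4]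
    · have h1' : a < j := not_le.mp h1
      by_cases h2 : j ≤ b
      · have h3 : a < b := lt_of_lt_of_le h1' h2
        simp [h1, h1', h2, h3]
      · simp [h1, h2]
  simp only [e2, sum_add_distrib]
  ring

lemma suf_flow_le (α : Sg l →₀ ℕ) (j : Fin l) : suf j (flow α) ≤ 0 := by
  have h := neg_suf_flow α j
  have h1 : 0 ≤ (∑ a : Fin l, ∑ b : Fin l,
      if a < j ∧ j ≤ b then (α (Sum.inr (Sum.inr (a, b))) : ℤ) else 0) := by
    apply sum_nonneg; intro a _
    apply sum_nonneg; intro b _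
    split_ifs <;> simp
  have h2 : 0 ≤ ∑ r : Fin l, if j ≤ r then (α (Sum.inr (Sum.inl r)) : ℤ) else 0 := by
    apply sum_nonneg; intro a _
    split_ifs <;> simp
  linarith

lemma u_le (α : Sg l →₀ ℕ) (i j : Fin l) (hij : i < j) :
    (α (Sum.inr (Sum.inr (i, j))) : ℤ) ≤ -suf j (flow α) := by
  rw [neg_suf_flow α j]
  have h1 : (α (Sum.inr (Sum.inr (i, j))) : ℤ) ≤ (∑ a : Fin l, ∑ b : Fin l,
      if a < j ∧ j ≤ b then (α (Sum.inr (Sum.inr (a, b))) : ℤ) else 0) := by
    have e1 : (if i < j ∧ j ≤ j then (α (Sum.inr (Sum.inr (i, j))) : ℤ) else 0) =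
        (α (Sum.inr (Sum.inr (i, j))) : ℤ) := by simp [hij]
    have e2 := single_le_sum (s := (univ : Finset (Fin l)))
      (f := fun b => if i < j ∧ j ≤ b then (α (Sum.inr (Sum.inr (i, b))) : ℤ) else 0)
      (fun b _ => by split_ifs <;> simp) (mem_univ j)
    have e3 := single_le_sum (s := (univ : Finset (Fin l)))
      (f := fun a => ∑ b : Fin l, if a < j ∧ j ≤ b then (α (Sum.inr (Sum.inr (a, b))) : ℤ) else 0)
      (fun a _ => sum_nonneg (fun b _ => by split_ifs <;> simp)) (mem_univ i)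
    rw [← e1]
    exact e2.trans e3
  have h2 : 0 ≤ ∑ r : Fin l, if j ≤ r then (α (Sum.inr (Sum.inl r)) : ℤ) else 0 := by
    apply sum_nonneg; intro a _
    split_ifs <;> simp
  linarith

lemma z_le (α : Sg l →₀ ℕ) (j : Fin l) :
    (α (Sum.inr (Sum.inl j)) : ℤ) ≤ -suf j (flow α) := by
  rw [neg_suf_flow α j]
  have h1 : 0 ≤ (∑ a : Fin l, ∑ b : Fin l,
      if a < j ∧ j ≤ b then (α (Sum.inr (Sum.inr (a, b))) : ℤ) else 0) := by
    apply sum_nonneg; intro a _
    apply sum_nonneg; intro b _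
    split_ifs <;> simp
  have h2 : (α (Sum.inr (Sum.inl j)) : ℤ) ≤
      ∑ r : Fin l, if j ≤ r then (α (Sum.inr (Sum.inl r)) : ℤ) else 0 := by
    have e1 : (if j ≤ j then (α (Sum.inr (Sum.inl j)) : ℤ) else 0) =
        (α (Sum.inr (Sum.inl j)) : ℤ) := by simp
    rw [← e1]
    exact single_le_sum (s := (univ : Finset (Fin l)))
      (f := fun r => if j ≤ r then (α (Sum.inr (Sum.inl r)) : ℤ) else 0)
      (fun b _ => by split_ifs <;> simp) (mem_univ j)
  linarith

/-- The fibre over a `(q,t)`-degree and a `z`-degree. -/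
def Fib (γ : Fin 2 →₀ ℕ) (v : Fin l → ℤ) : Set (Sg l →₀ ℕ) :=
  {α | (∀ x, α (Sum.inl x) = γ x) ∧ good α ∧ flow α = v}

lemma fib_finite (γ : Fin 2 →₀ ℕ) (v : Fin l → ℤ) : (Fib γ v).Finite := by
  classical
  let B : ℕ := (∑ x, γ x) + (∑ j, (-suf j v).toNat)
  apply Set.Finite.subset (Set.finite_Iic
    (Finsupp.equivFunOnFinite.symm (fun _ => B) : Sg l →₀ ℕ))
  intro α hα
  obtain ⟨h1, h2, h3⟩ := hα
  rw [Set.mem_Iic]
  have hsuf : ∀ j, (-suf j v).toNat ≤ B := by
    intro j
    have := single_le_sum (s := (univ : Finset (Fin l))) (f := fun j => (-suf j v).toNat)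
      (fun b _ => Nat.zero_le _) (mem_univ j)
    omega
  intro s
  simp only [Finsupp.equivFunOnFinite_symm_apply_apply]
  rcases s with x | i | ⟨i, j⟩
  · rw [h1 x]
    have := single_le_sum (s := (univ : Finset (Fin 2))) (f := fun x => γ x)
      (fun b _ => Nat.zero_le _) (mem_univ x)
    omega
  · have e1 := z_le α i
    rw [h3] at e1
    have e2 := hsuf i
    omega
  · by_cases hij : i < j
    · have e1 := u_le α i j hij
      rw [h3] at e1
      have e2 := hsuf j
      omega
    · rw [h2 i j hij]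
      exact Nat.zero_le _

/-- The fibre sum, a power series in `q, t`. -/
noncomputable def S (F : MvPowerSeries (Sg l) ℤ) (v : Fin l → ℤ) : MvPowerSeries (Fin 2) ℤ :=
  fun γ => ∑ α ∈ (fib_finite γ v).toFinset, MvPowerSeries.coeff α F

lemma coeff_S (F : MvPowerSeries (Sg l) ℤ) (v : Fin l → ℤ) (γ : Fin 2 →₀ ℕ) :
    MvPowerSeries.coeff γ (S F v) =
      ∑ α ∈ (fib_finite γ v).toFinset, MvPowerSeries.coeff α F := rfl

lemma S_add (F G : MvPowerSeries (Sg l) ℤ) (v : Fin l → ℤ) : S (F + G) v = S F v + S G v := by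
  ext γ
  rw [map_add, coeff_S, coeff_S, coeff_S, ← sum_add_distrib]
  rfl

lemma S_sub (F G : MvPowerSeries (Sg l) ℤ) (v : Fin l → ℤ) : S (F - G) v = S F v - S G v := by
  ext γ
  rw [map_sub, coeff_S, coeff_S, coeff_S, ← sum_sub_distrib]
  rfl

/-- The `(q,t)`-part of an exponent. -/
noncomputable def qt (m : Sg l →₀ ℕ) : Fin 2 →₀ ℕ :=
  Finsupp.equivFunOnFinite.symm (fun x => m (Sum.inl x))

lemma qt_apply (m : Sg l →₀ ℕ) (x : Fin 2) : qt m x = m (Sum.inl x) := by
  simp [qt]

/-- Shift rule. -/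
lemma S_monomial_mul (m : Sg l →₀ ℕ) (hm : good m) (F : MvPowerSeries (Sg l) ℤ)
    (v : Fin l → ℤ) :
    S (MvPowerSeries.monomial m 1 * F) v =
      MvPowerSeries.monomial (qt m) 1 * S F (v - flow m) := by
  classical
  ext γ
  rw [coeff_S, MvPowerSeries.coeff_monomial_mul]
  simp only [one_mul]
  have e1 : ∀ α, MvPowerSeries.coeff α (MvPowerSeries.monomial m (1 : ℤ) * F) =
      if m ≤ α then MvPowerSeries.coeff (α - m) F else 0 := by
    intro α
    rw [MvPowerSeries.coeff_monomial_mul]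
    simp
  simp only [e1]
  rw [← sum_filter]
  by_cases hq : qt m ≤ γ
  · rw [if_pos hq, coeff_S]
    apply sum_nbij' (fun α => α - m) (fun α => α + m)
    · intro α hα
      simp only [mem_filter, Set.Finite.mem_toFinset] at hα ⊢
      obtain ⟨⟨h1, h2, h3⟩, h4⟩ := hα
      have hα' : α = (α - m) + m := (tsub_add_cancel_of_le h4).symm
      refine ⟨?_, ?_, ?_⟩
      · intro x
        rw [Finsupp.tsub_apply, Finsupp.tsub_apply, h1, qt_apply]
      · intro i j hij
        rw [Finsupp.tsub_apply, h2 i j hij]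
        simp
      · rw [← h3]
        have := flow_add (α - m) m
        rw [← hα'] at this
        rw [this]
        abel
    · intro α hα
      simp only [mem_filter, Set.Finite.mem_toFinset] at hα ⊢
      obtain ⟨h1, h2, h3⟩ := hα
      refine ⟨⟨?_, ?_, ?_⟩, ?_⟩
      · intro x
        have h4 := hq x
        rw [qt_apply] at h4
        rw [Finsupp.add_apply, h1, Finsupp.tsub_apply, qt_apply]
        omega
      · intro i j hij
        rw [Finsupp.add_apply, h2 i j hij, hm i j hij]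
      · rw [flow_add, h3]
        abel
      · exact le_add_self
    · intro α hα
      simp only [mem_filter, Set.Finite.mem_toFinset] at hα
      exact tsub_add_cancel_of_le hα.2
    · intro α _
      exact add_tsub_cancel_right α m
    · intro α _
      rfl
  · rw [if_neg hq]
    apply sum_eq_zero
    intro α hα
    exfalso
    simp only [mem_filter, Set.Finite.mem_toFinset] at hα
    obtain ⟨⟨h1, _, _⟩, h4⟩ := hα
    apply hq
    intro x
    rw [qt_apply, ← h1 x]
    exact h4 _

/-- The fibre is empty when a suffix sum is positive. -/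
lemma S_eq_zero_of_suf (F : MvPowerSeries (Sg l) ℤ) (v : Fin l → ℤ) (j : Fin l)
    (h : 0 < suf j v) : S F v = 0 := by
  ext γ
  rw [coeff_S, map_zero]
  apply sum_eq_zero
  intro α hα
  exfalso
  simp only [Set.Finite.mem_toFinset] at hα
  have := suf_flow_le α j
  rw [hα.2.2] at this
  omega

/-- Fibre sums of `1`. -/
lemma S_one (v : Fin l → ℤ) : S (1 : MvPowerSeries (Sg l) ℤ) v = if v = 0 then 1 else 0 := by
  classical
  ext γ
  rw [coeff_S]
  simp only [MvPowerSeries.coeff_one]
  rw [sum_ite_eq']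
  by_cases hv : v = 0
  · subst hv
    rw [if_pos rfl, MvPowerSeries.coeff_one]
    by_cases hγ : γ = 0
    · subst hγ
      rw [if_pos rfl, if_pos]
      simp only [Set.Finite.mem_toFinset]
      exact ⟨fun x => rfl, fun i j _ => rfl, flow_zero⟩
    · rw [if_neg hγ, if_neg]
      simp only [Set.Finite.mem_toFinset]
      intro h
      apply hγ
      ext x
      exact (h.1 x).symm
  · rw [if_neg hv, if_neg]
    · simp
    · simp only [Set.Finite.mem_toFinset]
      intro h
      exact hv (h.2.2.symm.trans flow_zero)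

end Pool.Agent.H67.QTFiber
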