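import Pool.Agent.H67.QTChain
import Pool.Agent.H67.QTEval

/-!
Supports, the product for `l = 6`, and the negative coefficient.
-/

namespace Pool.Agent.H67.QTFiber

open Finset

variable {l : ℕ}

/-- Supported on good exponents. -/
def Gd (F : MvPowerSeries (Sg l) ℤ) : Prop := ∀ α, ¬ good α → MvPowerSeries.coeff α F = 0

lemma good_of_le {α β : Sg l →₀ ℕ} (h : α ≤ β) (hβ : good β) : good α := by
  intro i j hij
  have := h (Sum.inr (Sum.inr (i, j)))
  rw [hβ i j hij] at this
  omega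

lemma Gd.mul {F G : MvPowerSeries (Sg l) ℤ} (hF : Gd F) (hG : Gd G) : Gd (F * G) := by
  classical
  intro α hα
  rw [MvPowerSeries.coeff_mul]
  apply sum_eq_zero
  rintro ⟨β, γ⟩ h
  rw [HasAntidiagonal.mem_antidiagonal] at h
  simp only at h ⊢
  by_cases h1 : good β
  · by_cases h2 : good γ
    · exact absurd (h ▸ good_add h1 h2) hα
    · rw [hG γ h2, mul_zero]
  · rw [hF β h1, zero_mul]

lemma Gd.one : Gd (1 : MvPowerSeries (Sg l) ℤ) := by
  classical
  intro α hα
  rw [MvPowerSeries.coeff_one, if_neg]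
  rintro rfl
  exact hα (fun i j _ => rfl)

lemma Gd.sub {F G : MvPowerSeries (Sg l) ℤ} (hF : Gd F) (hG : Gd G) : Gd (F - G) := by
  intro α hα
  rw [map_sub, hF α hα, hG α hα, sub_zero]

lemma Gd.monomial {m : Sg l →₀ ℕ} (hm : good m) :
    Gd (MvPowerSeries.monomial m (1 : ℤ) : MvPowerSeries (Sg l) ℤ) := by
  classical
  intro α hα
  rw [MvPowerSeries.coeff_monomial, if_neg]
  rintro rfl
  exact hα hm

lemma Gd.Q : Gd (Qv l) := Gd.monomial (good_eQ 0)
lemma Gd.T : Gd (Tv l) := Gd.monomial (good_eQ 1)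
lemma Gd.Z (i : Fin l) : Gd (Zv i) := Gd.monomial (good_eZ i)
lemma Gd.U {i j : Fin l} (hij : i < j) : Gd (Uv i j) := Gd.monomial (good_eU hij)

lemma Gd.inv {M G : MvPowerSeries (Sg l) ℤ} (hM : Gd M) (h : (1 - M) * G = 1)
    (hc : MvPowerSeries.constantCoeff M = 0) : Gd G := by
  classical
  have hG : G = 1 + M * G := by
    rw [sub_mul, one_mul] at h
    rw [← h]; ring
  intro α
  induction α using WellFoundedLT.induction with
  | ind α ih =>
    intro hα
    rw [hG, map_add, MvPowerSeries.coeff_mul]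
    rw [Gd.one α hα, zero_add]
    apply sum_eq_zero
    rintro ⟨β, γ⟩ h
    rw [HasAntidiagonal.mem_antidiagonal] at h
    simp only at h ⊢
    by_cases h1 : good β
    · by_cases h2 : good γ
      · exact absurd (h ▸ good_add h1 h2) hα
      · by_cases h3 : β = 0
        · subst h3
          rw [MvPowerSeries.coeff_zero_eq_constantCoeff_apply, hc, zero_mul]
        · rw [ih γ _ h2, mul_zero]
          rw [← h]
          exact lt_add_of_pos_left γ (pos_iff_ne_zero.mpr h3)
    · rw [hM β h1, zero_mul]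

lemma Gd.prod {ι : Type*} (s : Finset ι) (f : ι → MvPowerSeries (Sg l) ℤ)
    (h : ∀ i ∈ s, Gd (f i)) : Gd (∏ i ∈ s, f i) := by
  classical
  induction s using Finset.induction_on with
  | empty => rw [prod_empty]; exact Gd.one
  | insert a s ha ih =>
    rw [prod_insert ha]
    exact (h a (mem_insert_self a s)).mul (ih (fun i hi => h i (mem_insert_of_mem hi)))

lemma Gd.Wf {i j : Fin l} (hij : i < j) : Gd (Wf i j) := by
  unfold QTFiber.Wf
  exact (((Gd.one.sub (Gd.U hij)).mul (Gd.one.sub ((Gd.Q.mul Gd.T).mul (Gd.U hij)))).mul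
    (Gd.inv (Gd.Q.mul (Gd.U hij)) (mul_inv_one_sub (Qv l * Uv i j) (by simp)) (by simp))).mul
    (Gd.inv (Gd.T.mul (Gd.U hij)) (mul_inv_one_sub (Tv l * Uv i j) (by simp)) (by simp))

lemma Gd.If {i j : Fin l} (hij : i < j) : Gd (If i j) := by
  unfold QTFiber.If
  exact Gd.inv ((Gd.Q.mul Gd.T).mul (Gd.U hij))
    (mul_inv_one_sub (Qv l * Tv l * Uv i j) (by simp)) (by simp)

lemma Gd.Zf (i : Fin l) : Gd (Zf i) := by
  unfold QTFiber.Zf
  exact Gd.inv (Gd.Z i) (mul_inv_one_sub (Zv i) (by simp)) (by simp)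

/-- The product in the form of the statement. -/
noncomputable def Phi (l : ℕ) : MvPowerSeries (Sg l) ℤ :=
  (∏ i : Fin l, ∏ j : Fin l, (if i < j then Wf i j else 1) *
    (if i.val + 1 = j.val then If i j else 1)) * ∏ i : Fin l, Zf i

lemma Gd.Phi : Gd (Phi l) := by
  unfold QTFiber.Phi
  apply Gd.mul
  · apply Gd.prod
    intro i _
    apply Gd.prod
    intro j _
    apply Gd.mul
    · split_ifs with h
      · exact Gd.Wf h
      · exact Gd.one
    · split_ifs with h
      · exact Gd.If (by rw [Fin.lt_def]; omega)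
      · exact Gd.one
  · apply Gd.prod
    intro i _
    exact Gd.Zf i

/-- The extraction of the statement agrees with the fibre sum. -/
lemma finsum_eq (F : MvPowerSeries (Sg l) ℤ) (hF : Gd F) (a c : ℕ) (v : Fin l → ℤ) :
    (∑ᶠ (α : Sg l →₀ ℕ) (_ : α (Sum.inl 0) = a ∧ α (Sum.inl 1) = c ∧ ∀ r : Fin l,
         (∑ j : Fin l, if r < j then (α (Sum.inr (Sum.inr (r, j))) : ℤ) else 0)
         - (∑ i : Fin l, if i < r then (α (Sum.inr (Sum.inr (i, r))) : ℤ) else 0)
         - (α (Sum.inr (Sum.inl r)) : ℤ) = v r),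
      MvPowerSeries.coeff α F) =
    MvPowerSeries.coeff (Finsupp.equivFunOnFinite.symm ![a, c]) (S F v) := by
  classical
  rw [coeff_S]
  rw [← finsum_mem_coe_finset]
  apply finsum_congr
  intro α
  by_cases hg : good α
  · refine finsum_congr_Prop (propext ?_) (fun _ => rfl)
    · simp only [SetLike.mem_coe, Set.Finite.mem_toFinset]
      constructor
      · rintro ⟨h1, h2, h3⟩
        refine ⟨?_, hg, ?_⟩
        · intro x
          fin_cases x
          · simpa using h1
          · simpa using h2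
        · funext r
          exact h3 r
      · rintro ⟨h1, h2, h3⟩
        refine ⟨?_, ?_, ?_⟩
        · simpa using h1 0
        · simpa using h1 1
        · intro r
          exact congrFun h3 r
  · rw [hF α hg]
    simp

lemma Phi6 : Phi 6 = P6 := by
  unfold Phi P6 P5 P4 P3 P2 P1
  have h0 : (0 : Fin 6).val = 0 := rfl
  have h1 : (1 : Fin 6).val = 1 := rfl
  have h2 : (2 : Fin 6).val = 2 := rfl
  have h3 : (3 : Fin 6).val = 3 := rfl
  have h4 : (4 : Fin 6).val = 4 := rfl
  have h5 : (5 : Fin 6).val = 5 := rfl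
  simp only [Fin.prod_univ_six, Fin.reduceLT, if_true, if_false, h0, h1, h2, h3, h4, h5,
    Nat.reduceEqDiff, reduceCtorEq, OfNat.ofNat_ne_zero, OfNat.zero_ne_ofNat,
    Fin.isValue, zero_ne_one, one_ne_zero, OfNat.ofNat_ne_one]
  ring

/-- The negative coefficient. -/
theorem neg_coeff : ∃ a c : ℕ, MvPowerSeries.coeff (Finsupp.equivFunOnFinite.symm ![a, c])
    (S (Phi 6) (V 0 18 7 7 2 2)) < 0 := by
  obtain ⟨m, hm⟩ := exists_neg
  refine ⟨m 0, m 1, ?_⟩
  rw [Phi6, S6]
  have e1 : A6 qK tK 18 7 7 2 2 = MvPolynomial.coeToMvPowerSeries.ringHom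
      (A6 (MvPolynomial.X 0 : MvPolynomial (Fin 2) ℤ) (MvPolynomial.X 1) 18 7 7 2 2) := by
    rw [map_A6]
    simp
  rw [e1, MvPolynomial.coeToMvPowerSeries.ringHom_apply, MvPolynomial.coeff_coe]
  have e2 : (Finsupp.equivFunOnFinite.symm ![m 0, m 1] : Fin 2 →₀ ℕ) = m := by
    ext x
    fin_cases x <;> simp
  rw [e2]
  exact hm

end Pool.Agent.H67.QTFiber
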