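import Pool.Agent.H67.QTFiber

/-!
Generating functions of fibre sums along a line.
-/

namespace Pool.Agent.H67.QTFiber

open Finset

variable {l : ℕ}

/-- Coefficient ring. -/
abbrev KK : Type := MvPowerSeries (Fin 2) ℤ

/-- Fibre sums along the line `w + n δ`. -/
noncomputable def line (δ w : Fin l → ℤ) (F : MvPowerSeries (Sg l) ℤ) : PowerSeries KK :=
  PowerSeries.mk (fun n => S F (w + (n : ℤ) • δ))

lemma line_sub (δ w : Fin l → ℤ) (F G : MvPowerSeries (Sg l) ℤ) :
    line δ w (F - G) = line δ w F - line δ w G := by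
  ext n : 1
  rw [map_sub]
  simp only [line, PowerSeries.coeff_mk, S_sub]

/-- `f` acts on fibre sums as the power series `p` in the shift by `δ`. -/
def Has (j : Fin l) (δ : Fin l → ℤ) (f : MvPowerSeries (Sg l) ℤ) (p : PowerSeries KK) : Prop :=
  ∀ (F : MvPowerSeries (Sg l) ℤ) (w : Fin l → ℤ), 0 < suf j w →
    line δ w (f * F) = p * line δ w F

lemma Has.mul {j : Fin l} {δ : Fin l → ℤ} {f g : MvPowerSeries (Sg l) ℤ} {p r : PowerSeries KK}
    (hf : Has j δ f p) (hg : Has j δ g r) : Has j δ (f * g) (p * r) := by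
  intro F w hw
  rw [mul_assoc, hf _ _ hw, hg _ _ hw, mul_assoc]

lemma Has.inv {j : Fin l} {δ : Fin l → ℤ} {f g : MvPowerSeries (Sg l) ℤ} {p r : PowerSeries KK}
    (hf : Has j δ f p) (hfg : f * g = 1) (hpr : p * r = 1) : Has j δ g r := by
  intro F w hw
  have h := hf (g * F) w hw
  rw [← mul_assoc, hfg, one_mul] at h
  rw [h, ← mul_assoc, mul_comm r p, hpr, one_mul]

lemma has_one_sub {j : Fin l} {δ : Fin l → ℤ} (m : Sg l →₀ ℕ) (hm : good m) (hδ : flow m = δ) :
    Has j δ (1 - MvPowerSeries.monomial m 1)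
      (1 - PowerSeries.C (MvPowerSeries.monomial (qt m) 1 : KK) * PowerSeries.X) := by
  intro F w hw
  rw [sub_mul, sub_mul, one_mul, one_mul, line_sub]
  congr 1
  ext n : 1
  rw [mul_assoc, PowerSeries.coeff_C_mul]
  simp only [line, PowerSeries.coeff_mk]
  rw [S_monomial_mul m hm, hδ]
  cases n with
  | zero =>
    rw [PowerSeries.coeff_zero_X_mul, mul_zero]
    rw [show w + ((0 : ℕ) : ℤ) • δ - δ = w - δ by simp]
    rw [S_eq_zero_of_suf F (w - δ) j, mul_zero]
    rw [suf_sub, ← hδ]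
    have := suf_flow_le m j
    linarith
  | succ n =>
    rw [PowerSeries.coeff_succ_X_mul, PowerSeries.coeff_mk]
    congr 2
    push_cast
    rw [add_smul, one_smul]
    abel

lemma suf_smul (j : Fin l) (c : ℤ) (v : Fin l → ℤ) : suf j (c • v) = c * suf j v := by
  simp only [suf, Pi.smul_apply, smul_eq_mul]
  rw [mul_sum]
  apply sum_congr rfl
  intro r _
  by_cases h : j ≤ r <;> simp [h]

/-- The step lemma. -/
lemma Has.step {j : Fin l} {δ : Fin l → ℤ} {f : MvPowerSeries (Sg l) ℤ} {p : PowerSeries KK}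
    (hf : Has j δ f p) (hδ : suf j δ = -1) (F : MvPowerSeries (Sg l) ℤ) (v : Fin l → ℤ)
    (n : ℕ) (hv : suf j v = -(n : ℤ)) :
    S (f * F) v = ∑ k ∈ range (n + 1), PowerSeries.coeff k p * S F (v - (k : ℤ) • δ) := by
  set w : Fin l → ℤ := v - ((n + 1 : ℕ) : ℤ) • δ with hw
  have hsw : suf j w = 1 := by
    rw [hw, suf_sub, suf_smul, hδ, hv]
    push_cast
    ring
  have h := hf F w (by rw [hsw]; norm_num)
  have h2 := congrArg (PowerSeries.coeff (n + 1)) h
  rw [PowerSeries.coeff_mul] at h2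
  simp only [line, PowerSeries.coeff_mk] at h2
  rw [show w + ((n + 1 : ℕ) : ℤ) • δ = v by rw [hw]; abel] at h2
  rw [h2, Finset.Nat.sum_antidiagonal_eq_sum_range_succ
    (f := fun a b => PowerSeries.coeff a p * S F (w + (b : ℤ) • δ))]
  rw [sum_range_succ]
  have e0 : S F (w + ((n + 1 - (n + 1) : ℕ) : ℤ) • δ) = 0 := by
    apply S_eq_zero_of_suf F _ j
    rw [suf_add, suf_smul, hsw]
    simp
  rw [e0, mul_zero, add_zero]
  apply sum_congr rfl
  intro k hk
  rw [mem_range] at hk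
  congr 2
  rw [hw, Nat.cast_sub (by omega)]
  rw [sub_smul]
  abel

/-- The vanishing lemma. -/
lemma Has.van {j : Fin l} {δ : Fin l → ℤ} {f : MvPowerSeries (Sg l) ℤ} {p : PowerSeries KK}
    (hf : Has j δ f p) (hδ : suf j δ = -1) (r : Fin l) (hr : δ r = 0)
    (F : MvPowerSeries (Sg l) ℤ) (hF : ∀ v : Fin l → ℤ, v r ≠ 0 → S F v = 0)
    (v : Fin l → ℤ) (hv : v r ≠ 0) : S (f * F) v = 0 := by
  by_cases h : 0 < suf j v
  · exact S_eq_zero_of_suf _ _ j h
  · obtain ⟨n, hn⟩ : ∃ n : ℕ, suf j v = -(n : ℤ) := ⟨(-suf j v).toNat, by omega⟩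
    rw [hf.step hδ F v n hn]
    apply sum_eq_zero
    intro k _
    rw [hF, mul_zero]
    simp only [Pi.sub_apply, Pi.smul_apply, hr, smul_zero, sub_zero]
    exact hv

end Pool.Agent.H67.QTFiber
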